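import Pool.Agent.RVM.WeakSeq

set_option autoImplicit false

open MeasureTheory Set Filter Topology Cardinal
open scoped ENNReal

namespace Pool.Agent.RVM

namespace Ces

/-- choice of a quasi-orthogonal subsequence -/
theorem exists_seq (a : ℕ → ℕ → ℝ) (ha : ∀ i, Tendsto (fun n => a i n) atTop (𝓝 0)) :
    ∃ m : ℕ → ℕ, StrictMono m ∧ ∀ i j, i < j → |a (m i) (m j)| ≤ (1 / 2) ^ j := by
  have hstep : ∀ j M : ℕ, ∃ n : ℕ, M < n ∧ ∀ i, i ≤ M → |a i n| ≤ (1 / 2) ^ (j + 1) := by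
    intro j M
    have h1 : ∀ᶠ n in atTop, ∀ i ∈ Finset.range (M + 1), |a i n| ≤ (1 / 2) ^ (j + 1) := by
      rw [Finset.eventually_all]
      intro i _
      have h2 := (ha i).abs
      rw [abs_zero] at h2
      exact h2.eventually (eventually_le_nhds (by positivity))
    obtain ⟨n, hn1, hn2⟩ := (h1.and (eventually_gt_atTop M)).exists
    exact ⟨n, hn2, fun i hi => hn1 i (Finset.mem_range.mpr (by omega))⟩
  choose g hg1 hg2 using hstep
  let m : ℕ → ℕ := fun j => Nat.rec 0 (fun j M => g j M) j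
  have hm : ∀ j, m (j + 1) = g j (m j) := fun j => rfl
  have hmono : StrictMono m := strictMono_nat_of_lt_succ (fun j => by
    rw [hm]; exact hg1 j (m j))
  refine ⟨m, hmono, ?_⟩
  intro i j hij
  obtain ⟨j', rfl⟩ : ∃ j', j = j' + 1 := ⟨j - 1, by omega⟩
  rw [hm j']
  exact hg2 j' (m j') (m i) (hmono.monotone (by omega))

/-- second moments of the partial sums -/
theorem second_moment {Ω : Type} [MeasurableSpace Ω] (μ : Measure Ω) (hμ : IsFiniteMeasure μ)
    (F : ℕ → Ω → ℝ) (hF : ∀ n, AEStronglyMeasurable (F n) μ) (B : ℝ) (hB0 : 0 ≤ B)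
    (hB : ∀ n ω, |F n ω| ≤ B)
    (horth : ∀ i j, i < j → |∫ ω, F i ω * F j ω ∂μ| ≤ (1 / 2) ^ j) (N : ℕ) :
    Integrable (fun ω => (∑ i ∈ Finset.range N, F i ω) ^ 2) μ ∧
      ∫ ω, (∑ i ∈ Finset.range N, F i ω) ^ 2 ∂μ ≤ (2 + B ^ 2 * μ.real univ) * N := by
  have hint : ∀ i j, Integrable (fun ω => F i ω * F j ω) μ := by
    intro i j
    refine Integrable.of_bound ((hF i).mul (hF j)) (B * B) (Eventually.of_forall (fun ω => ?_))
    rw [norm_mul]
    exact mul_le_mul (hB i ω) (hB j ω) (norm_nonneg _) hB0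
  induction N with
  | zero => simp
  | succ N ih =>
    have hcross : Integrable (fun ω => ∑ i ∈ Finset.range N, F i ω * F N ω) μ :=
      integrable_finsetSum _ (fun i _ => hint i N)
    have hsq : Integrable (fun ω => F N ω ^ 2) μ := by
      have := hint N N
      refine this.congr (Eventually.of_forall (fun ω => ?_))
      simp only
      ring
    have heq : (fun ω => (∑ i ∈ Finset.range (N + 1), F i ω) ^ 2) =
        fun ω => (∑ i ∈ Finset.range N, F i ω) ^ 2 +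
          (2 * (∑ i ∈ Finset.range N, F i ω * F N ω) + F N ω ^ 2) := by
      funext ω
      rw [Finset.sum_range_succ, ← Finset.sum_mul]
      ring
    rw [heq]
    have hi2 : Integrable (fun ω => 2 * (∑ i ∈ Finset.range N, F i ω * F N ω) + F N ω ^ 2) μ :=
      (hcross.const_mul 2).add hsq
    refine ⟨ih.1.add hi2, ?_⟩
    rw [integral_add ih.1 hi2, integral_add (hcross.const_mul 2) hsq, integral_const_mul,
      integral_finsetSum _ (fun i _ => hint i N)]
    have h1 : ∑ i ∈ Finset.range N, ∫ ω, F i ω * F N ω ∂μ ≤ 1 := by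
      calc ∑ i ∈ Finset.range N, ∫ ω, F i ω * F N ω ∂μ
          ≤ ∑ i ∈ Finset.range N, (1 / 2 : ℝ) ^ N :=
            Finset.sum_le_sum (fun i hi =>
              (le_abs_self _).trans (horth i N (Finset.mem_range.mp hi)))
        _ = N * (1 / 2 : ℝ) ^ N := by rw [Finset.sum_const, Finset.card_range, nsmul_eq_mul]
        _ ≤ 1 := by
            rw [one_div, inv_pow, ← div_eq_mul_inv, div_le_one (by positivity)]
            exact_mod_cast Nat.lt_two_pow_self.le
    have h2 : ∫ ω, F N ω ^ 2 ∂μ ≤ B ^ 2 * μ.real univ := by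
      have h3 : ∫ ω, F N ω ^ 2 ∂μ ≤ ∫ _ω, B ^ 2 ∂μ := by
        refine integral_mono hsq (integrable_const _) (fun ω => ?_)
        simp only
        rw [← sq_abs]
        exact pow_le_pow_left₀ (abs_nonneg _) (hB N ω) 2
      rw [integral_const, smul_eq_mul, mul_comm] at h3
      exact h3
    push_cast
    linarith [ih.2]

end Ces

open Ces

theorem cesaro {Ω : Type} [MeasurableSpace Ω] (μ : Measure Ω) (hμ : IsFiniteMeasure μ)
    (u : ℕ → Ω → ℝ) (hu : ∀ n, AEMeasurable (u n) μ) (C : ℝ) (h0 : ∀ n ω, 0 ≤ u n ω)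
    (hb : ∀ n ω, u n ω ≤ C) (δ : ℝ) (hδ : 0 < δ) (hint : ∀ n, δ ≤ ∫ ω, u n ω ∂μ) :
    ∃ k : ℕ → ℕ, StrictMono k ∧ ∃ G : Set Ω, MeasurableSet G ∧ 0 < μ G ∧ ∃ δ' : ℝ, 0 < δ' ∧
      ∀ ω ∈ G, ∀ᶠ N : ℕ in atTop, δ' * N ≤ ∑ n ∈ Finset.range N, u (k n) ω := by
  set C' := max C 0 with hC'
  have hC0 : 0 ≤ C' := le_max_right _ _
  have hb' : ∀ n ω, u n ω ≤ C' := fun n ω => (hb n ω).trans (le_max_left _ _)
  obtain ⟨k, h, hk, hmeas, hhb, hweak⟩ := weakSeq μ hμ u (fun n => (hu n).aestronglyMeasurable) C'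
    hC0 (fun n => Eventually.of_forall (fun ω => by
      rw [abs_of_nonneg (h0 n ω)]; exact hb' n ω))
  set f : ℕ → Ω → ℝ := fun n ω => u (k n) ω - h ω with hf
  have hfm : ∀ n, AEStronglyMeasurable (f n) μ := fun n =>
    ((hu (k n)).aestronglyMeasurable).sub hmeas.aestronglyMeasurable
  have hfb : ∀ n ω, |f n ω| ≤ 2 * C' := by
    intro n ω
    rw [hf]
    simp only
    have h1 := abs_le.mp (hhb ω)
    have h2 := h0 (k n) ω
    have h3 := hb' (k n) ω
    rw [abs_le]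
    constructor <;> linarith [h1.1, h1.2]
  have hfi : ∀ n, Integrable (f n) μ := fun n =>
    Integrable.of_bound (hfm n) (2 * C') (Eventually.of_forall (fun ω => hfb n ω))
  have hui : ∀ n, Integrable (u n) μ := fun n =>
    Integrable.of_bound (hu n).aestronglyMeasurable C' (Eventually.of_forall (fun ω => by
      rw [Real.norm_eq_abs, abs_of_nonneg (h0 n ω)]; exact hb' n ω))
  have hhi : Integrable h μ :=
    Integrable.of_bound hmeas.aestronglyMeasurable C' (Eventually.of_forall (fun ω => hhb ω))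
  -- weak limits of the products
  have hlim : ∀ i, Tendsto (fun n => ∫ ω, f i ω * f n ω ∂μ) atTop (𝓝 0) := by
    intro i
    have h1 := hweak (f i) (hfi i)
    have h2 := h1.sub_const (∫ ω, h ω * f i ω ∂μ)
    rw [sub_self] at h2
    refine h2.congr (fun n => ?_)
    have e1 : Integrable (fun ω => u (k n) ω * f i ω) μ := by
      refine Integrable.of_bound ((hu (k n)).aestronglyMeasurable.mul (hfm i)) (C' * (2 * C'))
        (Eventually.of_forall (fun ω => ?_))
      rw [norm_mul]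
      refine mul_le_mul ?_ (hfb i ω) (norm_nonneg _) hC0
      rw [Real.norm_eq_abs, abs_of_nonneg (h0 _ ω)]; exact hb' _ ω
    have e2 : Integrable (fun ω => h ω * f i ω) μ := by
      refine Integrable.of_bound (hmeas.aestronglyMeasurable.mul (hfm i)) (C' * (2 * C'))
        (Eventually.of_forall (fun ω => ?_))
      rw [norm_mul]
      exact mul_le_mul (hhb ω) (hfb i ω) (norm_nonneg _) hC0
    rw [← integral_sub e1 e2]
    refine integral_congr_ae (Eventually.of_forall (fun ω => ?_))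
    simp only [hf]
    ring
  obtain ⟨m, hm, horth⟩ := exists_seq (fun i n => ∫ ω, f i ω * f n ω ∂μ) hlim
  set F : ℕ → Ω → ℝ := fun n => f (m n) with hFdef
  have hFm : ∀ n, AEStronglyMeasurable (F n) μ := fun n => hfm (m n)
  have hFb : ∀ n ω, |F n ω| ≤ 2 * C' := fun n ω => hfb (m n) ω
  have hmom := second_moment μ hμ F hFm (2 * C') (by linarith) hFb horth
  set K : ℝ := 2 + (2 * C') ^ 2 * μ.real univ with hK
  have hK0 : 0 ≤ K := by rw [hK]; positivity
  -- the mean of `h`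
  have hhint : δ ≤ ∫ ω, h ω ∂μ := by
    have h1 := hweak (fun _ => 1) (integrable_const _)
    simp only [mul_one] at h1
    exact ge_of_tendsto h1 (Eventually.of_forall (fun n => hint (k n)))
  set M : ℝ := μ.real univ with hM
  have hM0 : 0 ≤ M := measureReal_nonneg
  set δ2 : ℝ := δ / (2 * (M + 1)) with hδ2
  have hδ2pos : 0 < δ2 := by positivity
  have hG0 : 0 < μ {ω | δ2 ≤ h ω} := by
    by_contra hcon
    have hz : μ {ω | δ2 ≤ h ω} = 0 := by
      exact nonpos_iff_eq_zero.mp (not_lt.mp hcon)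
    have hae : ∀ᵐ ω ∂μ, h ω ≤ δ2 := by
      have : ∀ᵐ ω ∂μ, ¬ δ2 ≤ h ω := by
        rw [ae_iff]
        simpa using hz
      filter_upwards [this] with ω hω
      exact (not_le.mp hω).le
    have h1 : ∫ ω, h ω ∂μ ≤ ∫ _ω, δ2 ∂μ := integral_mono_ae hhi (integrable_const _) hae
    rw [integral_const, smul_eq_mul] at h1
    have h2 : μ.real univ * δ2 ≤ δ / 2 := by
      rw [hδ2, ← hM]
      rw [mul_div_assoc', div_le_div_iff₀ (by positivity) (by norm_num)]
      nlinarith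
    linarith
  -- Borel-Cantelli along squares
  set c : ℝ := δ2 / 4 with hc
  have hcpos : 0 < c := by positivity
  set Bd : ℕ → Set Ω := fun j => {ω | (c * ((j:ℝ) + 1) ^ 2) ^ 2 ≤
    (∑ i ∈ Finset.range ((j + 1) ^ 2), F i ω) ^ 2} with hBd
  have hBdm : ∀ j, μ (Bd j) ≤ ENNReal.ofReal (K / c ^ 2 * (1 / ((j:ℝ) + 1) ^ 2)) := by
    intro j
    have h1 := mul_meas_ge_le_integral_of_nonneg (μ := μ)
      (f := fun ω => (∑ i ∈ Finset.range ((j + 1) ^ 2), F i ω) ^ 2)
      (Eventually.of_forall (fun ω => sq_nonneg _)) (hmom ((j + 1) ^ 2)).1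
      ((c * ((j:ℝ) + 1) ^ 2) ^ 2)
    have h2 := h1.trans (hmom ((j + 1) ^ 2)).2
    rw [← ENNReal.ofReal_toReal (measure_ne_top μ (Bd j))]
    apply ENNReal.ofReal_le_ofReal
    have h3 : (c * ((j:ℝ) + 1) ^ 2) ^ 2 * (μ (Bd j)).toReal ≤ K * ((j:ℝ) + 1) ^ 2 := by
      have h4 : (((((j + 1) ^ 2 : ℕ)) : ℕ) : ℝ) = ((j:ℝ) + 1) ^ 2 := by push_cast; ring
      rw [h4] at h2
      exact h2
    have hj : (0:ℝ) < (j:ℝ) + 1 := by positivity
    have h5 : (μ (Bd j)).toReal ≤ K * ((j:ℝ) + 1) ^ 2 / (c * ((j:ℝ) + 1) ^ 2) ^ 2 := by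
      rw [le_div_iff₀ (by positivity), mul_comm]
      exact h3
    refine h5.trans (le_of_eq ?_)
    field_simp
  have hsum : (∑' j, μ (Bd j)) ≠ ∞ := by
    have hs : Summable (fun j : ℕ => K / c ^ 2 * (1 / ((j:ℝ) + 1) ^ 2)) := by
      apply Summable.mul_left
      have h1 : Summable (fun n : ℕ => 1 / ((n:ℝ)) ^ 2) :=
        Real.summable_one_div_nat_pow.mpr (by norm_num)
      have h2 := (summable_nat_add_iff 1).mpr h1
      refine h2.congr (fun j => ?_)
      push_cast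
      rfl
    exact ne_top_of_le_ne_top hs.tsum_ofReal_ne_top (ENNReal.tsum_le_tsum hBdm)
  have hae := ae_eventually_notMem hsum
  set Z : Set Ω := {ω | ¬ ∀ᶠ j in atTop, ω ∉ Bd j} with hZ
  have hZ0 : μ Z = 0 := ae_iff.mp hae
  refine ⟨k ∘ m, hk.comp hm, {ω | δ2 ≤ h ω} ∩ (toMeasurable μ Z)ᶜ, ?_, ?_, c / 2, by positivity, ?_⟩
  · exact (measurableSet_le measurable_const hmeas).inter (measurableSet_toMeasurable μ Z).compl
  · have h1 : μ ({ω | δ2 ≤ h ω} ∩ (toMeasurable μ Z)ᶜ) = μ {ω | δ2 ≤ h ω} := by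
      rw [← sdiff_eq]
      apply measure_sdiff_null
      rw [measure_toMeasurable]
      exact hZ0
    rw [h1]
    exact hG0
  · rintro ω ⟨hω1, hω2⟩
    have hωZ : ω ∉ Z := fun hz => hω2 (subset_toMeasurable μ Z hz)
    rw [hZ, mem_ofPred_eq, not_not] at hωZ
    rw [mem_ofPred_eq] at hω1
    obtain ⟨j0, hj0⟩ := eventually_atTop.mp hωZ
    rw [eventually_atTop]
    refine ⟨(j0 + 1) ^ 2, fun N hN => ?_⟩
    -- `j + 1 = sqrt N`
    have hs1 : j0 + 1 ≤ Nat.sqrt N := by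
      rw [Nat.le_sqrt']
      exact hN
    obtain ⟨j, hj⟩ : ∃ j, Nat.sqrt N = j + 1 := ⟨Nat.sqrt N - 1, by omega⟩
    have hjj : j0 ≤ j := by omega
    have hN1 : (j + 1) ^ 2 ≤ N := by
      rw [← hj]; exact Nat.sqrt_le' N
    have hN2 : N < (j + 2) ^ 2 := by
      have := Nat.lt_succ_sqrt' N
      rw [hj] at this
      exact this
    have hnot := hj0 j hjj
    rw [hBd] at hnot
    simp only [mem_ofPred_eq, not_le] at hnot
    have hS : -(c * ((j:ℝ) + 1) ^ 2) < ∑ i ∈ Finset.range ((j + 1) ^ 2), F i ω := by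
      have := abs_lt_of_sq_lt_sq hnot (by positivity)
      exact (abs_lt.mp this).1
    have hSeq : ∑ i ∈ Finset.range ((j + 1) ^ 2), F i ω =
        (∑ i ∈ Finset.range ((j + 1) ^ 2), u ((k ∘ m) i) ω) - ((j:ℝ) + 1) ^ 2 * h ω := by
      rw [hFdef]
      simp only [hf]
      rw [Finset.sum_sub_distrib, Finset.sum_const, Finset.card_range, nsmul_eq_mul]
      push_cast
      rfl
    rw [hSeq] at hS
    have hmono : ∑ i ∈ Finset.range ((j + 1) ^ 2), u ((k ∘ m) i) ω ≤
        ∑ i ∈ Finset.range N, u ((k ∘ m) i) ω := by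
      apply Finset.sum_le_sum_of_subset_of_nonneg
      · exact Finset.range_subset_range.mpr hN1
      · intro i _ _
        exact h0 _ ω
    have hjr : (0:ℝ) ≤ j := Nat.cast_nonneg _
    have hNr : (N:ℝ) ≤ 4 * ((j:ℝ) + 1) ^ 2 := by
      have h1 : (N:ℝ) ≤ ((j:ℝ) + 2) ^ 2 := by exact_mod_cast hN2.le
      nlinarith
    have hh : ((j:ℝ) + 1) ^ 2 * δ2 ≤ ((j:ℝ) + 1) ^ 2 * h ω :=
      mul_le_mul_of_nonneg_left hω1 (by positivity)
    have hδc : δ2 = 4 * c := by rw [hc]; ring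
    rw [hδc] at hh
    calc c / 2 * N ≤ c / 2 * (4 * ((j:ℝ) + 1) ^ 2) :=
          mul_le_mul_of_nonneg_left hNr (by positivity)
      _ ≤ ∑ i ∈ Finset.range ((j + 1) ^ 2), u ((k ∘ m) i) ω := by nlinarith
      _ ≤ _ := hmono

end Pool.Agent.RVM
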