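import Pool.Agent.RVM.Cesaro

set_option autoImplicit false

open MeasureTheory Set Filter Topology Cardinal
open scoped ENNReal

namespace Pool.Agent.RVM

namespace Comp1aux

theorem ae_bound {X : Type} [NormedAddCommGroup X] [NormedSpace ℝ X]
    {Ω : Type} [MeasurableSpace Ω] (μ : Measure Ω)
    (f : Ω → X) (hf : Pettis μ f) (H : Set Ω) (hHm : MeasurableSet H) (M : ℝ)
    (hH : ∀ G : Set Ω, MeasurableSet G → 0 < μ (G ∩ H) → 0 < μ (G ∩ H ∩ {ω | ‖f ω‖ ≤ M}))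
    (φ : X →L[ℝ] ℝ) (hφ : ‖φ‖ ≤ 1) :
    ∀ᵐ ω ∂(μ.restrict H), |φ (f ω)| ≤ M := by
  have hint := hf.1 φ
  obtain ⟨g, hg, hgf⟩ := hint.aestronglyMeasurable
  set G : Set Ω := {ω | M < |g ω|} with hG
  have hGm : MeasurableSet G := by
    have h1 : Measurable fun ω => |g ω| := by
      have := hg.measurable
      exact measurable_norm.comp this
    exact measurableSet_lt measurable_const h1
  have h0 : μ (G ∩ H) = 0 := by
    by_contra hne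
    have hpos : 0 < μ (G ∩ H) := pos_iff_ne_zero.2 hne
    have h2 := hH G hGm hpos
    have h3 : μ (G ∩ H ∩ {ω | ‖f ω‖ ≤ M}) = 0 := by
      refine measure_mono_null ?_ (ae_iff.1 hgf)
      intro ω hω
      show ¬ (φ (f ω) = g ω)
      intro heq
      have h4 : M < |g ω| := hω.1.1
      rw [← heq] at h4
      have h5 : ‖f ω‖ ≤ M := hω.2
      have h6 : |φ (f ω)| ≤ M := by
        rw [← Real.norm_eq_abs]
        calc ‖φ (f ω)‖ ≤ ‖φ‖ * ‖f ω‖ := φ.le_opNorm _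
          _ ≤ 1 * ‖f ω‖ := mul_le_mul_of_nonneg_right hφ (norm_nonneg _)
          _ ≤ M := by rw [one_mul]; exact h5
      exact absurd h4 (not_lt.2 h6)
    rw [h3] at h2
    exact lt_irrefl _ h2
  rw [ae_restrict_iff' hHm]
  have h1 : ∀ᵐ ω ∂μ, ω ∉ G ∩ H := by
    rw [ae_iff]
    simpa using h0
  filter_upwards [h1, hgf] with ω h2 h3 h4
  rw [h3]
  by_contra h5
  exact h2 ⟨not_le.1 h5, h4⟩

end Comp1aux

/-
PLAN.  On `H`: `|φ (f ω)| ≤ M ‖φ‖` for `μ`-a.e. `ω ∈ H` (otherwise a measurable positive part `G` of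
`{M‖φ‖ < |φ f|} ∩ H` is disjoint from `{‖f‖ ≤ M}`, against `hH`; `φ ∘ f` is a.e. measurable).
`weakSeq` on `μ.restrict H` with `u n ω = φ n (f ω)`, `C = M`: `k`, `h`.  `ψ' n := φ (k (2n)) - φ (k (2n+1))`;
`‖ψ' n‖ ≤ 2`, `ε ≤ ∫_H (ψ' n f)²`, and `∫_A ψ' n f → 0` for measurable `A ⊆ H` (test function `1_A`).
`cesaro` on `μ.restrict H` with `u n ω := min ((ψ' n (f ω))²) (4 M²)` (a.e. equal to `(ψ' n f)²` on `H`):
`k'`, `G`, `δ'`.  `ψ n := ψ' (k' n)`, `Ω0 := {ω ∈ G ∩ H | ‖f ω‖ ≤ M}` (positive outer measure by `hH`).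
-/
theorem comp1 {X : Type} [NormedAddCommGroup X] [NormedSpace ℝ X]
    {Ω : Type} [MeasurableSpace Ω] (μ : Measure Ω) (hμ : IsProbabilityMeasure μ)
    (f : Ω → X) (hf : Pettis μ f) (H : Set Ω) (hHm : MeasurableSet H) (M : ℝ) (hM : 0 < M)
    (hH : ∀ G : Set Ω, MeasurableSet G → 0 < μ (G ∩ H) → 0 < μ (G ∩ H ∩ {ω | ‖f ω‖ ≤ M}))
    (φ : ℕ → (X →L[ℝ] ℝ)) (hφ : ∀ n, ‖φ n‖ ≤ 1) (ε : ℝ) (hε : 0 < ε)
    (hsep : ∀ n m, n ≠ m → ε ≤ ∫ ω in H, (φ n (f ω) - φ m (f ω)) ^ 2 ∂μ) :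
    ∃ ψ : ℕ → (X →L[ℝ] ℝ), (∀ n, ‖ψ n‖ ≤ 2) ∧
      (∀ A : Set Ω, MeasurableSet A → A ⊆ H →
        Tendsto (fun n => ∫ ω in A, ψ n (f ω) ∂μ) atTop (𝓝 0)) ∧
      ∃ δ : ℝ, 0 < δ ∧ ∃ Ω0 : Set Ω, 0 < μ Ω0 ∧ Ω0 ⊆ H ∧ (∀ ω ∈ Ω0, ‖f ω‖ ≤ M) ∧
        ∀ ω ∈ Ω0, ∀ᶠ N : ℕ in atTop, δ * N ≤ ∑ n ∈ Finset.range N, (ψ n (f ω)) ^ 2 := by
  have hfin : IsFiniteMeasure (μ.restrict H) := inferInstance
  have hb : ∀ n, ∀ᵐ ω ∂(μ.restrict H), |φ n (f ω)| ≤ M := fun n =>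
    Comp1aux.ae_bound μ f hf H hHm M hH (φ n) (hφ n)
  obtain ⟨k, h, hk, hh1, hh2, hh3⟩ := weakSeq (μ.restrict H) hfin (fun n ω => φ n (f ω))
    (fun n => (hf.1 (φ n)).aestronglyMeasurable.restrict) M hM.le hb
  set ψ' : ℕ → (X →L[ℝ] ℝ) := fun n => φ (k (2 * n)) - φ (k (2 * n + 1)) with hψ'
  have hψ'n : ∀ n, ‖ψ' n‖ ≤ 2 := by
    intro n
    calc ‖ψ' n‖ ≤ ‖φ (k (2 * n))‖ + ‖φ (k (2 * n + 1))‖ := norm_sub_le _ _
      _ ≤ 2 := by linarith [hφ (k (2 * n)), hφ (k (2 * n + 1))]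
  have hψ'i : ∀ n, ε ≤ ∫ ω in H, (ψ' n (f ω)) ^ 2 ∂μ := by
    intro n
    have h1 : k (2 * n) ≠ k (2 * n + 1) := (hk (Nat.lt_succ_self _)).ne
    exact hsep _ _ h1
  have hlim : ∀ A : Set Ω, MeasurableSet A → A ⊆ H →
      Tendsto (fun n => ∫ ω in A, ψ' n (f ω) ∂μ) atTop (𝓝 0) := by
    intro A hA hAH
    have h1 := hh3 (A.indicator fun _ => (1 : ℝ)) ((integrable_const (1 : ℝ)).indicator hA)
    have h2 : ∀ m, ∫ ω, φ (k m) (f ω) * A.indicator (fun _ => (1 : ℝ)) ω ∂(μ.restrict H) =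
        ∫ ω in A, φ (k m) (f ω) ∂μ := by
      intro m
      have h3 : (fun ω => φ (k m) (f ω) * A.indicator (fun _ => (1 : ℝ)) ω) =
          A.indicator fun ω => φ (k m) (f ω) := by
        funext ω
        by_cases hω : ω ∈ A <;> simp [hω]
      rw [h3, integral_indicator hA, Measure.restrict_restrict hA, inter_eq_left.2 hAH]
    simp only [h2] at h1
    have h4 : Tendsto (fun n : ℕ => 2 * n) atTop atTop :=
      tendsto_atTop_mono (fun n => by simp only [id]; omega) tendsto_id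
    have h5 : Tendsto (fun n : ℕ => 2 * n + 1) atTop atTop :=
      tendsto_atTop_mono (fun n => by simp only [id]; omega) tendsto_id
    have h6 := (h1.comp h4).sub (h1.comp h5)
    rw [sub_self] at h6
    refine h6.congr fun n => ?_
    have i1 := (hf.1 (φ (k (2 * n)))).restrict (s := A)
    have i2 := (hf.1 (φ (k (2 * n + 1)))).restrict (s := A)
    exact (integral_sub i1 i2).symm
  have hae : ∀ n, ∀ᵐ ω ∂(μ.restrict H), (ψ' n (f ω)) ^ 2 ≤ 4 * M ^ 2 := by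
    intro n
    filter_upwards [hb (k (2 * n)), hb (k (2 * n + 1))] with ω h1 h2
    have h3 : |ψ' n (f ω)| ≤ 2 * M := by
      calc |ψ' n (f ω)| ≤ |φ (k (2 * n)) (f ω)| + |φ (k (2 * n + 1)) (f ω)| := abs_sub _ _
        _ ≤ 2 * M := by linarith
    calc (ψ' n (f ω)) ^ 2 = |ψ' n (f ω)| ^ 2 := (sq_abs _).symm
      _ ≤ (2 * M) ^ 2 := pow_le_pow_left₀ (abs_nonneg _) h3 2
      _ = 4 * M ^ 2 := by ring
  have hm : ∀ n, AEMeasurable (fun ω => ψ' n (f ω)) (μ.restrict H) := fun n =>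
    (hf.1 (ψ' n)).aestronglyMeasurable.aemeasurable.restrict
  obtain ⟨k', hk', G, hG, hG0, δ, hδ, hces⟩ := cesaro (μ.restrict H) hfin
    (fun n ω => min ((ψ' n (f ω)) ^ 2) (4 * M ^ 2))
    (fun n => ((hm n).pow_const 2).min aemeasurable_const) (4 * M ^ 2)
    (fun n ω => le_min (sq_nonneg _) (by positivity)) (fun n ω => min_le_right _ _) ε hε (by
      intro n
      refine (hψ'i n).trans_eq ?_
      refine integral_congr_ae ?_
      filter_upwards [hae n] with ω hω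
      exact (min_eq_left hω).symm)
  refine ⟨fun n => ψ' (k' n), fun n => hψ'n _, ?_, δ, hδ,
    G ∩ H ∩ {ω | ‖f ω‖ ≤ M}, ?_, fun ω hω => hω.1.2, fun ω hω => hω.2, ?_⟩
  · intro A hA hAH
    exact (hlim A hA hAH).comp hk'.tendsto_atTop
  · refine hH G hG ?_
    rwa [Measure.restrict_apply hG] at hG0
  · intro ω hω
    filter_upwards [hces ω hω.1.1] with N hN
    refine hN.trans (Finset.sum_le_sum fun n _ => min_le_left _ _)

end Pool.Agent.RVM
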