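import Pool.Agent.RVM.Defs

set_option autoImplicit false

open MeasureTheory Set Filter Topology Cardinal
open scoped ENNReal

namespace Pool.Agent.RVM

/-- a bounded real sequence converges along an ultrafilter -/
theorem exists_ultra_lim (U : Ultrafilter ℕ) (a : ℕ → ℝ) (lo hi : ℝ)
    (h : ∀ n, a n ∈ Icc lo hi) : ∃ y ∈ Icc lo hi, Tendsto a U (𝓝 y) := by
  have hc : IsCompact (Icc lo hi) := isCompact_Icc
  have hle : ((U.map a : Ultrafilter ℝ) : Filter ℝ) ≤ 𝓟 (Icc lo hi) := by
    rw [le_principal_iff, Ultrafilter.coe_map]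
    exact mem_map.2 (Filter.Eventually.of_forall h)
  obtain ⟨y, hy, hy2⟩ := hc.ultrafilter_le_nhds (U.map a) hle
  refine ⟨y, hy, ?_⟩
  rw [Ultrafilter.coe_map] at hy2
  exact hy2

/-- ultrafilter limits of bounded sequences of functionals -/
theorem ulim {X : Type} [NormedAddCommGroup X] [NormedSpace ℝ X] (U : Ultrafilter ℕ)
    (φ : ℕ → (X →L[ℝ] ℝ)) (C : ℝ) (hφ : ∀ n, ‖φ n‖ ≤ C) :
    ∃ χ : X →L[ℝ] ℝ, ‖χ‖ ≤ C ∧ ∀ x, Tendsto (fun n => φ n x) U (𝓝 (χ x)) := by
  have hC : 0 ≤ C := le_trans (norm_nonneg _) (hφ 0)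
  have hb : ∀ (x : X) (n : ℕ), φ n x ∈ Icc (-(C * ‖x‖)) (C * ‖x‖) := by
    intro x n
    have h1 : ‖φ n x‖ ≤ C * ‖x‖ :=
      ((φ n).le_opNorm x).trans (mul_le_mul_of_nonneg_right (hφ n) (norm_nonneg x))
    rw [Real.norm_eq_abs] at h1
    exact abs_le.1 h1
  choose g hg hlim using fun x : X => exists_ultra_lim U (fun n => φ n x) _ _ (hb x)
  have hadd : ∀ x y, g (x + y) = g x + g y := by
    intro x y
    have h1 := (hlim x).add (hlim y)
    have h2 := hlim (x + y)
    simp only [map_add] at h2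
    exact tendsto_nhds_unique h2 h1
  have hsmul : ∀ (c : ℝ) (x : X), g (c • x) = c • g x := by
    intro c x
    have h1 := (hlim x).const_mul c
    have h2 := hlim (c • x)
    simp only [map_smul, smul_eq_mul] at h2
    exact tendsto_nhds_unique h2 h1
  let L : X →ₗ[ℝ] ℝ := { toFun := g, map_add' := hadd, map_smul' := hsmul }
  have hL : ∀ x, ‖L x‖ ≤ C * ‖x‖ := by
    intro x
    rw [Real.norm_eq_abs]
    exact abs_le.2 (hg x)
  exact ⟨L.mkContinuous C hL, LinearMap.mkContinuous_norm_le L hC hL, fun x => hlim x⟩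

/-
PLAN.  `m A := lim_V (#(A ∩ {0..N-1}) / N)` along a free ultrafilter `V` on `ℕ`.
-/
theorem exists_density : ∃ m : Set ℕ → ℝ, FAP m ∧ (∀ A : Set ℕ, A.Finite → m A = 0) ∧
    ∀ (A : Set ℕ) (δ : ℝ),
      (∀ᶠ N : ℕ in atTop, δ * N ≤ ∑ n ∈ Finset.range N, A.indicator (fun _ => (1 : ℝ)) n) →
        δ ≤ m A := by
  classical
  have hV : ((hyperfilter ℕ : Ultrafilter ℕ) : Filter ℕ) ≤ atTop := by
    rw [← Nat.cofinite_eq_atTop]
    exact hyperfilter_le_cofinite
  set S : Set ℕ → ℕ → ℝ := fun A N => ∑ n ∈ Finset.range N, A.indicator (fun _ => (1 : ℝ)) n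
    with hS
  have hS0 : ∀ A N, 0 ≤ S A N := by
    intro A N
    refine Finset.sum_nonneg ?_
    intro i _
    exact indicator_nonneg (fun _ _ => zero_le_one) i
  have hS1 : ∀ A N, S A N ≤ N := by
    intro A N
    calc S A N ≤ ∑ n ∈ Finset.range N, (1 : ℝ) := by
          refine Finset.sum_le_sum ?_
          intro i _
          exact indicator_le_self' (fun _ _ => zero_le_one) i
      _ = N := by simp
  have hI : ∀ A N, S A N / N ∈ Icc (0 : ℝ) 1 := by
    intro A N
    refine ⟨div_nonneg (hS0 A N) (Nat.cast_nonneg N), ?_⟩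
    exact div_le_one_of_le₀ (hS1 A N) (Nat.cast_nonneg N)
  choose m hm hlim using fun A : Set ℕ =>
    exists_ultra_lim (hyperfilter ℕ) (fun N => S A N / N) 0 1 (hI A)
  refine ⟨m, ⟨fun A => (hm A).1, ?_, ?_⟩, ?_, ?_⟩
  · have h1 : Tendsto (fun N : ℕ => S univ N / N) (hyperfilter ℕ) (𝓝 1) := by
      refine Tendsto.congr' ?_ tendsto_const_nhds
      filter_upwards [hV (eventually_gt_atTop 0)] with N hN
      have : S univ N = N := by simp [hS]
      rw [this, div_self]
      exact_mod_cast hN.ne'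
    exact tendsto_nhds_unique (hlim univ) h1
  · intro A B hAB
    have h1 := (hlim A).add (hlim B)
    have h2 : Tendsto (fun N : ℕ => S (A ∪ B) N / N) (hyperfilter ℕ) (𝓝 (m A + m B)) := by
      refine h1.congr ?_
      intro N
      rw [← add_div]
      congr 1
      simp only [hS]
      rw [← Finset.sum_add_distrib]
      refine Finset.sum_congr rfl ?_
      intro n _
      rw [indicator_union_of_disjoint hAB]
    exact tendsto_nhds_unique (hlim (A ∪ B)) h2
  · intro A hA
    have hbd : ∀ N, S A N ≤ (hA.toFinset.card : ℝ) := by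
      intro N
      have h1 : S A N = ∑ n ∈ (Finset.range N).filter (· ∈ A), (1 : ℝ) := by
        simp only [hS, Finset.sum_filter]
        refine Finset.sum_congr rfl ?_
        intro n _
        simp [indicator_apply]
      rw [h1]
      simp only [Finset.sum_const, nsmul_eq_mul, mul_one]
      have : (Finset.range N).filter (· ∈ A) ⊆ hA.toFinset := by
        intro n hn
        rw [Set.Finite.mem_toFinset]
        exact (Finset.mem_filter.1 hn).2
      exact_mod_cast Finset.card_le_card this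
    have h0 : Tendsto (fun N : ℕ => S A N / N) atTop (𝓝 0) := by
      have h2 : Tendsto (fun N : ℕ => (hA.toFinset.card : ℝ) / N) atTop (𝓝 0) :=
        tendsto_const_div_atTop_nhds_zero_nat _
      refine squeeze_zero (fun N => div_nonneg (hS0 A N) (Nat.cast_nonneg N)) ?_ h2
      intro N
      exact div_le_div_of_nonneg_right (hbd N) (Nat.cast_nonneg N)
    exact tendsto_nhds_unique (hlim A) (h0.mono_left hV)
  · intro A δ hδ
    refine ge_of_tendsto (hlim A) ?_
    filter_upwards [hV hδ, hV (eventually_gt_atTop 0)] with N hN hN0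
    have hpos : (0 : ℝ) < N := by exact_mod_cast hN0
    exact (le_div_iff₀ hpos).2 hN

end Pool.Agent.RVM
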