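import Pool.Agent.RVM.RecEnd
import Pool.Agent.RVM.Ulim

set_option autoImplicit false

open MeasureTheory Set Filter Topology Cardinal
open scoped ENNReal

namespace Pool.Agent.RVM

theorem Comp2_le_atTop {m : Set ℕ → ℝ} (hfin : ∀ A : Set ℕ, A.Finite → m A = 0)
    (U : Ultrafilter ℕ) (hU : ∀ A ∈ U, 0 < m A) : (U : Filter ℕ) ≤ atTop := by
  rw [atTop, le_iInf_iff]
  intro n
  rw [le_principal_iff]
  by_contra h
  have h1 : (Ici n)ᶜ ∈ U := Ultrafilter.compl_mem_iff_notMem.mpr h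
  have h2 := hU _ h1
  rw [hfin _ (by rw [compl_Ici]; exact finite_Iio n)] at h2
  exact lt_irrefl _ h2

theorem Comp2_subadd {m : Set ℕ → ℝ} (hm : FAP m) (A B : Set ℕ) : m (A ∪ B) ≤ m A + m B := by
  have h := hm.add A (B \ A) disjoint_sdiff_right
  rw [union_sdiff_self] at h
  have h2 := hm.mono (sdiff_subset : B \ A ⊆ B)
  linarith

/-- the filter generated by `A`, the sets `Y p.2 (w p.1)` with `i0 < p.1`, and the co-null sets -/
theorem Comp2_filter {m : Set ℕ → ℝ} (hm : FAP m) {J : Type} (Z : J → Set ℕ) (A : Set ℕ)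
    (h : ∀ F : Finset J, 0 < m (A ∩ ⋂ p ∈ F, Z p)) :
    ∃ U : Ultrafilter ℕ, A ∈ U ∧ (∀ p, Z p ∈ U) ∧ ∀ B : Set ℕ, m Bᶜ = 0 → B ∈ U := by
  classical
  let L : Filter ℕ :=
    { sets := {B | ∃ F : Finset J, m ((A ∩ ⋂ p ∈ F, Z p) \ B) = 0}
      univ_sets := ⟨∅, by rw [sdiff_univ]; exact hm.empty⟩
      sets_of_superset := by
        rintro B C ⟨F, hF⟩ hBC
        refine ⟨F, le_antisymm ?_ (hm.nonneg _)⟩
        rw [← hF]
        exact hm.mono (sdiff_subset_sdiff_right hBC)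
      inter_sets := by
        rintro B C ⟨F, hF⟩ ⟨G, hG⟩
        refine ⟨F ∪ G, le_antisymm ?_ (hm.nonneg _)⟩
        have h1 : (A ∩ ⋂ p ∈ F ∪ G, Z p) \ (B ∩ C) ⊆
            ((A ∩ ⋂ p ∈ F, Z p) \ B) ∪ ((A ∩ ⋂ p ∈ G, Z p) \ C) := by
          rintro x ⟨⟨hxA, hx⟩, hxBC⟩
          rw [mem_iInter₂] at hx
          by_cases hxB : x ∈ B
          · right
            refine ⟨⟨hxA, mem_iInter₂.mpr fun p hp => hx p (Finset.mem_union_right _ hp)⟩, ?_⟩
            intro hxC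
            exact hxBC ⟨hxB, hxC⟩
          · left
            exact ⟨⟨hxA, mem_iInter₂.mpr fun p hp => hx p (Finset.mem_union_left _ hp)⟩, hxB⟩
        have h2 := hm.mono h1
        have h3 := Comp2_subadd hm ((A ∩ ⋂ p ∈ F, Z p) \ B) ((A ∩ ⋂ p ∈ G, Z p) \ C)
        linarith }
  have hL : L.NeBot := by
    refine ⟨fun hbot => ?_⟩
    have : (∅ : Set ℕ) ∈ L := by rw [hbot]; exact mem_bot
    obtain ⟨F, hF⟩ := this
    rw [sdiff_empty] at hF
    exact absurd (h F) (by rw [hF]; exact lt_irrefl _)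
  refine ⟨Ultrafilter.of L, ?_, ?_, ?_⟩
  · apply Ultrafilter.of_le L
    refine ⟨∅, ?_⟩
    have : (A ∩ ⋂ p ∈ (∅ : Finset J), Z p) \ A = ∅ := by
      rw [sdiff_eq_empty]; exact inter_subset_left
    rw [this]; exact hm.empty
  · intro p
    apply Ultrafilter.of_le L
    refine ⟨{p}, ?_⟩
    have : (A ∩ ⋂ q ∈ ({p} : Finset J), Z q) \ Z p = ∅ := by
      rw [sdiff_eq_empty]
      intro x hx
      exact mem_iInter₂.mp hx.2 p (Finset.mem_singleton_self p)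
    rw [this]; exact hm.empty
  · intro B hB
    apply Ultrafilter.of_le L
    refine ⟨∅, le_antisymm ?_ (hm.nonneg _)⟩
    rw [← hB]
    exact hm.mono (fun x hx => hx.2)

/-- an ultrafilter limit of the functionals kills `f` a.e. on `H` -/
theorem Comp2_lim_zero {X : Type} [NormedAddCommGroup X] [NormedSpace ℝ X]
    {Ω : Type} [MeasurableSpace Ω] (μ : Measure Ω) (hμ : IsProbabilityMeasure μ)
    (f : Ω → X) (hf : Pettis μ f) (H : Set Ω) (hHm : MeasurableSet H)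
    (ψ : ℕ → (X →L[ℝ] ℝ))
    (hweak : ∀ A : Set Ω, MeasurableSet A → A ⊆ H →
        Tendsto (fun n => ∫ ω in A, ψ n (f ω) ∂μ) atTop (𝓝 0))
    (U : Ultrafilter ℕ) (hU : (U : Filter ℕ) ≤ atTop) (χ : X →L[ℝ] ℝ)
    (hχ : ∀ x, Tendsto (fun n => ψ n x) U (𝓝 (χ x))) :
    ∀ᵐ ω ∂(μ.restrict H), χ (f ω) = 0 := by
  have hint : Integrable (fun ω => χ (f ω)) (μ.restrict H) := (hf.1 χ).integrableOn
  have h0 : (fun ω => χ (f ω)) =ᵐ[μ.restrict H] 0 := by
    refine hint.ae_eq_zero_of_forall_setIntegral_eq_zero ?_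
    intro A hA _
    rw [Measure.restrict_restrict hA]
    obtain ⟨x, hx⟩ := hf.2 (A ∩ H) (hA.inter hHm)
    rw [← hx χ]
    have h1 : Tendsto (fun n => ψ n x) U (𝓝 0) := by
      have h2 := (hweak (A ∩ H) (hA.inter hHm) inter_subset_right).mono_left hU
      refine h2.congr ?_
      intro n
      exact (hx (ψ n)).symm
    exact tendsto_nhds_unique (hχ x) h1
  filter_upwards [h0] with ω hω
  exact hω

theorem Comp2_sum {I : Type} [MeasurableSpace I] {ν : Measure I} (hν : IsProbabilityMeasure ν)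
    (hI : ∀ A : Set I, MeasurableSet A) (h : ℕ → I → ℝ) (K : ℝ) (h0 : ∀ n i, 0 ≤ h n i)
    (hK : ∀ n i, h n i ≤ K) (δ : ℝ) (hδ : 0 < δ)
    (hces : ∀ i, ∀ᶠ N : ℕ in atTop, δ * N ≤ ∑ n ∈ Finset.range N, h n i) :
    ∀ᶠ N : ℕ in atTop, (δ / 2) * N ≤ ∑ n ∈ Finset.range N, ∫ i, h n i ∂ν := by
  have hmeas : ∀ F : I → ℝ, Measurable F := fun F s _ => hI _
  have hintg : ∀ n, Integrable (h n) ν := by
    intro n
    refine Integrable.of_bound (hmeas _).aestronglyMeasurable K (ae_of_all _ fun i => ?_)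
    rw [Real.norm_eq_abs, abs_of_nonneg (h0 n i)]
    exact hK n i
  let F : ℕ → I → ℝ := fun N i => min δ ((N : ℝ)⁻¹ * ∑ n ∈ Finset.range N, h n i)
  have hF0 : ∀ N i, 0 ≤ F N i := by
    intro N i
    refine le_min hδ.le (mul_nonneg (by positivity) (Finset.sum_nonneg fun n _ => h0 n i))
  have hlim : Tendsto (fun N => ∫ i, F N i ∂ν) atTop (𝓝 (∫ _i, δ ∂ν)) := by
    refine tendsto_integral_of_dominated_convergence (fun _ => δ)
      (fun N => (hmeas _).aestronglyMeasurable) (integrable_const _) ?_ ?_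
    · intro N
      refine ae_of_all _ fun i => ?_
      rw [Real.norm_eq_abs, abs_of_nonneg (hF0 N i)]
      exact min_le_left _ _
    · refine ae_of_all _ fun i => ?_
      refine tendsto_const_nhds.congr' ?_
      filter_upwards [hces i, eventually_gt_atTop 0] with N hN hN0
      have hNpos : (0 : ℝ) < N := by exact_mod_cast hN0
      symm
      apply min_eq_left
      rw [le_inv_mul_iff₀ hNpos]
      linarith
  have hconst : (∫ _i, δ ∂ν) = δ := by simp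
  rw [hconst] at hlim
  have hev := hlim.eventually (lt_mem_nhds (show δ / 2 < δ by linarith))
  filter_upwards [hev, eventually_gt_atTop 0] with N hN hN0
  have hNpos : (0 : ℝ) < N := by exact_mod_cast hN0
  have h1 : ∫ i, F N i ∂ν ≤ ∫ i, (N : ℝ)⁻¹ * ∑ n ∈ Finset.range N, h n i ∂ν := by
    refine integral_mono ?_ ?_ ?_
    · refine Integrable.of_bound (hmeas _).aestronglyMeasurable δ (ae_of_all _ fun i => ?_)
      rw [Real.norm_eq_abs, abs_of_nonneg (hF0 N i)]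
      exact min_le_left _ _
    · exact (integrable_finsetSum _ fun n _ => hintg n).const_mul _
    · intro i
      exact min_le_right _ _
  rw [integral_const_mul, integral_finsetSum _ fun n _ => hintg n] at h1
  have h2 : δ / 2 < (N : ℝ)⁻¹ * ∑ n ∈ Finset.range N, ∫ i, h n i ∂ν := lt_of_lt_of_le hN h1
  rw [lt_inv_mul_iff₀ hNpos] at h2
  linarith

theorem Comp2_dens (a : ℕ → ℝ) (K δ : ℝ) (hK : 0 < K) (hδ : 0 < δ) (ha : ∀ n, a n ≤ K)
    (h : ∀ᶠ N : ℕ in atTop, (δ / 2) * N ≤ ∑ n ∈ Finset.range N, a n) :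
    ∀ᶠ N : ℕ in atTop, (δ / 4 / K) * N ≤
      ∑ n ∈ Finset.range N, ({n | δ / 4 ≤ a n} : Set ℕ).indicator (fun _ => (1 : ℝ)) n := by
  filter_upwards [h] with N hN
  have h1 : ∑ n ∈ Finset.range N, a n ≤ ∑ n ∈ Finset.range N,
      (K * ({n | δ / 4 ≤ a n} : Set ℕ).indicator (fun _ => (1 : ℝ)) n + δ / 4) := by
    refine Finset.sum_le_sum fun n _ => ?_
    by_cases hn : n ∈ ({n | δ / 4 ≤ a n} : Set ℕ)
    · rw [indicator_of_mem hn]
      linarith [ha n]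
    · rw [indicator_of_notMem hn]
      have : a n < δ / 4 := not_le.mp hn
      linarith
  rw [Finset.sum_add_distrib, ← Finset.mul_sum, Finset.sum_const, Finset.card_range,
    nsmul_eq_mul] at h1
  have h2 : δ / 4 * N ≤ K * ∑ n ∈ Finset.range N,
      ({n | δ / 4 ≤ a n} : Set ℕ).indicator (fun _ => (1 : ℝ)) n := by
    linarith
  rw [div_mul_eq_mul_div, div_le_iff₀ hK]
  linarith

theorem comp2 {I : Type} [LinearOrder I] [MeasurableSpace I] {ν : Measure I} (hT : Tot I ν)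
    {X : Type} [NormedAddCommGroup X] [NormedSpace ℝ X]
    {Ω : Type} [MeasurableSpace Ω] (μ : Measure Ω) (hμ : IsProbabilityMeasure μ)
    (f : Ω → X) (hf : Pettis μ f) (H : Set Ω) (hHm : MeasurableSet H) (M : ℝ) (hM : 0 < M)
    (ψ : ℕ → (X →L[ℝ] ℝ)) (hψ : ∀ n, ‖ψ n‖ ≤ 2)
    (hweak : ∀ A : Set Ω, MeasurableSet A → A ⊆ H →
        Tendsto (fun n => ∫ ω in A, ψ n (f ω) ∂μ) atTop (𝓝 0))
    (δ : ℝ) (hδ : 0 < δ) (Ω0 : Set Ω) (hpos : 0 < μ Ω0) (hsub : Ω0 ⊆ H)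
    (hbd : ∀ ω ∈ Ω0, ‖f ω‖ ≤ M)
    (hces : ∀ ω ∈ Ω0, ∀ᶠ N : ℕ in atTop, δ * N ≤ ∑ n ∈ Finset.range N, (ψ n (f ω)) ^ 2) :
    ∃ g : I → X, (∀ i, ‖g i‖ ≤ M) ∧ ∃ U : Ultrafilter ℕ, (U : Filter ℕ) ≤ atTop ∧
      {n | δ / 4 ≤ ∫ i, (ψ n (g i)) ^ 2 ∂ν} ∈ U ∧
      ∀ᵐ i ∂ν, Tendsto (fun n => ψ n (g i)) U (𝓝 0) := by
  obtain ⟨m, hm, hfin, hdens⟩ := exists_density
  let Y : ℕ → Ω0 → Set ℕ := fun j ω => {n | |ψ n (f ω)| < 1 / ((j : ℝ) + 1)}
  have hY : ∀ U : ℕ → Ultrafilter ℕ, (∀ k, ∀ A ∈ U k, 0 < m A) →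
      ∃ ω : Ω0, ∀ k j, Y j ω ∈ U k := by
    intro U hU
    have hle : ∀ k, (U k : Filter ℕ) ≤ atTop := fun k => Comp2_le_atTop hfin (U k) (hU k)
    have hχ : ∀ k, ∃ χ : X →L[ℝ] ℝ, ∀ x, Tendsto (fun n => ψ n x) (U k) (𝓝 (χ x)) := by
      intro k
      obtain ⟨χ, -, h⟩ := ulim (U k) ψ 2 hψ
      exact ⟨χ, h⟩
    choose χ hχ using hχ
    have hae : ∀ᵐ ω ∂(μ.restrict H), ∀ k, χ k (f ω) = 0 := by
      rw [ae_all_iff]
      intro k
      exact Comp2_lim_zero μ hμ f hf H hHm ψ hweak (U k) (hle k) (χ k) (hχ k)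
    have hex : ∃ ω ∈ Ω0, ∀ k, χ k (f ω) = 0 := by
      by_contra hno
      push Not at hno
      rw [ae_restrict_iff' hHm] at hae
      have : μ Ω0 ≤ μ {ω | ¬ (ω ∈ H → ∀ k, χ k (f ω) = 0)} := by
        refine measure_mono ?_
        intro ω hω hcon
        obtain ⟨k, hk⟩ := hno ω hω
        exact hk (hcon (hsub hω) k)
      have h0 : μ {ω | ¬ (ω ∈ H → ∀ k, χ k (f ω) = 0)} = 0 := hae
      rw [h0] at this
      exact absurd hpos (not_lt.mpr this)
    obtain ⟨ω, hω, hk⟩ := hex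
    refine ⟨⟨ω, hω⟩, fun k j => ?_⟩
    have ht := hχ k (f ω)
    rw [hk k] at ht
    have hj : (0 : ℝ) < 1 / ((j : ℝ) + 1) := by positivity
    have hev := (Metric.tendsto_nhds.mp ht) _ hj
    filter_upwards [hev] with n hn
    rw [Real.dist_eq, sub_zero] at hn
    exact hn
  obtain ⟨w, hw⟩ := recEnd hT m hm Y hY
  have hν := hT.prob
  have hbd2 : ∀ n (i : I), (ψ n (f (w i))) ^ 2 ≤ (2 * M) ^ 2 := by
    intro n i
    have h1 : |ψ n (f (w i))| ≤ 2 * M := by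
      have h2 := (ψ n).le_opNorm (f (w i))
      rw [Real.norm_eq_abs] at h2
      refine h2.trans ?_
      exact mul_le_mul (hψ n) (hbd _ (w i).2) (norm_nonneg _) (by norm_num)
    rw [← sq_abs]
    exact pow_le_pow_left₀ (abs_nonneg _) h1 2
  have hsum := Comp2_sum hν hT.meas (fun n i => (ψ n (f (w i))) ^ 2) ((2 * M) ^ 2)
    (fun n i => sq_nonneg _) hbd2 δ hδ (fun i => hces _ (w i).2)
  have hle : ∀ n, ∫ i, (ψ n (f (w i))) ^ 2 ∂ν ≤ (2 * M) ^ 2 := by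
    intro n
    have h1 : ∫ i, (ψ n (f (w i))) ^ 2 ∂ν ≤ ∫ _i, (2 * M) ^ 2 ∂ν := by
      refine integral_mono ?_ (integrable_const _) (fun i => hbd2 n i)
      refine Integrable.of_bound (Measurable.aestronglyMeasurable fun s _ => hT.meas _)
        ((2 * M) ^ 2) (ae_of_all _ fun i => ?_)
      rw [Real.norm_eq_abs, abs_of_nonneg (sq_nonneg _)]
      exact hbd2 n i
    simpa using h1
  have hA := hdens {n | δ / 4 ≤ ∫ i, (ψ n (f (w i))) ^ 2 ∂ν} (δ / 4 / (2 * M) ^ 2)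
    (Comp2_dens (fun n => ∫ i, (ψ n (f (w i))) ^ 2 ∂ν) ((2 * M) ^ 2) δ (by positivity) hδ hle hsum)
  have hApos : 0 < m {n | δ / 4 ≤ ∫ i, (ψ n (f (w i))) ^ 2 ∂ν} :=
    lt_of_lt_of_le (by positivity) hA
  obtain ⟨i0, hi0⟩ := hw _ hApos
  obtain ⟨U, hUA, hUZ, hUn⟩ := Comp2_filter hm
    (fun p : {p : I × ℕ // i0 < p.1} => Y p.1.2 (w p.1.1))
    {n | δ / 4 ≤ ∫ i, (ψ n (f (w i))) ^ 2 ∂ν} (by
      classical
      intro F
      have h1 := hi0 (F.image Subtype.val) (by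
        intro p hp
        obtain ⟨q, _, rfl⟩ := Finset.mem_image.mp hp
        exact q.2)
      rw [Finset.set_biInter_finset_image] at h1
      exact h1)
  refine ⟨fun i => f (w i), fun i => hbd _ (w i).2, U, ?_, hUA, ?_⟩
  · rw [atTop, le_iInf_iff]
    intro n
    rw [le_principal_iff]
    refine hUn _ (hfin _ ?_)
    rw [compl_Ici]
    exact finite_Iio n
  · have hnull : ν (Iic i0) = 0 := hT.Iic_null i0
    have hae : ∀ᵐ i ∂ν, i ∉ Iic i0 := measure_eq_zero_iff_ae_notMem.mp hnull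
    filter_upwards [hae] with i hi
    have hi' : i0 < i := not_le.mp hi
    rw [Metric.tendsto_nhds]
    intro ε hε
    obtain ⟨j, hj⟩ := exists_nat_one_div_lt hε
    have hmem := hUZ ⟨(i, j), hi'⟩
    filter_upwards [hmem] with n hn
    rw [Real.dist_eq, sub_zero]
    exact lt_trans hn hj

end Pool.Agent.RVM
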