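import Pool.Agent.RVM.NC

set_option autoImplicit false

open MeasureTheory Set Filter Topology Cardinal
open scoped ENNReal

namespace Pool.Agent.RVM

theorem comp3_integrable {I : Type} [LinearOrder I] [MeasurableSpace I] {ν : Measure I}
    (hT : Tot I ν) (f : I → ℝ) (B : ℝ) (hB : ∀ i, |f i| ≤ B) : Integrable f ν := by
  have := hT.prob
  have hm : Measurable f := fun s _ => hT.meas _
  exact Integrable.of_bound hm.aestronglyMeasurable B (Eventually.of_forall (fun i => by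
    rw [Real.norm_eq_abs]; exact hB i))

/-
PLAN.  `χ := ulim U ψ`; `χ (g i) = 0` for a.e. `i` (uniqueness of limits).  For every bounded `θ : I → ℝ` the
function `i ↦ θ i • g i` is bounded, hence Pettis, so there is `x_θ` with `φ x_θ = ∫ θ φ(g)` for all `φ`;
hence `∫ ψ n (g) θ = ψ n x_θ → χ x_θ = ∫ χ(g) θ = 0` along `U`.  Choose recursively `n_0 < n_1 < …` with
`δ ≤ ∫ h_{n_j}²` and `|∫ h_{n_i} h_{n_j}| ≤ δ/4` for `i < j` (`h_n = ψ n ∘ g`; sets in `U` are infinite).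
Then `∫ (h_{n_i} - h_{n_j})² ≥ δ + δ - δ/2 > δ`, contradicting `NC` for `φ j := ψ (n_j)`.
-/
theorem comp3 {I : Type} [LinearOrder I] [MeasurableSpace I] {ν : Measure I} (hT : Tot I ν)
    {X : Type} [NormedAddCommGroup X] [NormedSpace ℝ X]
    (hX : ∀ g : I → X, (∃ M : ℝ, ∀ i, ‖g i‖ ≤ M) → Pettis ν g)
    (g : I → X) (M : ℝ) (hg : ∀ i, ‖g i‖ ≤ M) (ψ : ℕ → (X →L[ℝ] ℝ)) (C : ℝ)
    (hψ : ∀ n, ‖ψ n‖ ≤ C) (U : Ultrafilter ℕ) (hU : (U : Filter ℕ) ≤ atTop) (δ : ℝ) (hδ : 0 < δ)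
    (hA : {n | δ ≤ ∫ i, (ψ n (g i)) ^ 2 ∂ν} ∈ U)
    (h0 : ∀ᵐ i ∂ν, Tendsto (fun n => ψ n (g i)) U (𝓝 0)) : False := by
  have := hT.prob
  have hC : 0 ≤ C := le_trans (norm_nonneg _) (hψ 0)
  obtain ⟨χ, _, hχ⟩ := ulim U ψ C hψ
  have hχ0 : ∀ᵐ i ∂ν, χ (g i) = 0 := by
    filter_upwards [h0] with i hi
    exact tendsto_nhds_unique (hχ (g i)) hi
  have hb : ∀ n i, |ψ n (g i)| ≤ C * M := by
    intro n i
    rw [← Real.norm_eq_abs]
    calc ‖ψ n (g i)‖ ≤ ‖ψ n‖ * ‖g i‖ := (ψ n).le_opNorm _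
      _ ≤ C * M := mul_le_mul (hψ n) (hg i) (norm_nonneg _) hC
  have hint2 : ∀ n m, Integrable (fun i => ψ m (g i) * ψ n (g i)) ν := by
    intro n m
    refine comp3_integrable hT _ (C * M * (C * M)) (fun i => ?_)
    rw [abs_mul]
    have h1 := hb m i
    have h2 := hb n i
    exact mul_le_mul h1 h2 (abs_nonneg _) (le_trans (abs_nonneg _) h1)
  have hlim : ∀ m, Tendsto (fun n => ∫ i, ψ m (g i) * ψ n (g i) ∂ν) U (𝓝 0) := by
    intro m
    have hP : Pettis ν (fun i => ψ m (g i) • g i) := by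
      refine hX _ ⟨C * M * M, fun i => ?_⟩
      rw [norm_smul, Real.norm_eq_abs]
      exact mul_le_mul (hb m i) (hg i) (norm_nonneg _) (le_trans (abs_nonneg _) (hb m i))
    obtain ⟨x, hx⟩ := hP.2 univ MeasurableSet.univ
    have hx' : ∀ φ : X →L[ℝ] ℝ, φ x = ∫ i, ψ m (g i) * φ (g i) ∂ν := by
      intro φ
      rw [hx φ, Measure.restrict_univ]
      refine integral_congr_ae (Eventually.of_forall (fun i => ?_))
      simp only [map_smul, smul_eq_mul]
    have h1 : χ x = 0 := by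
      rw [hx' χ]
      have : ∀ᵐ i ∂ν, ψ m (g i) * χ (g i) = 0 := by
        filter_upwards [hχ0] with i hi
        rw [hi, mul_zero]
      rw [integral_congr_ae this]
      simp
    have h2 := hχ x
    rw [h1] at h2
    refine h2.congr (fun n => ?_)
    exact hx' (ψ n)
  obtain ⟨f, hf1, hf2⟩ := exists_seq_of_forall_finset_exists
    (fun n : ℕ => δ ≤ ∫ i, (ψ n (g i)) ^ 2 ∂ν)
    (fun m n : ℕ => |∫ i, ψ m (g i) * ψ n (g i) ∂ν| ≤ δ / 4) (by
      intro s _
      have h1 : ∀ m ∈ s, {n : ℕ | |∫ i, ψ m (g i) * ψ n (g i) ∂ν| ≤ δ / 4} ∈ U := by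
        intro m _
        have h2 := (hlim m).eventually (Metric.ball_mem_nhds (0:ℝ) (show 0 < δ / 4 by positivity))
        filter_upwards [h2] with n hn
        rw [dist_zero_right, Real.norm_eq_abs] at hn
        exact hn.le
      have h3 : (⋂ m ∈ s, {n : ℕ | |∫ i, ψ m (g i) * ψ n (g i) ∂ν| ≤ δ / 4}) ∈ (U : Filter ℕ) :=
        (Filter.biInter_finset_mem s).2 h1
      obtain ⟨y, hy1, hy2⟩ := (U : Filter ℕ).nonempty_of_mem (Filter.inter_mem hA h3)
      refine ⟨y, hy1, fun m hm => ?_⟩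
      have h4 := mem_iInter₂.1 hy2 m hm
      exact h4)
  have key : ∀ i j, i < j → δ ≤ ∫ t, (ψ (f i) (g t) - ψ (f j) (g t)) ^ 2 ∂ν := by
    intro i j hij
    have e : ∫ t, (ψ (f i) (g t) - ψ (f j) (g t)) ^ 2 ∂ν =
        (∫ t, (ψ (f i) (g t)) ^ 2 ∂ν) - 2 * (∫ t, ψ (f i) (g t) * ψ (f j) (g t) ∂ν) +
          ∫ t, (ψ (f j) (g t)) ^ 2 ∂ν := by
      have i1 : Integrable (fun t => (ψ (f i) (g t)) ^ 2) ν := by
        have := hint2 (f i) (f i)
        refine this.congr (Eventually.of_forall (fun t => ?_))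
        simp only [sq]
      have i2 : Integrable (fun t => (ψ (f j) (g t)) ^ 2) ν := by
        have := hint2 (f j) (f j)
        refine this.congr (Eventually.of_forall (fun t => ?_))
        simp only [sq]
      have i3 : Integrable (fun t => ψ (f i) (g t) * ψ (f j) (g t)) ν := hint2 (f j) (f i)
      have i4 : Integrable (fun t => (ψ (f i) (g t)) ^ 2 - 2 * (ψ (f i) (g t) * ψ (f j) (g t))) ν :=
        i1.sub (i3.const_mul 2)
      rw [← integral_const_mul, ← integral_sub i1 (i3.const_mul 2), ← integral_add i4 i2]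
      refine integral_congr_ae (Eventually.of_forall (fun t => ?_))
      simp only
      ring
    rw [e]
    have h1 := hf1 i
    have h2 := hf1 j
    have h3 := (abs_le.1 (hf2 i j hij)).2
    linarith
  refine NC hT hX g M hg (fun n => ψ (f n)) C (fun n => hψ _) δ hδ (fun n m hnm => ?_)
  rcases lt_or_gt_of_ne hnm with h | h
  · exact key n m h
  · have h1 := key m n h
    refine h1.trans (le_of_eq ?_)
    refine integral_congr_ae (Eventually.of_forall (fun t => ?_))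
    simp only
    ring

end Pool.Agent.RVM
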