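import Mathlib

set_option autoImplicit false

open MeasureTheory Set Filter Topology Cardinal
open scoped ENNReal

namespace Pool.Agent.RVM

/-- `ν` is a total probability measure on the set `I`, which is well ordered in type `𝔠`; `ν`
vanishes at points, and the union of fewer than `𝔠` null sets is null. -/
structure Tot (I : Type) [LinearOrder I] [MeasurableSpace I] (ν : Measure I) : Prop where
  prob : IsProbabilityMeasure ν
  meas : ∀ A : Set I, MeasurableSet A
  wf : WellFounded (fun a b : I => a < b)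
  seg : ∀ i : I, #(Iic i) < 𝔠
  card : #I = 𝔠
  pt : ∀ i : I, ν {i} = 0
  add : ∀ S : Set (Set I), #S < 𝔠 → (∀ A ∈ S, ν A = 0) → ν (⋃₀ S) = 0

theorem Tot.iUnion_null {I : Type} [LinearOrder I] [MeasurableSpace I] {ν : Measure I}
    (hT : Tot I ν) {J : Type} (hJ : #J < 𝔠) (A : J → Set I) (h : ∀ j, ν (A j) = 0) :
    ν (⋃ j, A j) = 0 := by
  rw [← sUnion_range]
  refine hT.add _ (lt_of_le_of_lt Cardinal.mk_range_le hJ) ?_
  rintro _ ⟨j, rfl⟩
  exact h j

theorem Tot.small {I : Type} [LinearOrder I] [MeasurableSpace I] {ν : Measure I}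
    (hT : Tot I ν) (A : Set I) (hA : #A < 𝔠) : ν A = 0 := by
  have h := hT.iUnion_null hA (fun a : A => {(a : I)}) (fun a => hT.pt _)
  rwa [iUnion_of_singleton_coe] at h

theorem Tot.Iic_null {I : Type} [LinearOrder I] [MeasurableSpace I] {ν : Measure I}
    (hT : Tot I ν) (i : I) : ν (Iic i) = 0 := hT.small _ (hT.seg i)

/-- finitely additive probability on the subsets of `ℕ` -/
structure FAP (m : Set ℕ → ℝ) : Prop where
  nonneg : ∀ A, 0 ≤ m A
  univ : m univ = 1
  add : ∀ A B, Disjoint A B → m (A ∪ B) = m A + m B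

theorem FAP.empty {m : Set ℕ → ℝ} (hm : FAP m) : m ∅ = 0 := by
  have := hm.add ∅ ∅ disjoint_bot_left
  rw [union_self] at this
  linarith

theorem FAP.mono {m : Set ℕ → ℝ} (hm : FAP m) {A B : Set ℕ} (h : A ⊆ B) : m A ≤ m B := by
  have := hm.add A (B \ A) disjoint_sdiff_right
  rw [union_sdiff_cancel h] at this
  linarith [hm.nonneg (B \ A)]

/-- `f` is Pettis integrable -/
def Pettis {Ω X : Type} [MeasurableSpace Ω] [NormedAddCommGroup X] [NormedSpace ℝ X]
    (μ : Measure Ω) (f : Ω → X) : Prop :=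
  (∀ φ : X →L[ℝ] ℝ, Integrable (fun ω => φ (f ω)) μ) ∧
    ∀ A : Set Ω, MeasurableSet A →
      ∃ x : X, ∀ φ : X →L[ℝ] ℝ, φ x = ∫ ω in A, φ (f ω) ∂μ

end Pool.Agent.RVM
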