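import Pool.Agent.RVM.Defs

set_option autoImplicit false

open MeasureTheory Set Filter Topology Cardinal
open scoped ENNReal

namespace Pool.Agent.RVM

namespace Sep1aux

theorem ae_bound {X : Type} [NormedAddCommGroup X] [NormedSpace ℝ X]
    {Ω : Type} [MeasurableSpace Ω] (μ : Measure Ω)
    (f : Ω → X) (hf : Pettis μ f) (H : Set Ω) (hHm : MeasurableSet H) (M : ℝ) (hM : 0 < M)
    (hH : ∀ G : Set Ω, MeasurableSet G → 0 < μ (G ∩ H) → 0 < μ (G ∩ H ∩ {ω | ‖f ω‖ ≤ M}))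
    (φ : X →L[ℝ] ℝ) (hφ : ‖φ‖ ≤ 1) :
    ∀ᵐ ω ∂(μ.restrict H), |φ (f ω)| ≤ M := by
  have hint := hf.1 φ
  obtain ⟨g, hg, hgf⟩ := hint.aestronglyMeasurable
  set G : Set Ω := {ω | M < |g ω|} with hG
  have hGm : MeasurableSet G := by
    have h1 : Measurable fun ω => |g ω| := by
      have := hg.measurable
      exact measurable_norm.comp this
    exact measurableSet_lt measurable_const h1
  have h0 : μ (G ∩ H) = 0 := by
    by_contra hne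
    have hpos : 0 < μ (G ∩ H) := pos_iff_ne_zero.2 hne
    have h2 := hH G hGm hpos
    have h3 : μ (G ∩ H ∩ {ω | ‖f ω‖ ≤ M}) = 0 := by
      refine measure_mono_null ?_ (ae_iff.1 hgf)
      intro ω hω
      show ¬ (φ (f ω) = g ω)
      intro heq
      have h4 : M < |g ω| := hω.1.1
      rw [← heq] at h4
      have h5 : ‖f ω‖ ≤ M := hω.2
      have h6 : |φ (f ω)| ≤ M := by
        rw [← Real.norm_eq_abs]
        calc ‖φ (f ω)‖ ≤ ‖φ‖ * ‖f ω‖ := φ.le_opNorm _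
          _ ≤ 1 * ‖f ω‖ := mul_le_mul_of_nonneg_right hφ (norm_nonneg _)
          _ ≤ M := by rw [one_mul]; exact h5
      exact absurd h4 (not_lt.2 h6)
    rw [h3] at h2
    exact lt_irrefl _ h2
  rw [ae_restrict_iff' hHm]
  have h1 : ∀ᵐ ω ∂μ, ω ∉ G ∩ H := by
    rw [ae_iff]
    simpa using h0
  filter_upwards [h1, hgf] with ω h2 h3 h4
  rw [h3]
  by_contra h5
  exact h2 ⟨not_le.1 h5, h4⟩

theorem net {X : Type} [NormedAddCommGroup X] [NormedSpace ℝ X]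
    {Ω : Type} [MeasurableSpace Ω] (μ : Measure Ω)
    (f : Ω → X) (H : Set Ω)
    (h : ∀ φ : ℕ → (X →L[ℝ] ℝ), (∀ n, ‖φ n‖ ≤ 1) → ∀ ε : ℝ, 0 < ε →
      ¬ ∀ n m, n ≠ m → ε ≤ ∫ ω in H, (φ n (f ω) - φ m (f ω)) ^ 2 ∂μ) (ε : ℝ) (hε : 0 < ε) :
    ∃ F : Finset (X →L[ℝ] ℝ), (∀ ψ ∈ F, ‖ψ‖ ≤ 1) ∧ ∀ φ : X →L[ℝ] ℝ, ‖φ‖ ≤ 1 → ∃ ψ ∈ F,
      ∫ ω in H, (φ (f ω) - ψ (f ω)) ^ 2 ∂μ < ε := by
  by_contra hcon
  push Not at hcon
  let r : (X →L[ℝ] ℝ) → (X →L[ℝ] ℝ) → Prop := fun φ ψ =>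
    ε ≤ ∫ ω in H, (φ (f ω) - ψ (f ω)) ^ 2 ∂μ
  have hsymm : ∀ φ ψ, r φ ψ → r ψ φ := by
    intro φ ψ hr
    have : (fun ω => (ψ (f ω) - φ (f ω)) ^ 2) = fun ω => (φ (f ω) - ψ (f ω)) ^ 2 := by
      funext ω; ring
    show ε ≤ ∫ ω in H, (ψ (f ω) - φ (f ω)) ^ 2 ∂μ
    rw [this]
    exact hr
  obtain ⟨φ, h1, h2⟩ := exists_seq_of_forall_finset_exists (fun φ : X →L[ℝ] ℝ => ‖φ‖ ≤ 1) r (by
    intro s hs
    obtain ⟨φ, h3, h4⟩ := hcon s hs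
    exact ⟨φ, h3, fun ψ hψ => hsymm _ _ (h4 ψ hψ)⟩)
  refine h φ h1 ε hε ?_
  intro n m hnm
  rcases lt_or_gt_of_ne hnm with h3 | h3
  · exact h2 n m h3
  · exact hsymm _ _ (h2 m n h3)

theorem close {X : Type} [NormedAddCommGroup X] [NormedSpace ℝ X]
    {Ω : Type} [MeasurableSpace Ω] (μ : Measure Ω) (hμ : IsProbabilityMeasure μ)
    (f : Ω → X) (hf : Pettis μ f) (H : Set Ω) (hHm : MeasurableSet H) (M : ℝ) (hM : 0 < M)
    (hH : ∀ G : Set Ω, MeasurableSet G → 0 < μ (G ∩ H) → 0 < μ (G ∩ H ∩ {ω | ‖f ω‖ ≤ M}))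
    (φ ψ : X →L[ℝ] ℝ) (hφ : ‖φ‖ ≤ 1) (hψ : ‖ψ‖ ≤ 1) (ε : ℝ) (hε : 0 < ε)
    (hd : ∫ ω in H, (φ (f ω) - ψ (f ω)) ^ 2 ∂μ < ε ^ 2)
    (A : Set Ω) (hA : MeasurableSet A) (hAH : A ⊆ H) (x : X)
    (hx : ∀ φ : X →L[ℝ] ℝ, φ x = ∫ ω in A, φ (f ω) ∂μ) : |φ x - ψ x| ≤ ε := by
  have hb1 := ae_bound μ f hf H hHm M hM hH φ hφ
  have hb2 := ae_bound μ f hf H hHm M hM hH ψ hψ
  have hφi : Integrable (fun ω => φ (f ω)) μ := hf.1 φ
  have hψi : Integrable (fun ω => ψ (f ω)) μ := hf.1 ψ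
  have hdi : Integrable (fun ω => φ (f ω) - ψ (f ω)) μ := hφi.sub hψi
  have hsq : Integrable (fun ω => (φ (f ω) - ψ (f ω)) ^ 2) (μ.restrict H) := by
    have hfin : IsFiniteMeasure (μ.restrict H) := inferInstance
    refine Integrable.of_bound (C := (2 * M) ^ 2) ?_ ?_
    · exact (hdi.aestronglyMeasurable.restrict (s := H)).pow 2
    · filter_upwards [hb1, hb2] with ω h1 h2
      rw [Real.norm_eq_abs, abs_of_nonneg (sq_nonneg _)]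
      have h3 : |φ (f ω) - ψ (f ω)| ≤ 2 * M := by
        calc |φ (f ω) - ψ (f ω)| ≤ |φ (f ω)| + |ψ (f ω)| := abs_sub _ _
          _ ≤ 2 * M := by linarith
      calc (φ (f ω) - ψ (f ω)) ^ 2 = |φ (f ω) - ψ (f ω)| ^ 2 := (sq_abs _).symm
        _ ≤ (2 * M) ^ 2 := pow_le_pow_left₀ (abs_nonneg _) h3 2
  have e1 : φ x - ψ x = ∫ ω in A, (φ (f ω) - ψ (f ω)) ∂μ := by
    rw [hx φ, hx ψ, integral_sub hφi.restrict hψi.restrict]
  have e2 : |φ x - ψ x| ≤ ∫ ω in A, |φ (f ω) - ψ (f ω)| ∂μ := by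
    rw [e1]
    exact abs_integral_le_integral_abs
  have e3 : ∫ ω in A, |φ (f ω) - ψ (f ω)| ∂μ ≤ ∫ ω in H, |φ (f ω) - ψ (f ω)| ∂μ := by
    refine setIntegral_mono_set hdi.abs.integrableOn ?_ (Eventually.of_forall hAH)
    exact Eventually.of_forall fun ω => abs_nonneg _
  have e4 : ∫ ω in H, |φ (f ω) - ψ (f ω)| ∂μ ≤
      ∫ ω in H, ((φ (f ω) - ψ (f ω)) ^ 2 / (2 * ε) + ε / 2) ∂μ := by
    refine integral_mono_of_nonneg (Eventually.of_forall fun ω => abs_nonneg _) ?_ ?_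
    · exact (hsq.div_const _).add (integrable_const _)
    · refine Eventually.of_forall fun ω => ?_
      show |φ (f ω) - ψ (f ω)| ≤ (φ (f ω) - ψ (f ω)) ^ 2 / (2 * ε) + ε / 2
      set t := φ (f ω) - ψ (f ω)
      have h1 : 0 ≤ (|t| - ε) ^ 2 := sq_nonneg _
      have h2 : |t| * (2 * ε) ≤ t ^ 2 + ε ^ 2 := by
        rw [← sq_abs t]
        nlinarith
      have h3 : t ^ 2 / (2 * ε) + ε / 2 = (t ^ 2 + ε ^ 2) / (2 * ε) := by
        field_simp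
      rw [h3, le_div_iff₀ (by positivity)]
      exact h2
  have e5 : ∫ ω in H, ((φ (f ω) - ψ (f ω)) ^ 2 / (2 * ε) + ε / 2) ∂μ ≤ ε := by
    rw [integral_add (hsq.div_const _) (integrable_const _), integral_div]
    have h1 : ∫ _ω in H, ε / 2 ∂μ ≤ ε / 2 := by
      rw [integral_const, smul_eq_mul]
      have : (μ.restrict H).real univ ≤ 1 := by
        rw [measureReal_restrict_apply_univ]
        exact measureReal_le_one
      nlinarith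
    have h2 : (∫ ω in H, (φ (f ω) - ψ (f ω)) ^ 2 ∂μ) / (2 * ε) ≤ ε / 2 := by
      rw [div_le_iff₀ (by positivity)]
      nlinarith
    linarith
  linarith

end Sep1aux

/-
PLAN.  Let `ε > 0`.  No infinite `ε`-separated sequence ⇒ (greedy) finitely many `φ_1..φ_r` in the unit ball
such that every `φ` in the unit ball has some `i` with `∫_H (φ f - φ_i f)² < ε`.  For measurable `A, B ⊆ H`
with Pettis integrals `x_A, x_B` and `‖φ‖ ≤ 1`: `|φ x_A - φ_i x_A| ≤ ∫_H |φ f - φ_i f| ≤ √ε` (Cauchy–Schwarz,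
`μ H ≤ 1`; square integrability on `H`: `|φ f| ≤ M` a.e. on `H` by `hH`, as in Comp1), so
`‖x_A - x_B‖ ≤ max_i |φ_i x_A - φ_i x_B| + 2 √ε`.  The points `(φ_i x_A)_i ∈ ℝ^r` are bounded, so the set
of all `x_A` is totally bounded, hence separable.
-/
theorem sep1 {X : Type} [NormedAddCommGroup X] [NormedSpace ℝ X]
    {Ω : Type} [MeasurableSpace Ω] (μ : Measure Ω) (hμ : IsProbabilityMeasure μ)
    (f : Ω → X) (hf : Pettis μ f) (H : Set Ω) (hHm : MeasurableSet H) (M : ℝ) (hM : 0 < M)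
    (hH : ∀ G : Set Ω, MeasurableSet G → 0 < μ (G ∩ H) → 0 < μ (G ∩ H ∩ {ω | ‖f ω‖ ≤ M}))
    (h : ∀ φ : ℕ → (X →L[ℝ] ℝ), (∀ n, ‖φ n‖ ≤ 1) → ∀ ε : ℝ, 0 < ε →
      ¬ ∀ n m, n ≠ m → ε ≤ ∫ ω in H, (φ n (f ω) - φ m (f ω)) ^ 2 ∂μ) :
    TopologicalSpace.IsSeparable {x : X | ∃ A : Set Ω, MeasurableSet A ∧ A ⊆ H ∧
      ∀ φ : X →L[ℝ] ℝ, φ x = ∫ ω in A, φ (f ω) ∂μ} := by
  classical
  set R : Set X := {x : X | ∃ A : Set Ω, MeasurableSet A ∧ A ⊆ H ∧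
      ∀ φ : X →L[ℝ] ℝ, φ x = ∫ ω in A, φ (f ω) ∂μ} with hR
  have key : ∀ ε : ℝ, 0 < ε → ∃ C : Set X, C.Countable ∧ ∀ x ∈ R, ∃ c ∈ C, ‖x - c‖ ≤ 3 * ε := by
    intro ε hε
    obtain ⟨F, hF1, hF2⟩ := Sep1aux.net μ f H h (ε ^ 2) (by positivity)
    let T : X → (F → ℝ) := fun x φ => (φ : X →L[ℝ] ℝ) x
    obtain ⟨t, ht1, ht2, ht3⟩ :=
      (TopologicalSpace.IsSeparable.of_separableSpace (T '' R)).exists_countable_dense_subset
    have hch : ∀ y : t, ∃ x ∈ R, T x = y := fun y => ht1 y.2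
    choose g hg1 hg2 using hch
    have : Countable t := ht2.to_subtype
    refine ⟨range g, countable_range g, ?_⟩
    intro x hx
    have hxc : T x ∈ closure t := ht3 ⟨x, hx, rfl⟩
    obtain ⟨y, hy, hxy⟩ := Metric.mem_closure_iff.1 hxc ε hε
    refine ⟨g ⟨y, hy⟩, ⟨_, rfl⟩, ?_⟩
    set c := g ⟨y, hy⟩ with hc
    have hcR : c ∈ R := hg1 ⟨y, hy⟩
    have hcy : T c = y := hg2 ⟨y, hy⟩
    obtain ⟨A, hA, hAH, hxA⟩ := hx
    obtain ⟨B, hB, hBH, hcB⟩ := hcR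
    obtain ⟨φ, hφ1, hφ2⟩ := exists_dual_vector'' ℝ (x - c)
    obtain ⟨ψ, hψF, hψ⟩ := hF2 φ hφ1
    have hψ1 := hF1 ψ hψF
    have i1 := Sep1aux.close μ hμ f hf H hHm M hM hH φ ψ hφ1 hψ1 ε hε hψ A hA hAH x hxA
    have i2 := Sep1aux.close μ hμ f hf H hHm M hM hH φ ψ hφ1 hψ1 ε hε hψ B hB hBH c hcB
    have i3 : |ψ x - ψ c| ≤ ε := by
      have h1 : dist (T x ⟨ψ, hψF⟩) (y ⟨ψ, hψF⟩) ≤ dist (T x) y := dist_le_pi_dist _ _ _
      have h2 : y ⟨ψ, hψF⟩ = ψ c := by rw [← hcy]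
      rw [h2] at h1
      have h3 : |ψ x - ψ c| ≤ dist (T x) y := by
        rw [← Real.dist_eq]; exact h1
      linarith
    have i4 : φ (x - c) = ‖x - c‖ := by simpa using hφ2
    have i5 : ‖x - c‖ = (φ x - ψ x) + (ψ x - ψ c) - (φ c - ψ c) := by
      rw [← i4, map_sub]; ring
    have j1 := abs_le.1 i1
    have j2 := abs_le.1 i2
    have j3 := abs_le.1 i3
    rw [i5]
    linarith
  choose! C hC1 hC2 using key
  refine ⟨⋃ k : ℕ, C (1 / ((k : ℝ) + 1)), ?_, ?_⟩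
  · exact countable_iUnion fun k => hC1 _ (by positivity)
  · intro x hx
    rw [Metric.mem_closure_iff]
    intro ε hε
    obtain ⟨k, hk⟩ := exists_nat_one_div_lt (show (0 : ℝ) < ε / 3 by positivity)
    obtain ⟨c, hc1, hc2⟩ := hC2 (1 / ((k : ℝ) + 1)) (by positivity) x hx
    refine ⟨c, mem_iUnion.2 ⟨k, hc1⟩, ?_⟩
    rw [dist_eq_norm]
    linarith

end Pool.Agent.RVM
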