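import Pool.Agent.RVM.Defs

set_option autoImplicit false

open MeasureTheory Set Filter Topology Cardinal
open scoped ENNReal

namespace Pool.Agent.RVM

theorem sep2 {X : Type} [NormedAddCommGroup X] [NormedSpace ℝ X]
    {Ω : Type} [MeasurableSpace Ω] (μ : Measure Ω) (hμ : IsProbabilityMeasure μ)
    (f : Ω → X) (hf : Pettis μ f)
    (h : ∀ (H : Set Ω) (M : ℝ), MeasurableSet H → 0 < M →
      (∀ G : Set Ω, MeasurableSet G → 0 < μ (G ∩ H) → 0 < μ (G ∩ H ∩ {ω | ‖f ω‖ ≤ M})) →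
      TopologicalSpace.IsSeparable {x : X | ∃ A : Set Ω, MeasurableSet A ∧ A ⊆ H ∧
        ∀ φ : X →L[ℝ] ℝ, φ x = ∫ ω in A, φ (f ω) ∂μ}) :
    TopologicalSpace.IsSeparable {x : X | ∃ A : Set Ω, MeasurableSet A ∧
      ∀ φ : X →L[ℝ] ℝ, φ x = ∫ ω in A, φ (f ω) ∂μ} := by
  classical
  set T : ℕ → Set Ω := fun n => {ω | ‖f ω‖ ≤ (n : ℝ) + 1} with hT
  set H : ℕ → Set Ω := fun n => toMeasurable μ (T n) with hH
  have hTH : ∀ n, T n ⊆ H n := fun n => subset_toMeasurable μ (T n)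
  have hHm : ∀ n, MeasurableSet (H n) := fun n => measurableSet_toMeasurable μ (T n)
  set R : ℕ → Set X := fun n => {x : X | ∃ A : Set Ω, MeasurableSet A ∧ A ⊆ H n ∧
        ∀ φ : X →L[ℝ] ℝ, φ x = ∫ ω in A, φ (f ω) ∂μ} with hR
  have hRs : ∀ n, TopologicalSpace.IsSeparable (R n) := by
    intro n
    refine h (H n) ((n : ℝ) + 1) (hHm n) (by positivity) ?_
    intro G hG hpos
    have h1 : G ∩ H n ∩ {ω | ‖f ω‖ ≤ (n : ℝ) + 1} = T n ∩ G := by
      ext ω
      constructor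
      · rintro ⟨⟨hg, _⟩, ht⟩; exact ⟨ht, hg⟩
      · rintro ⟨ht, hg⟩; exact ⟨⟨hg, hTH n ht⟩, ht⟩
    have h2 : μ (H n ∩ G) = μ (T n ∩ G) :=
      Measure.measure_toMeasurable_inter hG (measure_ne_top μ _)
    rw [h1, ← h2, inter_comm]
    exact hpos
  set Y : Submodule ℝ X := (Submodule.span ℝ (⋃ n, R n)).topologicalClosure with hY
  have hYs : TopologicalSpace.IsSeparable (Y : Set X) := by
    rw [hY, Submodule.topologicalClosure_coe]
    exact ((TopologicalSpace.isSeparable_iUnion.2 hRs).span).closure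
  refine hYs.mono ?_
  rintro x ⟨A, hA, hx⟩
  by_contra hxY
  have hYc : IsClosed (Y : Set X) := Submodule.isClosed_topologicalClosure _
  obtain ⟨φ, u, hφ1, hφ2⟩ := geometric_hahn_banach_closed_point (Y.convex) hYc hxY
  -- `φ` vanishes on `Y`
  have hφ0 : ∀ y ∈ Y, φ y = 0 := by
    intro y hy
    by_contra hne
    have h1 := hφ1 ((u / φ y) • y) (Y.smul_mem _ hy)
    rw [map_smul, smul_eq_mul, div_mul_cancel₀ _ hne] at h1
    exact lt_irrefl _ h1
  have hu : 0 < u := by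
    have := hφ1 0 (Y.zero_mem)
    simpa using this
  have hφx : φ x ≠ 0 := ne_of_gt (lt_trans hu hφ2)
  -- the integrals over `A ∩ H n` vanish
  have hzero : ∀ n, ∫ ω in A ∩ H n, φ (f ω) ∂μ = 0 := by
    intro n
    obtain ⟨y, hy⟩ := hf.2 (A ∩ H n) (hA.inter (hHm n))
    have hyR : y ∈ R n := ⟨A ∩ H n, hA.inter (hHm n), inter_subset_right, hy⟩
    have hyY : y ∈ Y := Submodule.le_topologicalClosure _
      (Submodule.subset_span (mem_iUnion.2 ⟨n, hyR⟩))
    rw [← hy φ, hφ0 y hyY]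
  have hlim : Tendsto (fun n : ℕ => ∫ ω, (A ∩ H n).indicator (fun ω => φ (f ω)) ω ∂μ) atTop
      (𝓝 (∫ ω, A.indicator (fun ω => φ (f ω)) ω ∂μ)) := by
    refine tendsto_integral_of_dominated_convergence (fun ω => |φ (f ω)|) ?_ ?_ ?_ ?_
    · intro n
      exact (hf.1 φ).aestronglyMeasurable.indicator (hA.inter (hHm n))
    · exact (hf.1 φ).abs
    · intro n
      refine Filter.Eventually.of_forall fun ω => ?_
      rw [Real.norm_eq_abs]
      by_cases hω : ω ∈ A ∩ H n
      · rw [indicator_of_mem hω]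
      · rw [indicator_of_notMem hω, abs_zero]; exact abs_nonneg _
    · refine Filter.Eventually.of_forall fun ω => ?_
      obtain ⟨N, hN⟩ := exists_nat_ge (‖f ω‖)
      refine tendsto_const_nhds.congr' ?_
      filter_upwards [eventually_ge_atTop N] with n hn
      have hωH : ω ∈ H n := by
        refine hTH n ?_
        show ‖f ω‖ ≤ (n : ℝ) + 1
        have : (N : ℝ) ≤ n := by exact_mod_cast hn
        linarith
      by_cases hω : ω ∈ A
      · have hm : ω ∈ A ∩ H n := ⟨hω, hωH⟩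
        rw [indicator_of_mem hω, indicator_of_mem hm]
      · have hm : ω ∉ A ∩ H n := fun hc => hω hc.1
        rw [indicator_of_notMem hω, indicator_of_notMem hm]
  have h3 : (fun n : ℕ => ∫ ω, (A ∩ H n).indicator (fun ω => φ (f ω)) ω ∂μ) = fun _ => (0 : ℝ) := by
    funext n
    rw [integral_indicator (hA.inter (hHm n))]
    exact hzero n
  rw [h3, integral_indicator hA, ← hx φ] at hlim
  exact hφx (tendsto_nhds_unique hlim tendsto_const_nhds)

end Pool.Agent.RVM
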