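import Pool.Agent.RVM.Setup
import Pool.Agent.RVM.Comp1
import Pool.Agent.RVM.Comp2
import Pool.Agent.RVM.Comp3
import Pool.Agent.RVM.Sep1
import Pool.Agent.RVM.Sep2

set_option autoImplicit false

open MeasureTheory Set Filter Topology Cardinal
open scoped ENNReal

namespace Pool.Agent.RVM

theorem final (hR : RVM) {X : Type} [NormedAddCommGroup X] [NormedSpace ℝ X]
    (hX : ∀ (Ω : Type) [MeasurableSpace Ω] (μ : Measure Ω), IsProbabilityMeasure μ →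
      μ.IsComplete → ∀ g : Ω → X, (∀ φ : X →L[ℝ] ℝ, Measurable (fun ω => φ (g ω))) →
        (∃ M : ℝ, ∀ φ : X →L[ℝ] ℝ, ∀ᵐ ω ∂μ, |φ (g ω)| ≤ M * ‖φ‖) → Pettis μ g)
    {Ω : Type} [MeasurableSpace Ω] (μ : Measure Ω) (hμ : IsProbabilityMeasure μ)
    (f : Ω → X) (hf : Pettis μ f) :
    TopologicalSpace.IsSeparable {x : X | ∃ A : Set Ω, MeasurableSet A ∧
      ∀ φ : X →L[ℝ] ℝ, φ x = ∫ ω in A, φ (f ω) ∂μ} := by
  obtain ⟨I, _, _, ν, hT⟩ := setup hR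
  have hX' : ∀ g : I → X, (∃ M : ℝ, ∀ i, ‖g i‖ ≤ M) → Pettis ν g := by
    rintro g ⟨M, hM⟩
    refine hX I ν hT.prob ⟨fun s _ => hT.meas s⟩ g (fun φ A _ => hT.meas _) ⟨M, fun φ => ?_⟩
    refine Filter.Eventually.of_forall fun i => ?_
    calc |φ (g i)| ≤ ‖φ‖ * ‖g i‖ := φ.le_opNorm _
      _ ≤ ‖φ‖ * M := mul_le_mul_of_nonneg_left (hM i) (norm_nonneg _)
      _ = M * ‖φ‖ := mul_comm _ _
  refine sep2 μ hμ f hf fun H M hHm hM hH => ?_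
  refine sep1 μ hμ f hf H hHm M hM hH fun φ hφ ε hε hsep => ?_
  obtain ⟨ψ, h1, h2, δ, hδ, Ω0, h3, h4, h5, h6⟩ := comp1 μ hμ f hf H hHm M hM hH φ hφ ε hε hsep
  obtain ⟨g, hg, U, hU, hA, h0⟩ := comp2 hT μ hμ f hf H hHm M hM ψ h1 h2 δ hδ Ω0 h3 h4 h5 h6
  exact comp3 hT hX' g M hg ψ 2 h1 U hU (δ / 4) (by positivity) hA h0

end Pool.Agent.RVM
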