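import Pool.Agent.RVM.Defs

set_option autoImplicit false

open MeasureTheory Set Filter Topology Cardinal
open scoped ENNReal

namespace Pool.Agent.RVM

theorem allIic {I : Type} [LinearOrder I] {mI : MeasurableSpace I} {ν : Measure I}
    (hT : Tot I ν) : ∀ i : I, ν (Iic i) = 0 := hT.Iic_null

theorem M1 {I : Type} [LinearOrder I] [MeasurableSpace I] {ν : Measure I} (hT : Tot I ν)
    (m0 : MeasurableSpace I) (hc : #{A : Set I // MeasurableSet[m0] A} ≤ 𝔠)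
    (E : Set I) (hE : ν E ≠ 0) :
    ∃ E' : Set I, E' ⊆ E ∧ ∀ B : Set I, MeasurableSet[m0] B → ν (symmDiff E' (E ∩ B)) ≠ 0 := by
  have hIic : ∀ i : I, ν (Iic i) = 0 := (allIic hT)
  obtain ⟨hprob, hmeas, hwf, hsegI, hcI, hpt, hadd⟩ := hT
  by_contra hcon
  push Not at hcon
  -- the type of m0-measurable sets
  let T := {A : Set I // MeasurableSet[m0] A}
  have hTne : Nonempty T := ⟨⟨∅, @MeasurableSet.empty I m0⟩⟩
  have hcard : #(ℕ → T) ≤ #I := by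
    have h1 : #(ℕ → T) = #T ^ ℵ₀ := by
      rw [← Cardinal.mk_nat, Cardinal.power_def]
    rw [h1, hcI]
    calc #T ^ ℵ₀ ≤ 𝔠 ^ ℵ₀ := Cardinal.power_le_power_right hc
      _ = 𝔠 := Cardinal.continuum_power_aleph0
  obtain ⟨g⟩ : Nonempty ((ℕ → T) ↪ I) := hcard
  obtain ⟨Φ, hΦ⟩ : ∃ Φ : I → (ℕ → T), Function.Surjective Φ :=
    ⟨Function.invFun g, Function.invFun_surjective g.injective⟩
  -- choice of F
  have hF : ∀ ξ : I, ∃ F : Set ℕ, ∀ α : I, α < ξ → F ≠ {n | ξ ∈ (Φ α n).1} := by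
    intro ξ
    by_contra hno
    push Not at hno
    have hsurj : Function.Surjective (fun α : Iic ξ => {n | ξ ∈ (Φ α.1 n).1}) := by
      intro F
      obtain ⟨α, hα, hFα⟩ := hno F
      exact ⟨⟨α, hα.le⟩, hFα.symm⟩
    have h1 : #(Set ℕ) ≤ #(Iic ξ) := Cardinal.mk_le_of_surjective hsurj
    have h2 : #(Set ℕ) = 𝔠 := by
      rw [Cardinal.mk_set, Cardinal.mk_nat, Cardinal.two_power_aleph0]
    rw [h2] at h1
    exact absurd (hsegI ξ) (not_lt.mpr h1)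
  choose F hF using hF
  have hB : ∀ n : ℕ, ∃ B : T, ν (symmDiff {ξ | ξ ∈ E ∧ n ∈ F ξ} (E ∩ B.1)) = 0 := by
    intro n
    obtain ⟨B, hB1, hB2⟩ := hcon {ξ | ξ ∈ E ∧ n ∈ F ξ} (fun ξ h => h.1)
    exact ⟨⟨B, hB1⟩, hB2⟩
  choose B hB using hB
  obtain ⟨α, hα⟩ := hΦ B
  have hsub : E ⊆ (⋃ n : ℕ, symmDiff {ξ | ξ ∈ E ∧ n ∈ F ξ} (E ∩ (B n).1)) ∪ Iic α := by
    intro ξ hξ
    by_cases hlt : ξ ≤ α
    · exact Or.inr hlt
    · left
      by_contra hnot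
      apply hF ξ α (not_le.mp hlt)
      rw [hα]
      ext n
      have hn : ξ ∉ symmDiff {ξ | ξ ∈ E ∧ n ∈ F ξ} (E ∩ (B n).1) := fun h =>
        hnot (mem_iUnion.mpr ⟨n, h⟩)
      rw [mem_symmDiff] at hn
      simp only [mem_ofPred_eq, mem_inter_iff] at hn ⊢
      tauto
  apply hE
  refine measure_mono_null hsub (measure_union_null (measure_iUnion_null hB) (hIic α))

end Pool.Agent.RVM
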