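import Pool.Agent.RVM.M1

set_option autoImplicit false

open MeasureTheory Set Filter Topology Cardinal
open scoped ENNReal

namespace Pool.Agent.RVM

/-- one halving step (Hahn decomposition on `m0` and `M1`) -/
theorem M2half {I : Type} {lI : LinearOrder I} {mI : MeasurableSpace I} {ν : @Measure I mI}
    (hT : @Tot I lI mI ν)
    (m0 : MeasurableSpace I) (hc : #{A : Set I // MeasurableSet[m0] A} ≤ 𝔠)
    (E : Set I) (hE : ν E ≠ 0) :
    ∃ E' : Set I, E' ⊆ E ∧ ν E' ≠ 0 ∧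
      ∀ B : Set I, MeasurableSet[m0] B → ν.real (E' ∩ B) ≤ (1 / 2) * ν.real (E ∩ B) := by
  classical
  have hprob : @IsProbabilityMeasure I mI ν := @Tot.prob I lI mI ν hT
  have hmeas : ∀ s : Set I, MeasurableSet[mI] s := @Tot.meas I lI mI ν hT
  obtain ⟨E1, hE1, hM1⟩ := @M1 I lI mI ν hT m0 hc E hE
  have hle : m0 ≤ mI := fun s _ => hmeas s
  have hsplit : ∀ A D : Set I, ν.real A = ν.real (A ∩ D) + ν.real (A ∩ Dᶜ) := by
    intro A D
    have h1 : ν.real ((A ∩ D) ∪ (A ∩ Dᶜ)) = ν.real (A ∩ D) + ν.real (A ∩ Dᶜ) := by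
      refine measureReal_union ?_ (hmeas _)
      rw [Set.disjoint_left]
      rintro x ⟨_, hx⟩ ⟨_, hx'⟩
      exact hx' hx
    rw [← h1, ← inter_union_distrib_left, union_compl_self, inter_univ]
  let μ1 : @Measure I m0 := (ν.restrict E1).trim hle
  let μ2 : @Measure I m0 := (ν.restrict (E \ E1)).trim hle
  have h1fin : @IsFiniteMeasure I m0 μ1 := isFiniteMeasure_trim hle
  have h2fin : @IsFiniteMeasure I m0 μ2 := isFiniteMeasure_trim hle
  obtain ⟨s, hs, hs1, hs2⟩ := @hahn_decomposition I m0 μ1 μ2 h1fin h2fin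
  have e1 : ∀ B : Set I, MeasurableSet[m0] B → μ1 B = ν (B ∩ E1) := by
    intro B hB
    have h1 : μ1 B = (ν.restrict E1) B := trim_measurableSet_eq hle hB
    rw [h1, Measure.restrict_apply (hmeas B)]
  have e2 : ∀ B : Set I, MeasurableSet[m0] B → μ2 B = ν (B ∩ (E \ E1)) := by
    intro B hB
    have h1 : μ2 B = (ν.restrict (E \ E1)) B := trim_measurableSet_eq hle hB
    rw [h1, Measure.restrict_apply (hmeas B)]
  have r1 : ∀ B : Set I, MeasurableSet[m0] B → B ⊆ s →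
      ν.real (B ∩ (E \ E1)) ≤ ν.real (B ∩ E1) := by
    intro B hB hBs
    have h1 := hs1 B hB hBs
    rw [e1 B hB, e2 B hB] at h1
    exact ENNReal.toReal_mono (measure_ne_top _ _) h1
  have r2 : ∀ B : Set I, MeasurableSet[m0] B → B ⊆ sᶜ →
      ν.real (B ∩ E1) ≤ ν.real (B ∩ (E \ E1)) := by
    intro B hB hBs
    have h1 := hs2 B hB hBs
    rw [e1 B hB, e2 B hB] at h1
    exact ENNReal.toReal_mono (measure_ne_top _ _) h1
  let E2 : Set I := (E1 ∩ sᶜ) ∪ ((E \ E1) ∩ s)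
  have hE2 : E2 ⊆ E := by
    rintro x (⟨hx, _⟩ | ⟨⟨hx, _⟩, _⟩)
    · exact hE1 hx
    · exact hx
  refine ⟨E2, hE2, ?_, ?_⟩
  · have h1 := hM1 s hs
    have h2 : symmDiff E1 (E ∩ s) = E2 := by
      ext x
      simp only [Set.mem_symmDiff, E2, mem_union, mem_inter_iff, mem_compl_iff, mem_diff]
      constructor
      · rintro (⟨h3, h4⟩ | ⟨⟨h3, h4⟩, h5⟩)
        · exact Or.inl ⟨h3, fun h5 => h4 ⟨hE1 h3, h5⟩⟩
        · exact Or.inr ⟨⟨h3, h5⟩, h4⟩
      · rintro (⟨h3, h4⟩ | ⟨⟨h3, h4⟩, h5⟩)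
        · exact Or.inl ⟨h3, fun h5 => h4 h5.2⟩
        · exact Or.inr ⟨⟨h3, h5⟩, h4⟩
    rwa [h2] at h1
  · intro B hB
    have hBs : MeasurableSet[m0] (B ∩ s) := MeasurableSet.inter hB hs
    have hBsc : MeasurableSet[m0] (B ∩ sᶜ) := MeasurableSet.inter hB (MeasurableSet.compl hs)
    have a1 := r1 (B ∩ s) hBs inter_subset_right
    have a2 := r2 (B ∩ sᶜ) hBsc inter_subset_right
    have b1 : ν.real (E2 ∩ B) = ν.real ((B ∩ s) ∩ (E \ E1)) + ν.real ((B ∩ sᶜ) ∩ E1) := by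
      rw [hsplit (E2 ∩ B) s]
      congr 2
      · ext x
        simp only [E2, mem_union, mem_inter_iff, mem_compl_iff, mem_diff]
        tauto
      · ext x
        simp only [E2, mem_union, mem_inter_iff, mem_compl_iff, mem_diff]
        tauto
    have b2 : ν.real (E ∩ B) = (ν.real ((B ∩ s) ∩ E1) + ν.real ((B ∩ s) ∩ (E \ E1))) +
        (ν.real ((B ∩ sᶜ) ∩ E1) + ν.real ((B ∩ sᶜ) ∩ (E \ E1))) := by
      rw [hsplit (E ∩ B) s, hsplit (E ∩ B ∩ s) E1, hsplit (E ∩ B ∩ sᶜ) E1]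
      congr 1
      · congr 1
        · congr 1
          ext x
          simp only [mem_inter_iff]
          constructor
          · rintro ⟨⟨⟨_, h2⟩, h3⟩, h4⟩
            exact ⟨⟨h2, h3⟩, h4⟩
          · rintro ⟨⟨h2, h3⟩, h4⟩
            exact ⟨⟨⟨hE1 h4, h2⟩, h3⟩, h4⟩
        · congr 1
          ext x
          simp only [mem_inter_iff, mem_compl_iff, mem_diff]
          tauto
      · congr 1
        · congr 1
          ext x
          simp only [mem_inter_iff]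
          constructor
          · rintro ⟨⟨⟨_, h2⟩, h3⟩, h4⟩
            exact ⟨⟨h2, h3⟩, h4⟩
          · rintro ⟨⟨h2, h3⟩, h4⟩
            exact ⟨⟨⟨hE1 h4, h2⟩, h3⟩, h4⟩
        · congr 1
          ext x
          simp only [mem_inter_iff, mem_compl_iff, mem_diff]
          tauto
    rw [b1, b2]
    linarith

/-
PLAN (M2a).  For `E` write `p_E := rnDeriv` (or conditional expectation, `ν[E.indicator 1 | m0]`) of
`B ↦ ν (E ∩ B)` on m0.  Given positive `E` take `E'` from M1; `p_{E'} + p_{E \ E'} = p_E` a.e.  Put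
`B1 = {p_{E'} ≤ p_E / 2}` (m0-measurable), `E'' = (E' ∩ B1) ∪ ((E \ E') ∩ B1ᶜ)`.  Then
`ν (E'' ∩ B) ≤ (1/2) ν (E ∩ B)` for all m0-measurable `B`, and `E''` is positive, because otherwise
`E' = E ∩ B1ᶜ` up to a null set, contradicting M1.  Iterate `n` times to get the factor `2⁻ⁿ`
(`E` need not be related to q).  (All subsets of `I` are measurable for the ambient σ-algebra:
`hT.meas`; `m0 ≤` ambient.)
-/
theorem M2a {I : Type} [LinearOrder I] [MeasurableSpace I] {ν : Measure I} (hT : Tot I ν)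
    (m0 : MeasurableSpace I) (hc : #{A : Set I // MeasurableSet[m0] A} ≤ 𝔠)
    (E : Set I) (hE : ν E ≠ 0) (n : ℕ) :
    ∃ E' : Set I, E' ⊆ E ∧ ν E' ≠ 0 ∧
      ∀ B : Set I, MeasurableSet[m0] B → ν.real (E' ∩ B) ≤ (1 / 2) ^ n * ν.real (E ∩ B) := by
  induction n with
  | zero =>
    refine ⟨E, subset_rfl, hE, fun B _ => ?_⟩
    rw [pow_zero, one_mul]
  | succ n ih =>
    obtain ⟨E1, h1, h2, h3⟩ := ih
    obtain ⟨E2, h4, h5, h6⟩ := M2half hT m0 hc E1 h2
    refine ⟨E2, h4.trans h1, h5, fun B hB => ?_⟩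
    have h7 := h3 B hB
    have h8 := h6 B hB
    rw [pow_succ]
    linarith

end Pool.Agent.RVM
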