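import Pool.Agent.RVM.M2

set_option autoImplicit false

open MeasureTheory Set Filter Topology Cardinal
open scoped ENNReal

namespace Pool.Agent.RVM

/-- exhaustion principle -/
theorem exhaust {I : Type} [MeasurableSpace I] (ν : Measure I) [IsProbabilityMeasure ν]
    (good : Set I → Prop) (h0 : good ∅)
    (hU : ∀ E : ℕ → Set I, Monotone E → (∀ n, good (E n)) → good (⋃ n, E n)) :
    ∃ E : Set I, good E ∧ ∀ E' : Set I, E ⊆ E' → good E' → ν E' ≤ ν E := by
  have hstep : ∀ (E : {E : Set I // good E}) (n : ℕ), ∃ E' : {E : Set I // good E},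
      E.1 ⊆ E'.1 ∧ ∀ F : Set I, E.1 ⊆ F → good F → ν F ≤ ν E'.1 + ((n : ℝ≥0∞) + 1)⁻¹ := by
    intro E n
    set s : ℝ≥0∞ := ⨆ F : {F : Set I // E.1 ⊆ F ∧ good F}, ν F.1 with hs
    by_cases hs0 : s = 0
    · refine ⟨E, Set.Subset.refl _, fun F hF hg => ?_⟩
      have : ν F ≤ s := le_iSup (fun F : {F : Set I // E.1 ⊆ F ∧ good F} => ν F.1) ⟨F, hF, hg⟩
      rw [hs0] at this
      exact this.trans bot_le
    · have hs1 : s ≤ 1 := iSup_le fun F => prob_le_one
      have hlt : s - ((n : ℝ≥0∞) + 1)⁻¹ < s := by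
        apply ENNReal.sub_lt_self (ne_top_of_le_ne_top ENNReal.one_ne_top hs1) hs0
        exact (ENNReal.inv_pos.2 (by finiteness)).ne'
      obtain ⟨F, hF⟩ := lt_iSup_iff.1 hlt
      refine ⟨⟨F.1, F.2.2⟩, F.2.1, fun F' hF' hg => ?_⟩
      have h1 : ν F' ≤ s :=
        le_iSup (fun F : {F : Set I // E.1 ⊆ F ∧ good F} => ν F.1) ⟨F', hF', hg⟩
      exact h1.trans (tsub_le_iff_right.1 hF.le)
  choose g hg1 hg2 using hstep
  let Z : ℕ → {E : Set I // good E} := fun n =>
    Nat.rec (motive := fun _ => {E : Set I // good E}) ⟨∅, h0⟩ (fun n z => g z n) n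
  have hZs : ∀ n, Z (n + 1) = g (Z n) n := fun n => rfl
  have hmono : Monotone (fun n => (Z n).1) := by
    apply monotone_nat_of_le_succ
    intro n
    rw [hZs]
    exact hg1 (Z n) n
  refine ⟨⋃ n, (Z n).1, hU _ hmono fun n => (Z n).2, fun E' hE' hg => ?_⟩
  have key : ∀ n : ℕ, ν E' ≤ ν (⋃ n, (Z n).1) + ((n : ℝ≥0∞) + 1)⁻¹ := by
    intro n
    have h1 := hg2 (Z n) n E' ((Set.subset_iUnion (fun n => (Z n).1) n).trans hE') hg
    refine h1.trans ?_
    gcongr
    rw [← hZs]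
    exact Set.subset_iUnion (fun n => (Z n).1) (n + 1)
  have ht : Tendsto (fun j : ℕ => ν (⋃ n, (Z n).1) + ((j : ℝ≥0∞) + 1)⁻¹) atTop
      (𝓝 (ν (⋃ n, (Z n).1) + 0)) := by
    apply Tendsto.add tendsto_const_nhds
    have h1 := (tendsto_add_atTop_iff_nat 1).2 ENNReal.tendsto_inv_nat_nhds_zero
    refine h1.congr fun j => ?_
    push_cast
    rfl
  rw [add_zero] at ht
  exact ge_of_tendsto ht (Filter.Eventually.of_forall key)

theorem M2_aux {I : Type} (m0 : MeasurableSpace I) [m1 : MeasurableSpace I] (ν : Measure I)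
    [IsProbabilityMeasure ν] (hall : ∀ A : Set I, MeasurableSet A) (hm : m0 ≤ m1)
    (hM : ∀ E : Set I, ν E ≠ 0 → ∀ n : ℕ, ∃ E' : Set I, E' ⊆ E ∧ ν E' ≠ 0 ∧
      ∀ B : Set I, MeasurableSet[m0] B → ν.real (E' ∩ B) ≤ (1 / 2) ^ n * ν.real (E ∩ B))
    (q : I → ℝ) (hq : Measurable[m0] q) (h0 : ∀ x, 0 ≤ q x) (h1 : ∀ x, q x ≤ 1) :
    ∃ E : Set I, ∀ B : Set I, MeasurableSet[m0] B → ν.real (E ∩ B) = ∫ x in B, q x ∂ν := by
  classical
  have hqm : Measurable q := hq.mono hm le_rfl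
  have hqi : Integrable q ν := by
    refine Integrable.of_bound hqm.aestronglyMeasurable 1 (Filter.Eventually.of_forall fun x => ?_)
    rw [Real.norm_eq_abs, abs_of_nonneg (h0 x)]
    exact h1 x
  set good : Set I → Prop := fun E => ∀ B : Set I, MeasurableSet[m0] B →
    ν.real (E ∩ B) ≤ ∫ x in B, q x ∂ν with hgood
  have hg0 : good ∅ := by
    intro B hB
    rw [Set.empty_inter, measureReal_empty]
    exact integral_nonneg h0
  have hgU : ∀ E : ℕ → Set I, Monotone E → (∀ n, good (E n)) → good (⋃ n, E n) := by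
    intro E hE hgE B hB
    have ht : Tendsto (fun n => ν.real (E n ∩ B)) atTop (𝓝 (ν.real ((⋃ n, E n) ∩ B))) := by
      rw [Set.iUnion_inter]
      have hmono : Monotone (fun n => E n ∩ B) := fun i j hij =>
        Set.inter_subset_inter_left _ (hE hij)
      have h2 := tendsto_measure_iUnion_atTop (μ := ν) hmono
      exact (ENNReal.tendsto_toReal (measure_ne_top _ _)).comp h2
    exact le_of_tendsto ht (Filter.Eventually.of_forall fun n => hgE n B hB)
  obtain ⟨E, hE, hmax⟩ := exhaust ν good hg0 hgU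
  refine ⟨E, fun B1 hB1 => le_antisymm (hE B1 hB1) ?_⟩
  by_contra hcon
  rw [not_le] at hcon
  -- the density
  set p : I → ℝ := ν[E.indicator (fun _ => (1 : ℝ)) | m0] with hp
  have hEi : Integrable (E.indicator (fun _ => (1 : ℝ))) ν :=
    (integrable_const _).indicator (hall E)
  have hpm : StronglyMeasurable[m0] p := stronglyMeasurable_condExp
  have hpi : Integrable p ν := integrable_condExp
  have hpint : ∀ B : Set I, MeasurableSet[m0] B → ∫ x in B, p x ∂ν = ν.real (E ∩ B) := by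
    intro B hB
    rw [hp, setIntegral_condExp hm hEi hB, integral_indicator_const _ (hall E)]
    rw [measureReal_restrict_apply (hall E)]
    simp
  -- B0
  set D : ℕ → Set I := fun n => {x | p x + (1 / 2) ^ n < q x} with hD
  have hDm : ∀ n, MeasurableSet[m0] (D n) := fun n =>
    measurableSet_lt (hpm.measurable.add_const _) hq
  have hex : ∃ n, ν (D n) ≠ 0 := by
    by_contra hno
    push Not at hno
    have hae : ∀ᵐ x ∂ν, q x ≤ p x := by
      have h2 : ∀ᵐ x ∂ν, ∀ n, x ∉ D n := ae_all_iff.2 fun n => measure_eq_zero_iff_ae_notMem.1 (hno n)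
      filter_upwards [h2] with x hx
      by_contra hlt
      rw [not_le] at hlt
      obtain ⟨n, hn⟩ := exists_pow_lt_of_lt_one (sub_pos.2 hlt) (by norm_num : (1 / 2 : ℝ) < 1)
      exact hx n (by simp only [hD, mem_ofPred_eq]; linarith)
    have h3 : ∫ x in B1, q x ∂ν ≤ ∫ x in B1, p x ∂ν :=
      setIntegral_mono_ae hqi.integrableOn hpi.integrableOn hae
    rw [hpint B1 hB1] at h3
    exact absurd hcon (not_lt.2 h3)
  obtain ⟨n, hn⟩ := hex
  set B0 := D n with hB0
  have hB0m : MeasurableSet[m0] B0 := hDm n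
  have hδ : (0 : ℝ) < (1 / 2) ^ n := by positivity
  -- Eᶜ ∩ B0 is positive
  have hpos : ν (Eᶜ ∩ B0) ≠ 0 := by
    intro hz
    have h2 : ν.real B0 = ν.real (E ∩ B0) := by
      have h3 : B0 = (E ∩ B0) ∪ (Eᶜ ∩ B0) := by
        rw [← Set.union_inter_distrib_right, Set.union_compl_self, Set.univ_inter]
      apply le_antisymm
      · calc ν.real B0 = ν.real ((E ∩ B0) ∪ (Eᶜ ∩ B0)) := by rw [← h3]
          _ ≤ ν.real (E ∩ B0) + ν.real (Eᶜ ∩ B0) := measureReal_union_le _ _
          _ = ν.real (E ∩ B0) := by rw [measureReal_def ν (Eᶜ ∩ B0), hz]; simp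
      · exact measureReal_mono Set.inter_subset_right
    have h4 : ∫ x in B0, (p x + (1 / 2) ^ n) ∂ν ≤ ∫ x in B0, (1 : ℝ) ∂ν := by
      apply setIntegral_mono_on (hpi.add (integrable_const _)).integrableOn
        (integrable_const _).integrableOn (hall B0)
      intro x hx
      have hx' : p x + (1 / 2) ^ n < q x := hx
      exact hx'.le.trans (h1 x)
    rw [integral_add hpi.integrableOn (integrable_const _).integrableOn, hpint B0 hB0m,
      setIntegral_const, setIntegral_const, ← h2] at h4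
    have h5 : 0 < ν.real B0 := ENNReal.toReal_pos hn (measure_ne_top _ _)
    simp only [smul_eq_mul, mul_one] at h4
    nlinarith [mul_pos h5 hδ]
  obtain ⟨F, hF, hFpos, hFB⟩ := hM _ hpos n
  have hdisj : Disjoint E F := by
    rw [Set.disjoint_left]
    intro x hx hxF
    exact (hF hxF).1 hx
  have hgEF : good (E ∪ F) := by
    intro B hB
    have hBB0 : MeasurableSet[m0] (B ∩ B0) := @MeasurableSet.inter _ m0 _ _ hB hB0m
    have hBB0' : MeasurableSet[m0] (B \ B0) := @MeasurableSet.diff _ m0 _ _ hB hB0m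
    have e1 : ν.real ((E ∪ F) ∩ B) ≤ ν.real (E ∩ B) + ν.real (F ∩ B) := by
      rw [Set.union_inter_distrib_right]
      exact measureReal_union_le _ _
    have e2 : ν.real (E ∩ B) ≤ ν.real (E ∩ (B \ B0)) + ν.real (E ∩ (B ∩ B0)) := by
      have : E ∩ B = (E ∩ (B \ B0)) ∪ (E ∩ (B ∩ B0)) := by
        rw [← Set.inter_union_distrib_left, Set.sdiff_union_inter]
      rw [this]
      exact measureReal_union_le _ _
    have e3 : ν.real (F ∩ B) ≤ (1 / 2) ^ n * ν.real (B ∩ B0) := by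
      refine (hFB B hB).trans (mul_le_mul_of_nonneg_left ?_ hδ.le)
      refine measureReal_mono (fun x hx => ?_) (measure_ne_top _ _)
      exact ⟨hx.2, hx.1.2⟩
    have e4 : ν.real (E ∩ (B \ B0)) ≤ ∫ x in B \ B0, q x ∂ν := hE _ hBB0'
    have e5 : ν.real (E ∩ (B ∩ B0)) + (1 / 2) ^ n * ν.real (B ∩ B0) ≤ ∫ x in B ∩ B0, q x ∂ν := by
      have h6 : ∫ x in B ∩ B0, (p x + (1 / 2) ^ n) ∂ν ≤ ∫ x in B ∩ B0, q x ∂ν := by
        apply setIntegral_mono_on (hpi.add (integrable_const _)).integrableOn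
          hqi.integrableOn (hall _)
        intro x hx
        have hx' : p x + (1 / 2) ^ n < q x := hx.2
        exact hx'.le
      rw [integral_add hpi.integrableOn (integrable_const _).integrableOn, hpint _ hBB0,
        setIntegral_const, smul_eq_mul, mul_comm (ν.real (B ∩ B0))] at h6
      exact h6
    have e6 : ∫ x in B \ B0, q x ∂ν + ∫ x in B ∩ B0, q x ∂ν = ∫ x in B, q x ∂ν := by
      rw [← setIntegral_union _ (hall _) hqi.integrableOn hqi.integrableOn, Set.sdiff_union_inter]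
      rw [Set.disjoint_left]
      intro x hx hx'
      exact hx.2 hx'.2
    linarith
  have hfin := hmax (E ∪ F) Set.subset_union_left hgEF
  rw [measure_union hdisj (hall F)] at hfin
  have : ν E + ν F ≤ ν E + 0 := by rw [add_zero]; exact hfin
  rw [ENNReal.add_le_add_iff_left (measure_ne_top _ _)] at this
  exact hFpos (le_antisymm this bot_le)

/-
PLAN (M2).  Call `E` good if `ν (E ∩ B) ≤ ∫_B q` for all m0-measurable `B`.  Greedy: `E_0 = ∅`;
`s_n = sup {ν F : F disjoint from E_n, E_n ∪ F good}`; choose `F_n` with `ν F_n ≥ s_n / 2`,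
`E_{n+1} = E_n ∪ F_n`, `E = ⋃ E_n` is good and `s_n → 0` (the `F_n` are disjoint), so: no positive `F`
disjoint from `E` has `E ∪ F` good.  (Or use any exhaustion principle.)
Claim: equality.  Otherwise some m0-measurable `B` has `ν (E ∩ B) < ∫_B q`; let `p` be a density of
`B ↦ ν (E ∩ B)` on m0, `p ≤ q` a.e., and for some `δ = 2⁻ⁿ` the m0-measurable set `B0 = {p + δ < q}`
is positive.  `ν (Eᶜ ∩ B0) = ∫_{B0} (1 - p) ≥ δ ν B0 > 0` (as q ≤ 1); take positive `F ⊆ Eᶜ ∩ B0` with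
`ν (F ∩ B) ≤ 2⁻ⁿ ν (Eᶜ ∩ B0 ∩ B) ≤ δ ν (B0 ∩ B)` from M2a; then `E ∪ F` is good: contradiction.
-/
theorem M2 {I : Type} [LinearOrder I] [MeasurableSpace I] {ν : Measure I} (hT : Tot I ν)
    (m0 : MeasurableSpace I) (hc : #{A : Set I // MeasurableSet[m0] A} ≤ 𝔠)
    (q : I → ℝ) (hq : Measurable[m0] q) (h0 : ∀ x, 0 ≤ q x) (h1 : ∀ x, q x ≤ 1) :
    ∃ E : Set I, ∀ B : Set I, MeasurableSet[m0] B → ν.real (E ∩ B) = ∫ x in B, q x ∂ν := by
  rename_i _ m1
  exact @M2_aux I m0 m1 ν (@Tot.prob I _ m1 ν hT) (@Tot.meas I _ m1 ν hT)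
    (fun A _ => @Tot.meas I _ m1 ν hT A) (fun E hE n => @M2a I _ m1 ν hT m0 hc E hE n) q hq h0 h1

end Pool.Agent.RVM
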