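import Pool.Agent.RVM.M3step

set_option autoImplicit false

open MeasureTheory Set Filter Topology Cardinal
open scoped ENNReal

namespace Pool.Agent.RVM

/-
PLAN (M3).  Well-order `J` (`WellOrderingRel`).  Define `e : J → (I → Bool)` by well-founded recursion:
`e j := if h : ∃ e' : I → Bool, ν.map (fun ξ => ((fun i : {i // i < j} => e i ξ), e' ξ))
   = P.map (fun x => ((fun i : {i // i < j} => x i), x j)) then h.choose else fun _ => false`.
Strong induction: for all `j`, (a) `ν.map (fun ξ i : {i // i < j} => e i ξ) = P.map (restriction)` and
(b) the displayed equation holds with `e' = e j`.  (a) follows from (b) for smaller indices: both sides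
are probability measures on a product, so it suffices to compare them on cylinders over finite
`F ⊆ {i < j}`, and if `F ≠ ∅` has the largest element `i0` then (b) for `i0` gives it.  (b) follows from
(a) and M3step (with `card_pi`; `#{i // i < j} ≤ #J < 𝔠`).  The same argument as in (a) gives
`ν.map (fun ξ j => e j ξ) = P`.
-/

/-- finite-dimensional distributions determine the law -/
theorem M3_aux {I : Type} [MeasurableSpace I] (ν : Measure I) (hν : IsProbabilityMeasure ν)
    (hm : ∀ A : Set I, MeasurableSet A) {J : Type} [LinearOrder J] (P : Measure (J → Bool))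
    (hP : IsProbabilityMeasure P) (e : J → I → Bool) {T : Type} (t : T → J)
    (h : ∀ a : T, ν.map (fun ξ => ((fun i : {i // i < t a} => e i.1 ξ), e (t a) ξ)) =
      P.map (fun x => ((fun i : {i // i < t a} => x i.1), x (t a)))) :
    ν.map (fun ξ a => e (t a) ξ) = P.map (fun x a => x (t a)) := by
  classical
  have mI : ∀ {Y : Type} [MeasurableSpace Y] (f : I → Y), Measurable f := fun f s _ => hm _
  have m1 : Measurable (fun ξ (a : T) => e (t a) ξ) := mI _
  have m2 : Measurable (fun (x : J → Bool) (a : T) => x (t a)) :=
    measurable_pi_iff.2 fun a => measurable_pi_apply _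
  have key : ∀ F : Finset T, ν.map (fun ξ (a : F) => e (t a) ξ) =
      P.map (fun (x : J → Bool) (a : F) => x (t a)) := by
    intro F
    have n1 : Measurable (fun ξ (a : F) => e (t a) ξ) := mI _
    have n2 : Measurable (fun (x : J → Bool) (a : F) => x (t a)) :=
      measurable_pi_iff.2 fun a => measurable_pi_apply _
    rcases F.eq_empty_or_nonempty with rfl | hF
    · have : Unique ((∅ : Finset T) → Bool) := Pi.uniqueOfIsEmpty _
      have : IsProbabilityMeasure (ν.map (fun ξ (a : (∅ : Finset T)) => e (t a) ξ)) :=
        Measure.isProbabilityMeasure_map n1.aemeasurable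
      have : IsProbabilityMeasure (P.map (fun (x : J → Bool) (a : (∅ : Finset T)) => x (t a))) :=
        Measure.isProbabilityMeasure_map n2.aemeasurable
      ext s _
      rcases Subsingleton.set_cases (p := fun s => (ν.map (fun ξ (a : (∅ : Finset T)) => e (t a) ξ)) s =
        (P.map (fun (x : J → Bool) (a : (∅ : Finset T)) => x (t a))) s) (by simp) (by simp) s with h
      exact h
    · have hne : (F.image t).Nonempty := hF.image t
      obtain ⟨a0, ha0, hmax⟩ := Finset.exists_max_image F t hF
      let θ : (({i // i < t a0} → Bool) × Bool) → (F → Bool) := fun y a =>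
        if h : t a.1 < t a0 then y.1 ⟨t a.1, h⟩ else y.2
      have hθ : Measurable θ := by
        refine measurable_pi_iff.2 fun a => ?_
        by_cases hlt : t a.1 < t a0
        · have : (fun y : (({i // i < t a0} → Bool) × Bool) => θ y a) =
              fun y => y.1 ⟨t a.1, hlt⟩ := by
            funext y
            simp only [θ, dif_pos hlt]
          rw [this]
          exact (measurable_pi_apply _).comp measurable_fst
        · have : (fun y : (({i // i < t a0} → Bool) × Bool) => θ y a) = fun y => y.2 := by
            funext y
            simp only [θ, dif_neg hlt]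
          rw [this]
          exact measurable_snd
      have e1 : (fun ξ (a : F) => e (t a) ξ) =
          θ ∘ (fun ξ => ((fun i : {i // i < t a0} => e i.1 ξ), e (t a0) ξ)) := by
        funext ξ a
        by_cases hlt : t a.1 < t a0
        · simp only [Function.comp, θ, dif_pos hlt]
        · have : t a.1 = t a0 := le_antisymm (hmax a.1 a.2) (not_lt.1 hlt)
          simp only [Function.comp, θ, dif_neg hlt, this]
      have e2 : (fun (x : J → Bool) (a : F) => x (t a)) =
          θ ∘ (fun x => ((fun i : {i // i < t a0} => x i.1), x (t a0))) := by
        funext x a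
        by_cases hlt : t a.1 < t a0
        · simp only [Function.comp, θ, dif_pos hlt]
        · have : t a.1 = t a0 := le_antisymm (hmax a.1 a.2) (not_lt.1 hlt)
          simp only [Function.comp, θ, dif_neg hlt, this]
      have k1 : Measurable (fun ξ => ((fun i : {i // i < t a0} => e i.1 ξ), e (t a0) ξ)) := mI _
      have k2 : Measurable (fun x : J → Bool => ((fun i : {i // i < t a0} => x i.1), x (t a0))) :=
        (measurable_pi_iff.2 fun a => measurable_pi_apply _).prodMk (measurable_pi_apply _)
      rw [e1, e2, ← Measure.map_map hθ k1, ← Measure.map_map hθ k2, h a0]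
  have p1 : IsProbabilityMeasure (ν.map (fun ξ (a : T) => e (t a) ξ)) :=
    Measure.isProbabilityMeasure_map m1.aemeasurable
  have p2 : IsProbabilityMeasure (P.map (fun (x : J → Bool) (a : T) => x (t a))) :=
    Measure.isProbabilityMeasure_map m2.aemeasurable
  have q : ∀ F : Finset T, IsFiniteMeasure (P.map (fun (x : J → Bool) (a : F) => x (t a))) := by
    intro F
    have : IsProbabilityMeasure (P.map (fun (x : J → Bool) (a : F) => x (t a))) :=
      Measure.isProbabilityMeasure_map (measurable_pi_iff.2 fun a =>
        measurable_pi_apply _).aemeasurable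
    infer_instance
  refine IsProjectiveLimit.unique
    (P := fun F : Finset T => P.map (fun (x : J → Bool) (a : F) => x (t a))) ?_ ?_
  · intro F
    rw [Measure.map_map (Finset.measurable_restrict F) m1]
    exact key F
  · intro F
    rw [Measure.map_map (Finset.measurable_restrict F) m2]
    rfl

theorem M3 {I : Type} [LinearOrder I] [MeasurableSpace I] {ν : Measure I} (hT : Tot I ν)
    (J : Type) (hJ : #J < 𝔠) (P : Measure (J → Bool)) (hP : IsProbabilityMeasure P) :
    ∃ G : I → (J → Bool), ν.map G = P := by
  classical
  obtain ⟨_, hwf⟩ := exists_wellFoundedLT J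
  have := hT.prob
  let F : (j : J) → ((i : J) → i < j → (I → Bool)) → (I → Bool) := fun j ih =>
    if h : ∃ e' : I → Bool, ν.map (fun ξ => ((fun i : {i // i < j} => ih i.1 i.2 ξ), e' ξ)) =
      P.map (fun x => ((fun i : {i // i < j} => x i.1), x j)) then h.choose else fun _ => false
  let e : J → I → Bool := (hwf.wf).fix F
  have he : ∀ j, e j = F j (fun i _ => e i) := fun j => hwf.wf.fix_eq F j
  have hB : ∀ j, ν.map (fun ξ => ((fun i : {i // i < j} => e i.1 ξ), e j ξ)) =
      P.map (fun x => ((fun i : {i // i < j} => x i.1), x j)) := by
    intro j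
    induction j using hwf.wf.induction with
    | _ j ih =>
      have hA := M3_aux ν hT.prob hT.meas P hP e (T := {i // i < j}) (fun i => i.1)
        (fun a => ih a.1 a.2)
      have k2 : Measurable (fun x : J → Bool => ((fun i : {i // i < j} => x i.1), x j)) :=
        (measurable_pi_iff.2 fun a => measurable_pi_apply _).prodMk (measurable_pi_apply _)
      have hex : ∃ e' : I → Bool, ν.map (fun ξ => ((fun i : {i // i < j} => e i.1 ξ), e' ξ)) =
          P.map (fun x => ((fun i : {i // i < j} => x i.1), x j)) := by
        refine M3step hT (card_pi {i // i < j} ((Cardinal.mk_subtype_le _).trans hJ.le))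
          (fun ξ (i : {i // i < j}) => e i.1 ξ) _ (Measure.isProbabilityMeasure_map
            k2.aemeasurable) ?_
        rw [Measure.map_map measurable_fst k2, hA]
        rfl
      rw [he j]
      have : F j (fun i _ => e i) = hex.choose := dif_pos hex
      rw [this]
      exact hex.choose_spec
  refine ⟨fun ξ j => e j ξ, ?_⟩
  have := M3_aux ν hT.prob hT.meas P hP e (T := J) (fun i => i) (fun a => hB a)
  rw [this]
  exact Measure.map_id

end Pool.Agent.RVM
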