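import Pool.Agent.RVM.M2b

set_option autoImplicit false

open MeasureTheory Set Filter Topology Cardinal
open scoped ENNReal

namespace Pool.Agent.RVM

/-
PLAN (M3step).  `P' := Q.map Prod.fst = ν.map G`.  The measure `B ↦ Q (B ×ˢ {true})` on `S` is
`≤ P'`, so it has a density `q1 : S → ℝ`, measurable, `0 ≤ q1 ≤ 1` (truncate `rnDeriv`).  Apply M2 with
`m0 := MeasurableSpace.comap G inferInstance` and `q := q1 ∘ G` (`#` of m0-sets ≤ # of measurable sets
of `S` ≤ 𝔠): get `E` with `ν (E ∩ G⁻¹ B) = ∫_{G⁻¹ B} q1 ∘ G = ∫_B q1 dP' = Q (B ×ˢ {true})`.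
Put `e i := decide (i ∈ E)` (classical).  The two measures agree on the π-system of rectangles
`B ×ˢ {true}`, `B ×ˢ {false}`, `B ×ˢ univ` (use `Measure.prod`-type ext, or that every measurable
`A ⊆ S × Bool` is `(A_t ×ˢ {true}) ∪ (A_f ×ˢ {false})`).
-/
theorem M3step {I : Type} [LinearOrder I] [MeasurableSpace I] {ν : Measure I} (hT : Tot I ν)
    {S : Type} [MeasurableSpace S] (hS : #{A : Set S // MeasurableSet A} ≤ 𝔠)
    (G : I → S) (Q : Measure (S × Bool)) (hQp : IsProbabilityMeasure Q)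
    (hQ : Q.map Prod.fst = ν.map G) :
    ∃ e : I → Bool, ν.map (fun i => (G i, e i)) = Q := by
  classical
  have := hT.prob
  have hG : Measurable G := fun _ _ => hT.meas _
  have hT' : MeasurableSet (Prod.snd ⁻¹' {true} : Set (S × Bool)) :=
    measurable_snd (measurableSet_singleton _)
  -- the marginal and the part over `true`
  set P' : Measure S := Q.map Prod.fst with hP'
  have : IsProbabilityMeasure P' := Measure.isProbabilityMeasure_map measurable_fst.aemeasurable
  set Q1 : Measure S := (Q.restrict (Prod.snd ⁻¹' {true})).map Prod.fst with hQ1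
  have : IsFiniteMeasure Q1 := by rw [hQ1]; infer_instance
  have hle : Q1 ≤ P' := Measure.map_mono Measure.restrict_le_self measurable_fst
  have hac : Q1 ≪ P' := hle.absolutelyContinuous
  have hd1 : Q1.rnDeriv P' ≤ᵐ[P'] 1 := Measure.rnDeriv_le_one_of_le hle
  set q1 : S → ℝ := fun s => min (Q1.rnDeriv P' s).toReal 1 with hq1
  have hq1m : Measurable q1 :=
    (Measure.measurable_rnDeriv _ _).ennreal_toReal.min measurable_const
  have hq10 : ∀ s, 0 ≤ q1 s := fun s => le_min ENNReal.toReal_nonneg zero_le_one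
  have hq11 : ∀ s, q1 s ≤ 1 := fun s => min_le_right _ _
  have hq1e : q1 =ᵐ[P'] fun s => (Q1.rnDeriv P' s).toReal := by
    filter_upwards [hd1] with s hs
    have : (Q1.rnDeriv P' s).toReal ≤ 1 := by
      have := ENNReal.toReal_mono ENNReal.one_ne_top hs
      simpa using this
    exact min_eq_left this
  have hint : ∀ B : Set S, MeasurableSet B → ∫ s in B, q1 s ∂P' = Q1.real B := by
    intro B hB
    rw [← Measure.setIntegral_toReal_rnDeriv hac B]
    exact integral_congr_ae (ae_restrict_of_ae hq1e)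
  -- cardinality of the pulled back σ-algebra
  have hc : #{A : Set I // MeasurableSet[MeasurableSpace.comap G inferInstance] A} ≤ 𝔠 := by
    refine le_trans ?_ hS
    refine mk_le_of_surjective (f := fun B : {A : Set S // MeasurableSet A} =>
      (⟨G ⁻¹' B.1, ⟨B.1, B.2, rfl⟩⟩ :
        {A : Set I // MeasurableSet[MeasurableSpace.comap G inferInstance] A})) ?_
    rintro ⟨A, B, hB, rfl⟩
    exact ⟨⟨B, hB⟩, rfl⟩
  have hqm : Measurable[MeasurableSpace.comap G inferInstance] (q1 ∘ G) :=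
    hq1m.comp (comap_measurable G)
  obtain ⟨E, hE⟩ := M2 hT (MeasurableSpace.comap G inferInstance) hc (q1 ∘ G) hqm
    (fun x => hq10 _) (fun x => hq11 _)
  have hEB : ∀ B : Set S, MeasurableSet B →
      ν (E ∩ G ⁻¹' B) = Q (Prod.fst ⁻¹' B ∩ Prod.snd ⁻¹' {true}) := by
    intro B hB
    have h1 := hE (G ⁻¹' B) ⟨B, hB, rfl⟩
    have h2 : ∫ x in G ⁻¹' B, (q1 ∘ G) x ∂ν = ∫ s in B, q1 s ∂P' := by
      rw [hQ, setIntegral_map hB hq1m.aestronglyMeasurable hG.aemeasurable]
      rfl
    have h3 : Q1 B = Q (Prod.fst ⁻¹' B ∩ Prod.snd ⁻¹' {true}) := by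
      rw [hQ1, Measure.map_apply measurable_fst hB, Measure.restrict_apply (measurable_fst hB)]
    rw [h2, hint B hB, measureReal_def, measureReal_def] at h1
    rw [← h3]
    exact (ENNReal.toReal_eq_toReal_iff' (measure_ne_top _ _) (measure_ne_top _ _)).mp h1
  have hEc : ∀ B : Set S, MeasurableSet B →
      ν (Eᶜ ∩ G ⁻¹' B) = Q (Prod.fst ⁻¹' B ∩ Prod.snd ⁻¹' {false}) := by
    intro B hB
    have h1 : ν (G ⁻¹' B) = Q (Prod.fst ⁻¹' B) := by
      rw [← Measure.map_apply hG hB, ← hQ, Measure.map_apply measurable_fst hB]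
    have h2 : ν (G ⁻¹' B) = ν (E ∩ G ⁻¹' B) + ν (Eᶜ ∩ G ⁻¹' B) := by
      rw [← measure_inter_add_sdiff (G ⁻¹' B) (hT.meas E)]
      congr 2
      · rw [inter_comm]
      · rw [Set.sdiff_eq, inter_comm]
    have h3 : Q (Prod.fst ⁻¹' B) = Q (Prod.fst ⁻¹' B ∩ Prod.snd ⁻¹' {true}) +
        Q (Prod.fst ⁻¹' B ∩ Prod.snd ⁻¹' {false}) := by
      rw [← measure_inter_add_sdiff (Prod.fst ⁻¹' B) hT']
      congr 2
      ext ⟨s, b⟩
      cases b <;> simp
    rw [h1, h3, hEB B hB] at h2
    exact ((ENNReal.add_right_inj (measure_ne_top _ _)).mp h2).symm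
  refine ⟨fun i => decide (i ∈ E), ?_⟩
  have hm : Measurable (fun i => (G i, decide (i ∈ E))) := fun _ _ => hT.meas _
  refine Measure.ext fun A hA => ?_
  rw [Measure.map_apply hm hA]
  have hAt : MeasurableSet {s : S | (s, true) ∈ A} := measurable_prodMk_right hA
  have hAf : MeasurableSet {s : S | (s, false) ∈ A} := measurable_prodMk_right hA
  rw [← measure_inter_add_sdiff ((fun i => (G i, decide (i ∈ E))) ⁻¹' A) (hT.meas E),
    ← measure_inter_add_sdiff A hT']
  congr 1
  · have h1 : (fun i => (G i, decide (i ∈ E))) ⁻¹' A ∩ E = E ∩ G ⁻¹' {s : S | (s, true) ∈ A} := by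
      ext i
      by_cases hi : i ∈ E <;> simp [hi]
    have h2 : A ∩ Prod.snd ⁻¹' {true} =
        Prod.fst ⁻¹' {s : S | (s, true) ∈ A} ∩ Prod.snd ⁻¹' {true} := by
      ext ⟨s, b⟩
      cases b <;> simp
    rw [h1, h2, hEB _ hAt]
  · have h1 : (fun i => (G i, decide (i ∈ E))) ⁻¹' A \ E =
        Eᶜ ∩ G ⁻¹' {s : S | (s, false) ∈ A} := by
      ext i
      by_cases hi : i ∈ E <;> simp [hi]
    have h2 : A \ Prod.snd ⁻¹' {true} =
        Prod.fst ⁻¹' {s : S | (s, false) ∈ A} ∩ Prod.snd ⁻¹' {false} := by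
      ext ⟨s, b⟩
      cases b <;> simp
    rw [h1, h2, hEc _ hAf]

/-- the product σ-algebra on `J → Bool` has at most `𝔠` members if `#J ≤ 𝔠`
(it is generated by the sets `{x | x j = true}`; `MeasurableSpace.cardinal_measurableSet_le_continuum`) -/
theorem card_pi (J : Type) (hJ : #J ≤ 𝔠) : #{A : Set (J → Bool) // MeasurableSet A} ≤ 𝔠 := by
  set s : Set (Set (J → Bool)) := range fun j : J => {x : J → Bool | x j = true} with hs
  have hle : (MeasurableSpace.pi : MeasurableSpace (J → Bool)) ≤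
      MeasurableSpace.generateFrom s := by
    refine iSup_le fun j => ?_
    rw [← measurable_iff_comap_le]
    refine @measurable_to_bool _ (MeasurableSpace.generateFrom s) _ ?_
    exact MeasurableSpace.measurableSet_generateFrom ⟨j, rfl⟩
  have h1 : #s ≤ 𝔠 := le_trans mk_range_le hJ
  refine le_trans ?_ (MeasurableSpace.cardinal_measurableSet_le_continuum h1)
  exact mk_le_of_injective (f := fun A : {A : Set (J → Bool) // MeasurableSet A} =>
    (⟨A.1, hle _ A.2⟩ : {t // MeasurableSet[MeasurableSpace.generateFrom s] t}))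
    (fun A B h => Subtype.ext (congrArg (fun z => z.1) h))

end Pool.Agent.RVM
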