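import Pool.Agent.RVM.Defs

set_option autoImplicit false

open MeasureTheory Set Filter Topology Cardinal
open scoped ENNReal

namespace Pool.Agent.RVM

/-- cylinders of `C → Bool` are clopen -/
theorem isClopen_of_mem_cyl {C : Type} {S : Set (C → Bool)}
    (hS : S ∈ measurableCylinders (fun _ : C => Bool)) : IsClopen S := by
  obtain ⟨I, T, _, rfl⟩ := (mem_measurableCylinders S).1 hS
  have h : IsClopen T := isClopen_discrete T
  exact h.preimage (Finset.continuous_restrict I)

/-
PLAN (M4a).  Let `θ : ℕ → (C → Bool)`, `θ n c = decide (n ∈ s c)`.  The finitely additive function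
`S ↦ m (θ⁻¹ S)` on the clopen algebra of the compact space `C → Bool` (= cylinders) extends to a
measure: e.g. as an `AddContent` on `measurableCylinders (fun _ : C => Bool)` which is σ-subadditive by
compactness (cylinders over finite sets of coordinates are clopen), then `AddContent.measure`.
-/
theorem M4a (m : Set ℕ → ℝ) (hm : FAP m) (C : Type) (s : C → Set ℕ) :
    ∃ P : Measure (C → Bool), IsProbabilityMeasure P ∧
      ∀ F : Finset C, P.real {x | ∀ c ∈ F, x c = true} = m (⋂ c ∈ F, s c) := by
  classical
  let θ : ℕ → (C → Bool) := fun n c => decide (n ∈ s c)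
  have hR : IsSetRing (measurableCylinders (fun _ : C => Bool)) := isSetRing_measurableCylinders
  let K : AddContent ℝ≥0∞ (measurableCylinders (fun _ : C => Bool)) :=
    hR.addContent_of_union (fun S => ENNReal.ofReal (m (θ ⁻¹' S)))
      (by simp [hm.empty])
      (by
        intro S T _ _ hd
        simp only [preimage_union]
        rw [hm.add _ _ (hd.preimage θ), ENNReal.ofReal_add (hm.nonneg _) (hm.nonneg _)])
  have hK : ∀ S, K S = ENNReal.ofReal (m (θ ⁻¹' S)) := fun S => rfl
  have hsub : K.IsSigmaSubadditive := by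
    intro f hf hU
    have hcomp : IsCompact (⋃ i, f i) := (isClopen_of_mem_cyl hU).isClosed.isCompact
    obtain ⟨t, ht⟩ := hcomp.elim_finite_subcover f (fun i => (isClopen_of_mem_cyl (hf i)).isOpen)
      (subset_refl _)
    calc K (⋃ i, f i) ≤ K (⋃ i ∈ t, f i) :=
          addContent_mono hR.isSetSemiring hU (hR.biUnion_mem t (fun i _ => hf i)) ht
      _ ≤ ∑ i ∈ t, K (f i) := addContent_biUnion_le hR (fun i _ => hf i)
      _ ≤ ∑' i, K (f i) := ENNReal.sum_le_tsum t
  have hgen : (MeasurableSpace.pi : MeasurableSpace (C → Bool)) =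
      MeasurableSpace.generateFrom (measurableCylinders (fun _ : C => Bool)) :=
    generateFrom_measurableCylinders.symm
  have hP : ∀ S ∈ measurableCylinders (fun _ : C => Bool),
      K.measure hR.isSetSemiring hgen.le hsub S = ENNReal.ofReal (m (θ ⁻¹' S)) := by
    intro S hS
    rw [← hK]
    exact K.measure_eq hR.isSetSemiring hgen hsub hS
  refine ⟨K.measure hR.isSetSemiring hgen.le hsub, ⟨?_⟩, ?_⟩
  · rw [hP _ (univ_mem_measurableCylinders _), preimage_univ, hm.univ, ENNReal.ofReal_one]
  · intro F
    have hmem : {x : C → Bool | ∀ c ∈ F, x c = true} ∈ measurableCylinders (fun _ : C => Bool) := by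
      rw [mem_measurableCylinders]
      refine ⟨F, {y | ∀ i, y i = true}, Set.Finite.measurableSet (Set.toFinite _), ?_⟩
      ext x
      simp [mem_cylinder, Finset.restrict]
    rw [measureReal_def, hP _ hmem, ENNReal.toReal_ofReal (hm.nonneg _)]
    congr 1
    ext n
    simp [θ]

end Pool.Agent.RVM
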