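import Pool.Agent.RVM.M3
import Pool.Agent.RVM.M4a

set_option autoImplicit false

open MeasureTheory Set Filter Topology Cardinal
open scoped ENNReal

namespace Pool.Agent.RVM

namespace M4aux

theorem FAP.union_le {m : Set ℕ → ℝ} (hm : FAP m) (A B : Set ℕ) : m (A ∪ B) ≤ m A + m B := by
  have h1 := hm.add A (B \ A) disjoint_sdiff_right
  rw [union_sdiff_self] at h1
  have h2 := hm.mono (show B \ A ⊆ B from sdiff_subset)
  linarith

/-- an ultrafilter of positive sets -/
theorem exists_ultra {m : Set ℕ → ℝ} (hm : FAP m) (T : Set (Set ℕ))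
    (hT : ∀ F : Finset (Set ℕ), (∀ c ∈ F, c ∈ T) → 0 < m (⋂ c ∈ F, c)) :
    ∃ U : Ultrafilter ℕ, (∀ A ∈ U, 0 < m A) ∧ ∀ A ∈ T, A ∈ U := by
  classical
  let f : Filter ℕ :=
    { sets := {A | ∃ F : Finset (Set ℕ), (∀ c ∈ F, c ∈ T) ∧ ∃ D : Set ℕ, m Dᶜ = 0 ∧
        (⋂ c ∈ F, c) ∩ D ⊆ A}
      univ_sets := ⟨∅, by simp, univ, by rw [compl_univ]; exact hm.empty, subset_univ _⟩
      sets_of_superset := by
        rintro A B ⟨F, hF, D, hD, hsub⟩ hAB
        exact ⟨F, hF, D, hD, hsub.trans hAB⟩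
      inter_sets := by
        rintro A B ⟨F, hF, D, hD, hsub⟩ ⟨F', hF', D', hD', hsub'⟩
        refine ⟨F ∪ F', ?_, D ∩ D', ?_, ?_⟩
        · intro c hc
          rcases Finset.mem_union.mp hc with h | h
          · exact hF c h
          · exact hF' c h
        · rw [compl_inter]
          have h1 := FAP.union_le hm Dᶜ D'ᶜ
          have h2 := hm.nonneg (Dᶜ ∪ D'ᶜ)
          linarith
        · rintro x ⟨hx, hxD, hxD'⟩
          rw [mem_iInter₂] at hx
          refine ⟨hsub ⟨?_, hxD⟩, hsub' ⟨?_, hxD'⟩⟩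
          · rw [mem_iInter₂]
            exact fun c hc => hx c (Finset.mem_union_left _ hc)
          · rw [mem_iInter₂]
            exact fun c hc => hx c (Finset.mem_union_right _ hc) }
  have hf : ∀ A : Set ℕ, A ∈ f ↔ ∃ F : Finset (Set ℕ), (∀ c ∈ F, c ∈ T) ∧ ∃ D : Set ℕ, m Dᶜ = 0 ∧
        (⋂ c ∈ F, c) ∩ D ⊆ A := fun A => Iff.rfl
  have hne : f.NeBot := by
    refine ⟨fun h => ?_⟩
    have h1 : (∅ : Set ℕ) ∈ f := by rw [h]; exact mem_bot
    rw [hf] at h1
    obtain ⟨F, hF, D, hD, hsub⟩ := h1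
    have h2 : (⋂ c ∈ F, c) ⊆ Dᶜ := by
      intro x hx hxD
      exact hsub ⟨hx, hxD⟩
    have h3 := hm.mono h2
    have h4 := hT F hF
    linarith
  refine ⟨Ultrafilter.of f, ?_, ?_⟩
  · intro A hA
    by_contra hcon
    have h0 : m A = 0 := le_antisymm (not_lt.mp hcon) (hm.nonneg A)
    have h1 : Aᶜ ∈ f := by
      rw [hf]
      exact ⟨∅, by simp, Aᶜ, by rw [compl_compl]; exact h0, inter_subset_right⟩
    have h2 : Aᶜ ∈ (Ultrafilter.of f) := Ultrafilter.of_le f h1
    exact (Ultrafilter.compl_mem_iff_notMem.mp h2) hA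
  · intro A hA
    refine Ultrafilter.of_le f ?_
    rw [hf]
    refine ⟨{A}, by simpa using hA, univ, by rw [compl_univ]; exact hm.empty, ?_⟩
    simp

theorem card_lt (C : Set (Set ℕ)) (hC : #C < 𝔠) : #(ℕ × C) < 𝔠 ∧ #(ℕ × Finset C) < 𝔠 := by
  have h1 : #(Finset C) < 𝔠 := by
    have h2 : #(Finset C) ≤ #(List C) :=
      Cardinal.mk_le_of_injective (f := fun F : Finset C => F.toList) (fun F G h => by
        classical
        have h3 := congrArg List.toFinset h
        simpa using h3)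
    refine lt_of_le_of_lt (h2.trans (Cardinal.mk_list_le_max _)) ?_
    exact max_lt Cardinal.aleph0_lt_continuum hC
  constructor
  · rw [Cardinal.mk_prod, Cardinal.lift_id, Cardinal.lift_id, Cardinal.mk_nat]
    exact Cardinal.mul_lt_of_lt Cardinal.aleph0_lt_continuum.le Cardinal.aleph0_lt_continuum hC
  · rw [Cardinal.mk_prod, Cardinal.lift_id, Cardinal.lift_id, Cardinal.mk_nat]
    exact Cardinal.mul_lt_of_lt Cardinal.aleph0_lt_continuum.le Cardinal.aleph0_lt_continuum h1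

end M4aux

open M4aux

theorem M4 {I : Type} [LinearOrder I] [MeasurableSpace I] {ν : Measure I} (hT : Tot I ν)
    (m : Set ℕ → ℝ) (hm : FAP m) (C : Set (Set ℕ)) (hC : #C < 𝔠) :
    ∃ U : ℕ → Ultrafilter ℕ, (∀ k, ∀ A ∈ U k, 0 < m A) ∧
      ∀ A ∈ C, 0 < m A → ∃ k, A ∈ U k := by
  classical
  obtain ⟨P0, hP0, hP0eq⟩ := M4a m hm C Subtype.val
  have hprob := hT.prob
  let P : Measure (ℕ → (C → Bool)) := Measure.infinitePi (fun _ : ℕ => P0)
  have hP : IsProbabilityMeasure P := by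
    show IsProbabilityMeasure (Measure.infinitePi (fun _ : ℕ => P0))
    infer_instance
  let e : (ℕ → (C → Bool)) → (ℕ × C → Bool) := fun x p => x p.1 p.2
  have he : Measurable e := by
    refine measurable_pi_lambda _ (fun p => ?_)
    exact (measurable_pi_apply p.2).comp (measurable_pi_apply p.1)
  have hP' : IsProbabilityMeasure (P.map e) := Measure.isProbabilityMeasure_map he.aemeasurable
  obtain ⟨G, hG⟩ := M3 hT (ℕ × C) (card_lt C hC).1 (P.map e) hP'
  have hGm : Measurable G := fun s _ => hT.meas _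
  have htrans : ∀ S : Set (ℕ × C → Bool), MeasurableSet S → ν (G ⁻¹' S) = P (e ⁻¹' S) := by
    intro S hS
    rw [← Measure.map_apply hGm hS, hG, Measure.map_apply he hS]
  have hcoord : ∀ p : ℕ × C, ∀ b : Bool, MeasurableSet {y : ℕ × C → Bool | y p = b} := by
    intro p b
    have h : Measurable (fun y : ℕ × C → Bool => y p) := measurable_pi_apply p
    exact h (measurableSet_singleton b)
  have hcoord0 : ∀ c : C, ∀ b : Bool, MeasurableSet {y : C → Bool | y c = b} := by
    intro c b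
    have h : Measurable (fun y : C → Bool => y c) := measurable_pi_apply c
    exact h (measurableSet_singleton b)
  -- (1)
  have h1 : ∀ q : {q : ℕ × Finset C // m (⋂ c ∈ q.2, (c : Set ℕ)) = 0},
      ν (G ⁻¹' {y | ∀ c ∈ q.1.2, y (q.1.1, c) = true}) = 0 := by
    rintro ⟨⟨k, F⟩, hF⟩
    simp only at hF ⊢
    have hmeas : MeasurableSet {y : ℕ × C → Bool | ∀ c ∈ F, y (k, c) = true} := by
      have e1 : {y : ℕ × C → Bool | ∀ c ∈ F, y (k, c) = true} =
          ⋂ c ∈ F, {y : ℕ × C → Bool | y (k, c) = true} := by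
        ext y; simp
      rw [e1]
      exact Finset.measurableSet_biInter _ (fun c _ => hcoord _ _)
    have hmeas0 : MeasurableSet {y : C → Bool | ∀ c ∈ F, y c = true} := by
      have e1 : {y : C → Bool | ∀ c ∈ F, y c = true} =
          ⋂ c ∈ F, {y : C → Bool | y c = true} := by
        ext y; simp
      rw [e1]
      exact Finset.measurableSet_biInter _ (fun c _ => hcoord0 _ _)
    rw [htrans _ hmeas]
    have e2 : e ⁻¹' {y | ∀ c ∈ F, y (k, c) = true} =
        (fun x : ℕ → (C → Bool) => x k) ⁻¹' {y | ∀ c ∈ F, y c = true} := rfl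
    rw [e2]
    have e3 : P ((fun x : ℕ → (C → Bool) => x k) ⁻¹' {y | ∀ c ∈ F, y c = true}) =
        P0 {y | ∀ c ∈ F, y c = true} := by
      rw [← Measure.map_apply (measurable_pi_apply k) hmeas0]
      exact congrArg (fun μ : Measure (C → Bool) => μ {y | ∀ c ∈ F, y c = true})
        (Measure.infinitePi_map_eval (fun _ : ℕ => P0) k)
    rw [e3]
    have e4 := hP0eq F
    rw [hF] at e4
    exact (measureReal_eq_zero_iff).mp e4
  -- (2)
  have h2 : ∀ c : {c : C // 0 < m (c : Set ℕ)},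
      ν (G ⁻¹' {y | ∀ k : ℕ, y (k, c.1) = false}) = 0 := by
    rintro ⟨c, hc⟩
    simp only
    have hmeas : MeasurableSet {y : ℕ × C → Bool | ∀ k : ℕ, y (k, c) = false} := by
      have e1 : {y : ℕ × C → Bool | ∀ k : ℕ, y (k, c) = false} =
          ⋂ k : ℕ, {y : ℕ × C → Bool | y (k, c) = false} := by
        ext y; simp
      rw [e1]
      exact MeasurableSet.iInter (fun k => hcoord _ _)
    rw [htrans _ hmeas]
    have hpt : P0.real {y : C → Bool | y c = true} = m c := by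
      have := hP0eq {c}
      simpa using this
    have hpf : P0.real {y : C → Bool | y c = false} = 1 - m c := by
      have e1 : {y : C → Bool | y c = false} = {y : C → Bool | y c = true}ᶜ := by
        ext y; simp
      rw [e1, probReal_compl_eq_one_sub (hcoord0 c true), hpt]
    have hle1 : m c ≤ 1 := by
      rw [← hm.univ]
      exact hm.mono (subset_univ _)
    have hK : ∀ K : ℕ, P.real (e ⁻¹' {y | ∀ k : ℕ, y (k, c) = false}) ≤ (1 - m c) ^ K := by
      intro K
      have hsub : e ⁻¹' {y | ∀ k : ℕ, y (k, c) = false} ⊆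
          Set.pi (Finset.range K : Set ℕ) (fun _ => {y : C → Bool | y c = false}) := by
        intro x hx k _
        exact hx k
      have e5 : P (Set.pi (Finset.range K : Set ℕ) (fun _ => {y : C → Bool | y c = false})) =
          ∏ _k ∈ Finset.range K, P0 {y : C → Bool | y c = false} :=
        Measure.infinitePi_pi (fun _ : ℕ => P0) (fun _ _ => hcoord0 c false)
      have e6 : P.real (Set.pi (Finset.range K : Set ℕ) (fun _ => {y : C → Bool | y c = false})) =
          (1 - m c) ^ K := by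
        rw [Measure.real, e5, Finset.prod_const, Finset.card_range, ENNReal.toReal_pow]
        rw [← hpf]
        rfl
      rw [← e6]
      exact measureReal_mono hsub
    have hlim : Tendsto (fun K : ℕ => (1 - m c) ^ K) atTop (𝓝 0) :=
      tendsto_pow_atTop_nhds_zero_of_lt_one (by linarith) (by linarith)
    have hz : P.real (e ⁻¹' {y | ∀ k : ℕ, y (k, c) = false}) ≤ 0 :=
      ge_of_tendsto' hlim hK
    exact (measureReal_eq_zero_iff).mp (le_antisymm hz measureReal_nonneg)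
  have hn1 : ν (⋃ q : {q : ℕ × Finset C // m (⋂ c ∈ q.2, (c : Set ℕ)) = 0},
      G ⁻¹' {y | ∀ c ∈ q.1.2, y (q.1.1, c) = true}) = 0 :=
    hT.iUnion_null (lt_of_le_of_lt (Cardinal.mk_subtype_le _) (card_lt C hC).2) _ h1
  have hn2 : ν (⋃ c : {c : C // 0 < m (c : Set ℕ)}, G ⁻¹' {y | ∀ k : ℕ, y (k, c.1) = false}) = 0 :=
    hT.iUnion_null (lt_of_le_of_lt (Cardinal.mk_subtype_le _) hC) _ h2
  have hn := measure_union_null hn1 hn2
  obtain ⟨ξ, hξ⟩ : ∃ ξ : I, ξ ∉ (⋃ q : {q : ℕ × Finset C // m (⋂ c ∈ q.2, (c : Set ℕ)) = 0},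
      G ⁻¹' {y | ∀ c ∈ q.1.2, y (q.1.1, c) = true}) ∪
      (⋃ c : {c : C // 0 < m (c : Set ℕ)}, G ⁻¹' {y | ∀ k : ℕ, y (k, c.1) = false}) := by
    by_contra hcon
    push Not at hcon
    have huniv := eq_univ_of_forall hcon
    rw [huniv, measure_univ] at hn
    exact one_ne_zero hn
  rw [mem_union, not_or, mem_iUnion, mem_iUnion, not_exists, not_exists] at hξ
  obtain ⟨hξ1, hξ2⟩ := hξ
  have hU : ∀ k : ℕ, ∃ U : Ultrafilter ℕ, (∀ A ∈ U, 0 < m A) ∧
      ∀ A ∈ {A : Set ℕ | ∃ h : A ∈ C, G ξ (k, ⟨A, h⟩) = true}, A ∈ U := by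
    intro k
    refine exists_ultra hm _ (fun F hF => ?_)
    by_contra hcon
    have h0 : m (⋂ c ∈ F, c) = 0 := le_antisymm (not_lt.mp hcon) (hm.nonneg _)
    set F' : Finset C := F.subtype (fun c => c ∈ C) with hF'
    have hFC : ∀ c ∈ F, c ∈ C := fun c hc => (hF c hc).1
    have heq : (⋂ c ∈ F', (c : Set ℕ)) = ⋂ c ∈ F, c := by
      ext x
      rw [mem_iInter₂, mem_iInter₂]
      constructor
      · intro h c hc
        exact h ⟨c, hFC c hc⟩ (Finset.mem_subtype.mpr hc)
      · intro h c hc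
        exact h c (Finset.mem_subtype.mp hc)
    refine hξ1 ⟨(k, F'), by rw [← heq] at h0; exact h0⟩ ?_
    intro c hc
    obtain ⟨h, hh⟩ := hF c (Finset.mem_subtype.mp hc)
    exact hh
  choose U hU1 hU2 using hU
  refine ⟨U, hU1, ?_⟩
  intro A hA hAm
  have h3 := hξ2 ⟨⟨A, hA⟩, hAm⟩
  rw [mem_preimage, mem_ofPred_eq] at h3
  push Not at h3
  obtain ⟨k, hk⟩ := h3
  refine ⟨k, hU2 k A ⟨hA, ?_⟩⟩
  simpa using hk

end Pool.Agent.RVM
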