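import Pool.Agent.RVM.NCprep
import Pool.Agent.RVM.Ulim

set_option autoImplicit false

open MeasureTheory Set Filter Topology Cardinal
open scoped ENNReal

namespace Pool.Agent.RVM

/-
PLAN.  `NCprep` with `h n i = φ n (g i)`.  The sets `z_F = {n ∈ z0 | ∀ a ∈ F, d < |…|}` (`F` finite) are
infinite and closed under finite intersections (`z_F ∩ z_G ⊇ z_{F ∪ G}`), so some ultrafilter `U ≤ atTop`
contains all of them.  `χ := ulim U (φ ∘ k)`.  For each `i`: `|χ (g (ρ i)) - H (ρ i)| ≥ d` (limit along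
`U`, `z_{{i}} ∈ U`).  `g ∘ ρ` is bounded, hence Pettis (`hX`): for `A ⊆ I` there is `x_A` with
`φ' x_A = ∫_A φ' (g (ρ i))` for all `φ'`; so `∫_A χ (g (ρ i)) = χ x_A = lim_U φ (k n) x_A
= lim_U ∫_A φ (k n) (g (ρ i)) = ∫_A H (ρ i)`.  Hence `χ (g (ρ i)) = H (ρ i)` a.e.: contradiction
(`ν ≠ 0`).  All functions on `I` are measurable (`hT.meas`), bounded ones integrable.
-/
theorem NC {I : Type} [LinearOrder I] [MeasurableSpace I] {ν : Measure I} (hT : Tot I ν)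
    {X : Type} [NormedAddCommGroup X] [NormedSpace ℝ X]
    (hX : ∀ g : I → X, (∃ M : ℝ, ∀ i, ‖g i‖ ≤ M) → Pettis ν g)
    (g : I → X) (M : ℝ) (hg : ∀ i, ‖g i‖ ≤ M)
    (φ : ℕ → (X →L[ℝ] ℝ)) (C : ℝ) (hφ : ∀ n, ‖φ n‖ ≤ C) (δ : ℝ) (hδ : 0 < δ)
    (hsep : ∀ n m, n ≠ m → δ ≤ ∫ i, (φ n (g i) - φ m (g i)) ^ 2 ∂ν) : False := by
  classical
  haveI := hT.prob
  have hC0 : 0 ≤ C := (norm_nonneg (φ 0)).trans (hφ 0)
  have hbd : ∀ (ψ : X →L[ℝ] ℝ), ‖ψ‖ ≤ C → ∀ i, |ψ (g i)| ≤ C * M := by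
    intro ψ hψ i
    have h1 : ‖ψ (g i)‖ ≤ ‖ψ‖ * ‖g i‖ := ψ.le_opNorm _
    have h2 : ‖ψ‖ * ‖g i‖ ≤ C * M := mul_le_mul hψ (hg i) (norm_nonneg _) hC0
    rw [Real.norm_eq_abs] at h1
    exact h1.trans h2
  obtain ⟨k, H, ρ, d, hk, hd, hH, hw, z0, hz⟩ :=
    NCprep hT (fun n i => φ n (g i)) (C * M) (fun n i => hbd (φ n) (hφ n) i) δ hδ hsep
  -- the ultrafilter
  let z : Finset I → Set ℕ := fun F => {n ∈ z0 | ∀ a ∈ F, d < |φ (k n) (g (ρ a)) - H (ρ a)|}
  have hzinf : ∀ F, (z F).Infinite := hz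
  have hzanti : ∀ F G : Finset I, F ⊆ G → z G ⊆ z F := by
    intro F G hFG n hn
    exact ⟨hn.1, fun a ha => hn.2 a (hFG ha)⟩
  have hne : NeBot (⨅ F : Finset I, (atTop ⊓ 𝓟 (z F) : Filter ℕ)) := by
    refine Filter.iInf_neBot_of_directed ?_ ?_
    · intro F G
      refine ⟨F ∪ G, ?_, ?_⟩
      · exact inf_le_inf_left _ (principal_mono.mpr (hzanti F (F ∪ G) Finset.subset_union_left))
      · exact inf_le_inf_left _ (principal_mono.mpr (hzanti G (F ∪ G) Finset.subset_union_right))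
    · intro F
      have h1 : ∃ᶠ n in atTop, n ∈ z F := Nat.frequently_atTop_iff_infinite.mpr (hzinf F)
      exact Filter.frequently_mem_iff_neBot.mp h1
  let L : Filter ℕ := ⨅ F : Finset I, (atTop ⊓ 𝓟 (z F) : Filter ℕ)
  haveI : NeBot L := hne
  let U : Ultrafilter ℕ := Ultrafilter.of L
  have hUL : (U : Filter ℕ) ≤ L := Ultrafilter.of_le L
  have hUtop : (U : Filter ℕ) ≤ atTop := hUL.trans ((iInf_le _ ∅).trans inf_le_left)
  have hUz : ∀ F, z F ∈ (U : Filter ℕ) := by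
    intro F
    have h1 : (U : Filter ℕ) ≤ 𝓟 (z F) := hUL.trans ((iInf_le _ F).trans inf_le_right)
    exact le_principal_iff.mp h1
  obtain ⟨χ, hχ, hlim⟩ := ulim U (fun n => φ (k n)) C (fun n => hφ (k n))
  -- separation
  have hsepi : ∀ i, d ≤ |χ (g (ρ i)) - H (ρ i)| := by
    intro i
    have h1 : Tendsto (fun n => |φ (k n) (g (ρ i)) - H (ρ i)|) U
        (𝓝 (|χ (g (ρ i)) - H (ρ i)|)) := ((hlim (g (ρ i))).sub_const _).abs
    refine ge_of_tendsto h1 ?_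
    filter_upwards [hUz {i}] with n hn
    exact (hn.2 i (Finset.mem_singleton_self i)).le
  -- integrability
  have hmeas : ∀ f : I → ℝ, Measurable f := fun f s _ => hT.meas _
  have hint : ∀ (f : I → ℝ) (B : ℝ), (∀ i, |f i| ≤ B) → Integrable f ν := by
    intro f B hB
    refine Integrable.of_bound (hmeas f).aestronglyMeasurable B (ae_of_all _ fun i => ?_)
    rw [Real.norm_eq_abs]
    exact hB i
  have hintχ : Integrable (fun i => χ (g (ρ i))) ν :=
    hint _ (C * M) fun i => hbd χ hχ (ρ i)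
  have hintH : Integrable (fun i => H (ρ i)) ν := hint _ (C * M) fun i => hH (ρ i)
  have hintn : ∀ n, Integrable (fun i => φ n (g (ρ i))) ν := fun n =>
    hint _ (C * M) fun i => hbd (φ n) (hφ n) (ρ i)
  have hP := hX (fun i => g (ρ i)) ⟨M, fun i => hg (ρ i)⟩
  have hset : ∀ A : Set I, ∫ i in A, χ (g (ρ i)) ∂ν = ∫ i in A, H (ρ i) ∂ν := by
    intro A
    obtain ⟨x, hx⟩ := hP.2 A (hT.meas A)
    have h1 : Tendsto (fun n => ∫ i in A, φ (k n) (g (ρ i)) ∂ν) U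
        (𝓝 (∫ i in A, χ (g (ρ i)) ∂ν)) := by
      have h2 := hlim x
      rw [hx χ] at h2
      refine h2.congr fun n => ?_
      exact hx (φ (k n))
    have h3 : Tendsto (fun n => ∫ i in A, φ (k n) (g (ρ i)) ∂ν) U
        (𝓝 (∫ i in A, H (ρ i) ∂ν)) := by
      have h4 := (hw A).mono_left hUtop
      have h5 := h4.add_const (∫ i in A, H (ρ i) ∂ν)
      rw [zero_add] at h5
      refine h5.congr fun n => ?_
      have h6 : ∫ i in A, ((fun n i => φ n (g i)) (k n) (ρ i) - H (ρ i)) ∂ν =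
          ∫ i in A, φ (k n) (g (ρ i)) ∂ν - ∫ i in A, H (ρ i) ∂ν :=
        integral_sub (hintn (k n)).integrableOn hintH.integrableOn
      rw [h6]
      ring
    exact tendsto_nhds_unique h1 h3
  have hae : (fun i => χ (g (ρ i))) =ᵐ[ν] fun i => H (ρ i) :=
    Integrable.ae_eq_of_forall_setIntegral_eq _ _ hintχ hintH fun s _ _ => hset s
  have hfalse : ∀ᵐ _i : I ∂ν, False := by
    filter_upwards [hae] with i hi
    have h1 := hsepi i
    rw [hi, sub_self, abs_zero] at h1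
    linarith
  have hne1 : ν ≠ 0 := IsProbabilityMeasure.ne_zero ν
  haveI : NeBot (ae ν) := ae_neBot.mpr hne1
  exact (hfalse.exists).elim fun _ h => h

end Pool.Agent.RVM
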