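import Pool.Agent.RVM.Defs

set_option autoImplicit false

open MeasureTheory Set Filter Topology Cardinal
open scoped ENNReal

namespace Pool.Agent.RVM

theorem NCrec_card_finset (T : Type) (hT : #T < 𝔠) : #(Finset T) < 𝔠 := by
  rcases finite_or_infinite T with h | h
  · exact (Cardinal.lt_aleph0_of_finite (Finset T)).trans Cardinal.aleph0_lt_continuum
  · rw [Cardinal.mk_finset_of_infinite]
    exact hT

theorem NCrec_meas {S : Type} [MeasurableSpace S] (w : ℕ → S → ℝ) (hw : ∀ n, Measurable (w n))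
    (d : ℝ) (z : Set ℕ) : MeasurableSet {y | {n ∈ z | d < |w n y|}.Infinite} := by
  have h : {y | {n ∈ z | d < |w n y|}.Infinite} =
      ⋂ N : ℕ, ⋃ n : ℕ, ⋃ (_ : N ≤ n ∧ n ∈ z), {y | d < |w n y|} := by
    ext y
    simp only [mem_setOf_eq, mem_iInter, mem_iUnion, exists_prop]
    constructor
    · intro hy N
      obtain ⟨n, hn, hN⟩ := hy.exists_gt N
      exact ⟨n, ⟨hN.le, hn.1⟩, hn.2⟩
    · intro hy
      refine Set.infinite_of_forall_exists_gt fun N => ?_
      obtain ⟨n, ⟨hN, hz⟩, hn⟩ := hy (N + 1)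
      exact ⟨n, ⟨hz, hn⟩, by omega⟩
  rw [h]
  refine MeasurableSet.iInter fun N => MeasurableSet.iUnion fun n => MeasurableSet.iUnion fun _ => ?_
  exact measurableSet_lt measurable_const (hw n).abs

/-
PLAN.  Enumerate the measurable `P`-null sets of `S` (`P = ν.map x`) as `N_j`, `j ∈ I`
(surjection from `I`, `#I = 𝔠`).  Define `ρ : I → I` by well-founded recursion (`hT.wf`):
`ρ i := if h : ∃ i', Good i (ρ on Iio i) i' then h.choose else i`, where `Good` says:
`x i' ∉ N_j` for all `j < i`, and for every finite `F ⊆ Iio i`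
`{n ∈ z0 | (∀ a ∈ F, d < |w n (x (ρ a))|) ∧ d < |w n (x i')|}` is infinite.
Strong induction on `i`: `Good i … (ρ i)` holds, and hence `z_F := {n ∈ z0 | ∀ a ∈ F, d < |w n (x (ρ a))|}`
is infinite for all finite `F ⊆ Iic i`.  Existence of `i'`: for finite `F ⊆ Iio i`, `z_F` is infinite by
induction, so `ν {i' | x i' ∈ E z0 \ E z_F} = 0`; fewer than 𝔠 such `F` (`#(Iio i) < 𝔠`, finite subsets)
and fewer than 𝔠 null sets `x⁻¹ N_j`, `j < i`; their union is null (`Tot.iUnion_null`) while
`ν (x⁻¹ (E z0)) > 0`.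
Absolute continuity: a measurable `P`-null set is some `N_j`, and `{i | x (ρ i) ∈ N_j} ⊆ Iic j` is null.
-/
theorem NCrec {I : Type} [LinearOrder I] [MeasurableSpace I] {ν : Measure I} (hT : Tot I ν)
    {S : Type} [MeasurableSpace S] (hS : #{A : Set S // MeasurableSet A} ≤ 𝔠)
    (x : I → S) (w : ℕ → S → ℝ) (hw : ∀ n, Measurable (w n)) (d : ℝ) (z0 : Set ℕ)
    (hz : z0.Infinite) (hpos : 0 < (ν.map x) {y | {n ∈ z0 | d < |w n y|}.Infinite})
    (hst : ∀ z : Set ℕ, z ⊆ z0 → z.Infinite → (ν.map x)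
      ({y | {n ∈ z0 | d < |w n y|}.Infinite} \ {y | {n ∈ z | d < |w n y|}.Infinite}) = 0) :
    ∃ ρ : I → I, (ν.map (x ∘ ρ)).AbsolutelyContinuous (ν.map x) ∧
      ∀ F : Finset I, {n ∈ z0 | ∀ a ∈ F, d < |w n (x (ρ a))|}.Infinite := by
  classical
  have mI : ∀ {Y : Type} [MeasurableSpace Y] (f : I → Y), Measurable f := fun f s _ => hT.meas _
  -- enumeration of null sets
  let NN : Type := {A : Set S // MeasurableSet A ∧ (ν.map x) A = 0}
  have hNc : #NN ≤ #I := by
    rw [hT.card]
    refine le_trans ?_ hS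
    exact Cardinal.mk_le_of_injective
      (f := fun A : NN => (⟨A.1, A.2.1⟩ : {A : Set S // MeasurableSet A}))
      (fun A B h => Subtype.ext (congrArg (fun C : {A : Set S // MeasurableSet A} => C.1) h))
  haveI : Nonempty NN := ⟨⟨∅, MeasurableSet.empty, measure_empty⟩⟩
  obtain ⟨emb⟩ := Cardinal.le_def _ _ |>.1 hNc
  let Nf : I → NN := Function.invFun emb
  have hNf : Function.Surjective Nf := Function.invFun_surjective emb.injective
  let Good : I → (I → I) → I → Prop := fun i r i' =>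
    (∀ j, j < i → x i' ∉ (Nf j).1) ∧ ∀ F : Finset I, (∀ a ∈ F, a < i) →
      {n ∈ z0 | (∀ a ∈ F, d < |w n (x (r a))|) ∧ d < |w n (x i')|}.Infinite
  have hcongr : ∀ i r r' i', (∀ a, a < i → r a = r' a) → Good i r i' → Good i r' i' := by
    intro i r r' i' h hG
    refine ⟨hG.1, fun F hF => ?_⟩
    have := hG.2 F hF
    convert this using 2
    ext n
    refine and_congr_right fun _ => and_congr_left fun _ => forall₂_congr fun a ha => ?_
    rw [h a (hF a ha)]
  let FF : (i : I) → ((a : I) → a < i → I) → I := fun i ih =>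
    if h : ∃ i', Good i (fun a => if h : a < i then ih a h else i) i' then h.choose else i
  let ρ : I → I := hT.wf.fix FF
  have hρ : ∀ i, ρ i = FF i (fun a _ => ρ a) := fun i => hT.wf.fix_eq FF i
  -- consequence of goodness below
  have hinf : ∀ F : Finset I, (∀ a ∈ F, Good a ρ (ρ a)) →
      {n ∈ z0 | ∀ a ∈ F, d < |w n (x (ρ a))|}.Infinite := by
    intro F hF
    rcases F.eq_empty_or_nonempty with rfl | hne
    · simpa using hz
    · have h1 := (hF _ (F.max'_mem hne)).2 (F.erase (F.max' hne)) (fun a ha =>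
        lt_of_le_of_ne (F.le_max' a (Finset.mem_of_mem_erase ha)) (Finset.ne_of_mem_erase ha))
      refine h1.mono ?_
      rintro n ⟨hn, hn1, hn2⟩
      refine ⟨hn, fun a ha => ?_⟩
      by_cases ham : a = F.max' hne
      · rw [ham]; exact hn2
      · exact hn1 a (Finset.mem_erase.2 ⟨ham, ha⟩)
  have hgood : ∀ i, Good i ρ (ρ i) := by
    intro i
    induction i using hT.wf.induction with
    | _ i ih =>
      have hex : ∃ i', Good i ρ i' := by
        have hIio : #(Iio i) < 𝔠 := (Cardinal.mk_le_mk_of_subset Iio_subset_Iic_self).trans_lt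
          (hT.seg i)
        have b1 : ν (⋃ j : Iio i, x ⁻¹' (Nf j).1) = 0 := by
          refine hT.iUnion_null hIio _ fun j => ?_
          rw [← Measure.map_apply (mI x) (Nf j).2.1]
          exact (Nf j).2.2
        have b2 : ν (⋃ F : Finset (Iio i), x ⁻¹' ({y | {n ∈ z0 | d < |w n y|}.Infinite} \
            {y | {n ∈ {n ∈ z0 | ∀ a ∈ F.map (Function.Embedding.subtype _),
              d < |w n (x (ρ a))|} | d < |w n y|}.Infinite})) = 0 := by
          refine hT.iUnion_null (NCrec_card_finset _ hIio) _ fun F => ?_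
          refine Measure.preimage_null_of_map_null (mI x).aemeasurable (hst _ (fun n hn => hn.1) ?_)
          refine hinf _ fun a ha => ?_
          obtain ⟨b, _, rfl⟩ := Finset.mem_map.1 ha
          exact ih _ b.2
        have b3 : ν (x ⁻¹' {y | {n ∈ z0 | d < |w n y|}.Infinite}) ≠ 0 := by
          rw [← Measure.map_apply (mI x) (NCrec_meas w hw d z0)]
          exact hpos.ne'
        by_contra hcon
        apply b3
        refine measure_mono_null ?_ (measure_union_null b1 b2)
        intro i' hi'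
        by_contra hnot
        rw [mem_union, not_or] at hnot
        apply hcon
        refine ⟨i', fun j hj hxj => hnot.1 (mem_iUnion.2 ⟨⟨j, hj⟩, hxj⟩), fun F hF => ?_⟩
        have h2 : i' ∉ x ⁻¹' ({y | {n ∈ z0 | d < |w n y|}.Infinite} \
            {y | {n ∈ {n ∈ z0 | ∀ a ∈ (F.subtype (· ∈ Iio i)).map (Function.Embedding.subtype _),
              d < |w n (x (ρ a))|} | d < |w n y|}.Infinite}) := fun h =>
          hnot.2 (mem_iUnion.2 ⟨F.subtype (· ∈ Iio i), h⟩)
        have h3 : {n ∈ {n ∈ z0 | ∀ a ∈ (F.subtype (· ∈ Iio i)).map (Function.Embedding.subtype _),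
              d < |w n (x (ρ a))|} | d < |w n (x i')|}.Infinite := by
          by_contra h4
          exact h2 ⟨hi', h4⟩
        refine h3.mono ?_
        rintro n ⟨⟨hn1, hn2⟩, hn3⟩
        refine ⟨hn1, fun a ha => hn2 a ?_, hn3⟩
        rw [Finset.mem_map]
        exact ⟨⟨a, hF a ha⟩, Finset.mem_subtype.2 ha, rfl⟩
      have hex' : ∃ i', Good i (fun a => if h : a < i then ρ a else i) i' := by
        obtain ⟨i', hi'⟩ := hex
        exact ⟨i', hcongr i _ _ i' (fun a ha => by simp [ha]) hi'⟩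
      rw [hρ i]
      have : FF i (fun a _ => ρ a) = hex'.choose := dif_pos hex'
      rw [this]
      exact hcongr i _ _ _ (fun a ha => by simp [ha]) hex'.choose_spec
  refine ⟨ρ, ?_, fun F => hinf F fun a _ => hgood a⟩
  refine Measure.AbsolutelyContinuous.mk fun A hA hA0 => ?_
  obtain ⟨j, hj⟩ := hNf ⟨A, hA, hA0⟩
  rw [Measure.map_apply (mI _) hA]
  refine measure_mono_null ?_ (hT.Iic_null j)
  intro i hi
  rw [mem_Iic]
  by_contra hlt
  rw [not_le] at hlt
  have h1 := (hgood i).1 j hlt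
  rw [hj] at h1
  exact h1 hi

end Pool.Agent.RVM
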