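import Pool.Agent.RVM.Defs

set_option autoImplicit false

open MeasureTheory Set Filter Topology Cardinal
open scoped ENNReal

namespace Pool.Agent.RVM

/-- the limsup of the sets `A n`, `n ∈ z` -/
def stabE {S : Type} (A : ℕ → Set S) (z : Set ℕ) : Set S := {x | {n ∈ z | x ∈ A n}.Infinite}

theorem stabE_mono {S : Type} (A : ℕ → Set S) {z z' : Set ℕ} (h : z ⊆ z') :
    stabE A z ⊆ stabE A z' := by
  intro x hx
  exact Set.Infinite.mono (fun n hn => ⟨h hn.1, hn.2⟩) hx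

theorem stabE_inter {S : Type} (A : ℕ → Set S) {z y : Set ℕ} (h : (z \ y).Finite) :
    stabE A z = stabE A (z ∩ y) := by
  apply Set.Subset.antisymm
  · intro x hx
    have h1 : {n ∈ z | x ∈ A n} ⊆ {n ∈ z ∩ y | x ∈ A n} ∪ (z \ y) := by
      intro n hn
      by_cases hy : n ∈ y
      · exact Or.inl ⟨⟨hn.1, hy⟩, hn.2⟩
      · exact Or.inr ⟨hn.1, hy⟩
    intro hfin
    exact hx (Set.Finite.subset (hfin.union h) h1)
  · exact stabE_mono A Set.inter_subset_left

theorem stabE_eq {S : Type} (A : ℕ → Set S) (z : Set ℕ) :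
    stabE A z = ⋂ k : ℕ, ⋃ n : {n : ℕ // n ∈ z ∧ k ≤ n}, A n.1 := by
  ext x
  simp only [stabE, mem_ofPred_eq, mem_iInter, mem_iUnion, Subtype.exists]
  constructor
  · intro hx k
    obtain ⟨n, hn, hkn⟩ := hx.exists_gt k
    exact ⟨n, ⟨hn.1, hkn.le⟩, hn.2⟩
  · intro hx
    apply Set.infinite_of_forall_exists_gt
    intro k
    obtain ⟨n, ⟨hnz, hkn⟩, hxn⟩ := hx (k + 1)
    exact ⟨n, ⟨hnz, hxn⟩, by omega⟩

theorem stabE_meas {S : Type} [MeasurableSpace S] (A : ℕ → Set S)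
    (hA : ∀ n, MeasurableSet (A n)) (z : Set ℕ) : MeasurableSet (stabE A z) := by
  rw [stabE_eq]
  exact MeasurableSet.iInter fun k => MeasurableSet.iUnion fun n => hA n.1

theorem stabE_ge {S : Type} [MeasurableSpace S] (P : Measure S) [IsProbabilityMeasure P]
    (A : ℕ → Set S) (hA : ∀ n, MeasurableSet (A n)) (p : ℝ≥0∞) (hp : ∀ n, p ≤ P (A n))
    (z : Set ℕ) (hz : z.Infinite) : p ≤ P (stabE A z) := by
  rw [stabE_eq]
  have hanti : Antitone (fun k : ℕ => ⋃ n : {n : ℕ // n ∈ z ∧ k ≤ n}, A n.1) := by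
    intro k l hkl x hx
    simp only [mem_iUnion, Subtype.exists] at hx ⊢
    obtain ⟨n, ⟨hnz, hn⟩, hxn⟩ := hx
    exact ⟨n, ⟨hnz, hkl.trans hn⟩, hxn⟩
  have ht := tendsto_measure_iInter_atTop (μ := P)
    (s := fun k : ℕ => ⋃ n : {n : ℕ // n ∈ z ∧ k ≤ n}, A n.1)
    (fun k => (MeasurableSet.iUnion
      fun n : {n : ℕ // n ∈ z ∧ k ≤ n} => hA n.1).nullMeasurableSet) hanti
    ⟨0, measure_ne_top _ _⟩
  refine ge_of_tendsto ht (Filter.Eventually.of_forall fun k => ?_)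
  obtain ⟨n, hn, hkn⟩ := hz.exists_gt k
  refine (hp n).trans (measure_mono ?_)
  intro x hx
  simp only [mem_iUnion, Subtype.exists]
  exact ⟨n, ⟨hn, hkn.le⟩, hx⟩

theorem stab_step (f : Set ℕ → ℝ≥0∞) (hf : ∀ z, f z ≤ 1) (z : Set ℕ) (hz : z.Infinite)
    (ε : ℝ≥0∞) (hε : 0 < ε) :
    ∃ z' : Set ℕ, z' ⊆ z ∧ z'.Infinite ∧
      ∀ y : Set ℕ, y ⊆ z → y.Infinite → f z' ≤ f y + ε := by
  set s : ℝ≥0∞ := ⨅ y : {y : Set ℕ // y ⊆ z ∧ y.Infinite}, f y.1 with hs
  have hs1 : s ≤ 1 := (iInf_le _ ⟨z, Set.Subset.refl z, hz⟩).trans (hf z)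
  have hlt : s < s + ε := ENNReal.lt_add_right (ne_top_of_le_ne_top ENNReal.one_ne_top hs1) hε.ne'
  obtain ⟨y, hy⟩ := iInf_lt_iff.1 hlt
  refine ⟨y.1, y.2.1, y.2.2, fun y' hy' hinf => hy.le.trans ?_⟩
  gcongr
  exact iInf_le (fun y : {y : Set ℕ // y ⊆ z ∧ y.Infinite} => f y.1) ⟨y', hy', hinf⟩

theorem stab_sets {S : Type} [MeasurableSpace S] (P : Measure S) [IsProbabilityMeasure P]
    (A : ℕ → Set S) (hA : ∀ n, MeasurableSet (A n)) (p : ℝ≥0∞) (hp0 : 0 < p)
    (hp : ∀ n, p ≤ P (A n)) :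
    ∃ z0 : Set ℕ, z0.Infinite ∧ 0 < P (stabE A z0) ∧
      ∀ z : Set ℕ, z ⊆ z0 → z.Infinite → P (stabE A z0 \ stabE A z) = 0 := by
  classical
  set f : Set ℕ → ℝ≥0∞ := fun z => P (stabE A z) with hf
  have hf1 : ∀ z, f z ≤ 1 := fun z => prob_le_one
  have hstep : ∀ (z : {z : Set ℕ // z.Infinite}) (j : ℕ), ∃ z' : {z : Set ℕ // z.Infinite},
      z'.1 ⊆ z.1 ∧ ∀ y : Set ℕ, y ⊆ z.1 → y.Infinite → f z'.1 ≤ f y + ((j : ℝ≥0∞) + 1)⁻¹ := by
    intro z j
    obtain ⟨z', h1, h2, h3⟩ := stab_step f hf1 z.1 z.2 (((j : ℝ≥0∞) + 1)⁻¹)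
      (ENNReal.inv_pos.2 (by finiteness))
    exact ⟨⟨z', h2⟩, h1, h3⟩
  choose g hg1 hg2 using hstep
  let Z : ℕ → {z : Set ℕ // z.Infinite} := fun j =>
    Nat.rec (motive := fun _ => {z : Set ℕ // z.Infinite}) ⟨Set.univ, Set.infinite_univ⟩
      (fun j z => g z j) j
  have hZs : ∀ j, Z (j + 1) = g (Z j) j := fun j => rfl
  have hZanti : Antitone (fun j => (Z j).1) := by
    apply antitone_nat_of_succ_le
    intro j
    rw [hZs]
    exact hg1 (Z j) j
  obtain ⟨φ, hφ, hφZ⟩ := Filter.extraction_forall_of_frequently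
    (P := fun j k => k ∈ (Z j).1) (fun j => Nat.frequently_atTop_iff_infinite.2 (Z j).2)
  have hz0inf : (Set.range φ).Infinite := Set.infinite_range_of_injective hφ.injective
  have hfin : ∀ j, (Set.range φ \ (Z j).1).Finite := by
    intro j
    apply Set.Finite.subset ((Set.finite_Iio j).image φ)
    rintro _ ⟨⟨i, rfl⟩, hi⟩
    refine ⟨i, ?_, rfl⟩
    by_contra hij
    exact hi (hZanti (not_lt.1 hij) (hφZ i))
  refine ⟨Set.range φ, hz0inf, lt_of_lt_of_le hp0 (stabE_ge P A hA p hp _ hz0inf), ?_⟩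
  intro z hz hzinf
  have hsub : stabE A z ⊆ stabE A (Set.range φ) := stabE_mono A hz
  have hle : P (stabE A (Set.range φ)) ≤ P (stabE A z) := by
    have key : ∀ j : ℕ, f (Set.range φ) ≤ f z + ((j : ℝ≥0∞) + 1)⁻¹ := by
      intro j
      have hfin' : (z \ (Z j).1).Finite :=
        (hfin j).subset (Set.sdiff_subset_sdiff_left hz)
      have hinf' : (z ∩ (Z j).1).Infinite := by
        intro hcon
        apply hzinf
        have : z = (z ∩ (Z j).1) ∪ (z \ (Z j).1) := (Set.inter_union_sdiff z _).symm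
        rw [this]
        exact hcon.union hfin'
      calc f (Set.range φ) = f (Set.range φ ∩ (Z (j + 1)).1) := by
            simp only [hf]
            rw [stabE_inter A (hfin (j + 1))]
        _ ≤ f (Z (j + 1)).1 := measure_mono (stabE_mono A Set.inter_subset_right)
        _ ≤ f (z ∩ (Z j).1) + ((j : ℝ≥0∞) + 1)⁻¹ := by
            rw [hZs]
            exact hg2 (Z j) j _ Set.inter_subset_right hinf'
        _ = f z + ((j : ℝ≥0∞) + 1)⁻¹ := by
            simp only [hf]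
            rw [← stabE_inter A hfin']
    have ht : Tendsto (fun j : ℕ => f z + ((j : ℝ≥0∞) + 1)⁻¹) atTop (𝓝 (f z + 0)) := by
      apply Tendsto.add tendsto_const_nhds
      have h1 := (tendsto_add_atTop_iff_nat 1).2 ENNReal.tendsto_inv_nat_nhds_zero
      refine h1.congr fun j => ?_
      push_cast
      rfl
    rw [add_zero] at ht
    exact ge_of_tendsto ht (Filter.Eventually.of_forall key)
  rw [measure_sdiff hsub (stabE_meas A hA z).nullMeasurableSet (measure_ne_top _ _)]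
  exact tsub_eq_zero_of_le hle

/-
PLAN.  `E z := {ω | {n ∈ z | d < |w n ω|}.Infinite}`, measurable, `d² = δ/2`;
`∫ w_n² ≥ δ` and `|w_n| ≤ K` give `P {d < |w_n|} ≥ p0 := δ / (2 K²) > 0`, hence `P (E z) ≥ p0` for every
infinite `z` (reverse Fatou).  Let `s z := inf {P (E z') : z' ⊆ z infinite}`.  Choose infinite
`z_1 ⊇ z_2 ⊇ …` with `P (E z_{j+1}) ≤ s z_j + 2⁻ʲ` and let `z0` be an infinite set with
`z0 \ z_j` finite for all `j`.  `E` depends on `z` only up to finite sets.  For infinite `z ⊆ z0`: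
`P (E z0) ≤ P (E z_{j+1}) ≤ s z_j + 2⁻ʲ ≤ P (E (z ∩ z_j)) + 2⁻ʲ = P (E z) + 2⁻ʲ` and `E z ⊆ E z0`.
-/
theorem stab {S : Type} [MeasurableSpace S] (P : Measure S) (hP : IsProbabilityMeasure P)
    (w : ℕ → S → ℝ) (hw : ∀ n, Measurable (w n)) (K : ℝ) (hK : ∀ n x, |w n x| ≤ K)
    (δ : ℝ) (hδ : 0 < δ) (h : ∀ n, δ ≤ ∫ x, (w n x) ^ 2 ∂P) :
    ∃ d : ℝ, 0 < d ∧ ∃ z0 : Set ℕ, z0.Infinite ∧ 0 < P {x | {n ∈ z0 | d < |w n x|}.Infinite} ∧
      ∀ z : Set ℕ, z ⊆ z0 → z.Infinite →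
        P ({x | {n ∈ z0 | d < |w n x|}.Infinite} \ {x | {n ∈ z | d < |w n x|}.Infinite}) = 0 := by
  set d : ℝ := Real.sqrt (δ / 2) with hd
  have hd0 : 0 < d := Real.sqrt_pos.2 (by linarith)
  have hd2 : d ^ 2 = δ / 2 := Real.sq_sqrt (by linarith)
  set A : ℕ → Set S := fun n => {x | d < |w n x|} with hAdef
  have hA : ∀ n, MeasurableSet (A n) := fun n => measurableSet_lt measurable_const (hw n).abs
  have hbound : ∀ n, δ / 2 ≤ K ^ 2 * P.real (A n) := by
    intro n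
    have h1 : ∫ x, (w n x) ^ 2 ∂P ≤ ∫ x, (d ^ 2 + (A n).indicator (fun _ => K ^ 2) x) ∂P := by
      apply integral_mono_of_nonneg
      · exact Filter.Eventually.of_forall fun x => sq_nonneg _
      · exact (integrable_const _).add ((integrable_const _).indicator (hA n))
      · refine Filter.Eventually.of_forall fun x => ?_
        by_cases hx : x ∈ A n
        · simp only [Set.indicator_of_mem hx]
          have h2 : (w n x) ^ 2 ≤ K ^ 2 := sq_le_sq' (by linarith [neg_abs_le (w n x), hK n x])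
            ((le_abs_self _).trans (hK n x))
          linarith [sq_nonneg d]
        · simp only [Set.indicator_of_notMem hx, add_zero]
          have h3 : |w n x| ≤ d := not_lt.1 hx
          exact sq_le_sq' (by linarith [neg_abs_le (w n x)]) ((le_abs_self _).trans h3)
    have h2 : ∫ x, (d ^ 2 + (A n).indicator (fun _ => K ^ 2) x) ∂P
        = d ^ 2 + K ^ 2 * P.real (A n) := by
      rw [integral_add (integrable_const _) ((integrable_const _).indicator (hA n)),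
        integral_indicator_const _ (hA n)]
      simp [mul_comm]
    have h3 := h n
    rw [h2, hd2] at h1
    linarith
  have hK2 : 0 < K ^ 2 := by
    by_contra hcon
    have h0 : K ^ 2 = 0 := le_antisymm (not_lt.1 hcon) (sq_nonneg _)
    have := hbound 0
    rw [h0, zero_mul] at this
    linarith
  have hp : ∀ n, ENNReal.ofReal (δ / 2 / K ^ 2) ≤ P (A n) := by
    intro n
    rw [← ofReal_measureReal (μ := P) (s := A n)]
    apply ENNReal.ofReal_le_ofReal
    rw [div_le_iff₀ hK2, mul_comm]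
    exact hbound n
  obtain ⟨z0, h1, h2, h3⟩ := stab_sets P A hA (ENNReal.ofReal (δ / 2 / K ^ 2))
    (ENNReal.ofReal_pos.2 (by positivity)) hp
  exact ⟨d, hd0, z0, h1, h2, h3⟩

end Pool.Agent.RVM
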