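import Pool.Agent.RVM.WeakSeq
import Pool.Agent.RVM.Stab
import Pool.Agent.RVM.NCrec

set_option autoImplicit false

open MeasureTheory Set Filter Topology Cardinal
open scoped ENNReal

namespace Pool.Agent.RVM

theorem measCardSeq : #{A : Set (ℕ → ℝ) // MeasurableSet A} ≤ 𝔠 := by
  obtain ⟨b, hb, hb'⟩ := (inferInstance : MeasurableSpace.CountablyGenerated (ℕ → ℝ)).isCountablyGenerated
  have h := @MeasurableSpace.cardinal_measurableSet_le_continuum (ℕ → ℝ) b
    (le_trans (Cardinal.mk_le_aleph0_iff.mpr hb.to_subtype) Cardinal.aleph0_le_continuum)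
  rw [← hb'] at h
  exact h

/-- clamping to the interval `[-K, K]` -/
noncomputable def clampK (K y : ℝ) : ℝ := max (-K) (min K y)

theorem clampK_abs {K : ℝ} (hK : 0 ≤ K) (y : ℝ) : |clampK K y| ≤ K := by
  rw [abs_le]
  exact ⟨le_max_left _ _, max_le (by linarith) (min_le_left _ _)⟩

theorem clampK_eq {K y : ℝ} (h : |y| ≤ K) : clampK K y = y := by
  rw [abs_le] at h
  rw [clampK, min_eq_right h.2, max_eq_right h.1]

theorem clampK_meas (K : ℝ) : Measurable (clampK K) :=
  measurable_const.max (measurable_const.min measurable_id)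

theorem intBdd {S : Type} [MeasurableSpace S] {P : Measure S} [IsFiniteMeasure P]
    {f : S → ℝ} (hf : Measurable f) (C : ℝ) (hC : ∀ x, |f x| ≤ C) : Integrable f P :=
  Integrable.of_bound hf.aestronglyMeasurable C (Eventually.of_forall fun x => by
    rw [Real.norm_eq_abs]; exact hC x)

theorem eventually_big {S : Type} [MeasurableSpace S] {P : Measure S} [IsFiniteMeasure P]
    (v : ℕ → S → ℝ) (g : S → ℝ) (K : ℝ) (hv : ∀ n, Measurable (v n)) (hg : Measurable g)
    (hvK : ∀ n x, |v n x| ≤ K) (hgK : ∀ x, |g x| ≤ K)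
    (hweak : ∀ ψ : S → ℝ, Integrable ψ P →
        Tendsto (fun n => ∫ ω, v n ω * ψ ω ∂P) atTop (𝓝 (∫ ω, g ω * ψ ω ∂P)))
    (δ : ℝ) (hδ : 0 < δ) (hsep : ∀ n m, n ≠ m → δ ≤ ∫ x, (v n x - v m x) ^ 2 ∂P) :
    ∃ N, ∀ n, N ≤ n → δ / 4 ≤ ∫ x, (v n x - g x) ^ 2 ∂P := by
  by_contra hcon
  push Not at hcon
  obtain ⟨n, -, hn⟩ := hcon 0
  have hwm : ∀ n, Measurable (fun x => v n x - g x) := fun n => (hv n).sub hg
  have hwK : ∀ n x, |v n x - g x| ≤ 2 * K := fun n x => by
    have h1 := abs_sub (v n x) (g x)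
    have h2 := hvK n x
    have h3 := hgK x
    linarith
  have hint : ∀ n, Integrable (fun x => v n x - g x) P := fun n => intBdd (hwm n) _ (hwK n)
  have hint2 : ∀ n m, Integrable (fun x => (v n x - g x) * (v m x - g x)) P := fun n m => by
    refine intBdd ((hwm n).mul (hwm m)) (2 * K * (2 * K)) fun x => ?_
    rw [abs_mul]
    exact mul_le_mul (hwK n x) (hwK m x) (abs_nonneg _) (le_trans (abs_nonneg _) (hwK n x))
  have ht := hweak (fun x => v n x - g x) (hint n)
  have hv2 : ∀ m, Integrable (fun x => v m x * (v n x - g x)) P := fun m => by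
    refine intBdd ((hv m).mul (hwm n)) (K * (2 * K)) fun x => ?_
    rw [abs_mul]
    exact mul_le_mul (hvK m x) (hwK n x) (abs_nonneg _) (le_trans (abs_nonneg _) (hvK m x))
  have hg2 : Integrable (fun x => g x * (v n x - g x)) P := by
    refine intBdd (hg.mul (hwm n)) (K * (2 * K)) fun x => ?_
    rw [abs_mul]
    exact mul_le_mul (hgK x) (hwK n x) (abs_nonneg _) (le_trans (abs_nonneg _) (hgK x))
  have ht0 : Tendsto (fun m => ∫ x, (v m x - g x) * (v n x - g x) ∂P) atTop (𝓝 0) := by
    have h1 : (fun m => ∫ x, (v m x - g x) * (v n x - g x) ∂P) =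
        fun m => (∫ x, v m x * (v n x - g x) ∂P) - ∫ x, g x * (v n x - g x) ∂P := by
      funext m
      rw [← integral_sub (hv2 m) hg2]
      refine integral_congr_ae (Eventually.of_forall fun x => ?_)
      simp only
      ring
    rw [h1]
    have h2 := ht.sub_const (∫ x, g x * (v n x - g x) ∂P)
    rwa [sub_self] at h2
  have hev : ∀ᶠ m in atTop, |∫ x, (v m x - g x) * (v n x - g x) ∂P| < δ / 8 := by
    have := (Metric.tendsto_nhds.mp ht0) (δ / 8) (by linarith)
    filter_upwards [this] with m hm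
    rwa [Real.dist_eq, sub_zero] at hm
  obtain ⟨M, hM⟩ := eventually_atTop.mp hev
  obtain ⟨m, hm, hm'⟩ := hcon (max M (n + 1))
  have hmn : n ≠ m := by
    have := le_trans (le_max_right _ _) hm
    omega
  have h1 := hsep n m hmn
  have h2 := hM m (le_trans (le_max_left _ _) hm)
  have h3 : ∫ x, (v n x - v m x) ^ 2 ∂P = (∫ x, (v n x - g x) ^ 2 ∂P) + (∫ x, (v m x - g x) ^ 2 ∂P)
      - 2 * ∫ x, (v m x - g x) * (v n x - g x) ∂P := by
    have e1 : Integrable (fun x => (v n x - g x) ^ 2) P := by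
      simpa only [sq] using hint2 n n
    have e2 : Integrable (fun x => (v m x - g x) ^ 2) P := by
      simpa only [sq] using hint2 m m
    have e3 := hint2 m n
    have e4 : Integrable (fun x => (v n x - g x) ^ 2 + (v m x - g x) ^ 2) P := e1.add e2
    rw [← integral_const_mul, ← integral_add e1 e2, ← integral_sub e4 (e3.const_mul 2)]
    refine integral_congr_ae (Eventually.of_forall fun x => ?_)
    simp only
    ring
  rw [h3] at h1
  have h4 := (abs_lt.mp h2).1
  linarith

theorem NCprep {I : Type} [LinearOrder I] [MeasurableSpace I] {ν : Measure I} (hT : Tot I ν)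
    (h : ℕ → I → ℝ) (K : ℝ) (hK : ∀ n i, |h n i| ≤ K) (δ : ℝ) (hδ : 0 < δ)
    (hsep : ∀ n m, n ≠ m → δ ≤ ∫ i, (h n i - h m i) ^ 2 ∂ν) :
    ∃ (k : ℕ → ℕ) (H : I → ℝ) (ρ : I → I) (d : ℝ), StrictMono k ∧ 0 < d ∧ (∀ i, |H i| ≤ K) ∧
      (∀ A : Set I, Tendsto (fun n => ∫ i in A, (h (k n) (ρ i) - H (ρ i)) ∂ν) atTop (𝓝 0)) ∧
      ∃ z0 : Set ℕ, ∀ F : Finset I,
        {n ∈ z0 | ∀ a ∈ F, d < |h (k n) (ρ a) - H (ρ a)|}.Infinite := by
  classical
  have hprob := hT.prob
  have hmeas : ∀ {β : Type} [MeasurableSpace β] (f : I → β), Measurable f := fun f A _ => hT.meas _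
  have hne : Nonempty I := by
    by_contra hcon
    rw [not_nonempty_iff] at hcon
    have h1 : ν univ = 1 := hprob.measure_univ
    rw [univ_eq_empty_iff.mpr hcon, measure_empty] at h1
    exact zero_ne_one h1
  obtain ⟨i0⟩ := hne
  have hK0 : 0 ≤ K := le_trans (abs_nonneg _) (hK 0 i0)
  set x : I → (ℕ → ℝ) := fun i n => h n i with hx
  have hxm : Measurable x := hmeas x
  set P : Measure (ℕ → ℝ) := ν.map x with hPdef
  have hP : IsProbabilityMeasure P := Measure.isProbabilityMeasure_map hxm.aemeasurable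
  set u : ℕ → (ℕ → ℝ) → ℝ := fun n y => clampK K (y n) with hu
  have hum : ∀ n, Measurable (u n) := fun n => (clampK_meas K).comp (measurable_pi_apply n)
  have huK : ∀ n y, |u n y| ≤ K := fun n y => clampK_abs hK0 _
  have hux : ∀ n i, u n (x i) = h n i := fun n i => clampK_eq (hK n i)
  obtain ⟨k, hinf, hk, hinfm, hinfK, hweak⟩ := weakSeq P inferInstance u
    (fun n => (hum n).aestronglyMeasurable) K hK0 (fun n => Eventually.of_forall (huK n))
  obtain ⟨N, hN⟩ := eventually_big (P := P) (fun n => u (k n)) hinf K (fun n => hum _) hinfm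
    (fun n => huK _) hinfK hweak δ hδ (by
      intro n m hnm
      have h1 := hsep (k n) (k m) (fun h => hnm (hk.injective h))
      have h2 : Measurable (fun y => (u (k n) y - u (k m) y) ^ 2) :=
        ((hum (k n)).sub (hum (k m))).pow_const 2
      have h3 := integral_map (μ := ν) hxm.aemeasurable h2.aestronglyMeasurable
      simp only [hux] at h3
      rw [hPdef, h3]
      exact h1)
  set w : ℕ → (ℕ → ℝ) → ℝ := fun n y => u (k (n + N)) y - hinf y with hw
  have hwm : ∀ n, Measurable (w n) := fun n => (hum _).sub hinfm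
  have hwK : ∀ n y, |w n y| ≤ 2 * K := fun n y => by
    have h1 := abs_sub (u (k (n + N)) y) (hinf y)
    have h2 := huK (k (n + N)) y
    have h3 := hinfK y
    simp only [hw]
    linarith
  obtain ⟨d, hd, z0, hz0, hpos, hst⟩ := stab P hP w hwm (2 * K) hwK (δ / 4) (by linarith)
    (fun n => hN (n + N) (Nat.le_add_left _ _))
  obtain ⟨ρ, hac, hρ⟩ := NCrec hT measCardSeq x w hwm d z0 hz0 hpos hst
  have hwx : ∀ n i, w n (x i) = h (k (n + N)) i - hinf (x i) := fun n i => by
    simp only [hw, hux]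
  refine ⟨fun n => k (n + N), fun i => hinf (x i), ρ, d, ?_, hd, fun i => hinfK _, ?_, z0, ?_⟩
  · intro a b hab
    exact hk (by omega)
  · intro A
    have hρm : Measurable (x ∘ ρ) := hmeas _
    set Q : Measure (ℕ → ℝ) := (ν.restrict A).map (x ∘ ρ) with hQ
    have hQac : Q ≪ P := by
      refine Measure.AbsolutelyContinuous.trans ?_ hac
      exact Measure.AbsolutelyContinuous.map Measure.absolutelyContinuous_restrict hρm
    have hRfin : IsFiniteMeasure Q := Measure.isFiniteMeasure_map _ _
    have hwd : P.withDensity (Q.rnDeriv P) = Q := Measure.withDensity_rnDeriv_eq Q P hQac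
    have hri : Integrable (fun y => (Q.rnDeriv P y).toReal) P := Measure.integrable_toReal_rnDeriv
    have key : ∀ n, ∫ i in A, (h (k (n + N)) (ρ i) - hinf (x (ρ i))) ∂ν =
        (∫ y, u (k (n + N)) y * (Q.rnDeriv P y).toReal ∂P) -
          ∫ y, hinf y * (Q.rnDeriv P y).toReal ∂P := by
      intro n
      have e1 : ∫ i in A, (h (k (n + N)) (ρ i) - hinf (x (ρ i))) ∂ν = ∫ y, w n y ∂Q := by
        rw [hQ, integral_map hρm.aemeasurable (hwm n).aestronglyMeasurable]
        refine integral_congr_ae (Eventually.of_forall fun i => ?_)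
        simp only [Function.comp_apply, hwx]
      have e2 : ∫ y, w n y ∂Q = ∫ y, (Q.rnDeriv P y).toReal * w n y ∂P := by
        have := integral_rnDeriv_smul (μ := Q) (ν := P) (f := w n) hQac
        simp only [smul_eq_mul] at this
        exact this.symm
      rw [e1, e2]
      have i1 : Integrable (fun y => u (k (n + N)) y * (Q.rnDeriv P y).toReal) P :=
        hri.bdd_mul (hum _).aestronglyMeasurable (c := K)
          (Eventually.of_forall fun y => by rw [Real.norm_eq_abs]; exact huK _ y)
      have i2 : Integrable (fun y => hinf y * (Q.rnDeriv P y).toReal) P :=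
        hri.bdd_mul hinfm.aestronglyMeasurable (c := K)
          (Eventually.of_forall fun y => by rw [Real.norm_eq_abs]; exact hinfK y)
      rw [← integral_sub i1 i2]
      refine integral_congr_ae (Eventually.of_forall fun y => ?_)
      simp only [hw]
      ring
    have ht := (hweak (fun y => (Q.rnDeriv P y).toReal) hri)
    have ht2 := (ht.comp (tendsto_add_atTop_nat N)).sub_const
      (∫ y, hinf y * (Q.rnDeriv P y).toReal ∂P)
    rw [sub_self] at ht2
    refine ht2.congr fun n => ?_
    exact (key n).symm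
  · intro F
    have h1 := hρ F
    simp only [hwx] at h1
    exact h1

end Pool.Agent.RVM
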