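import Pool.Agent.RVM.M4

set_option autoImplicit false

open MeasureTheory Set Filter Topology Cardinal
open scoped ENNReal

namespace Pool.Agent.RVM

namespace RecEndAux

/-- the family of sets used at stage `i` -/
def fam {I : Type} [LinearOrder I] {Ω : Type} (Y : ℕ → Ω → Set ℕ) (A : I → Set ℕ) (i : I)
    (w : ∀ j, j < i → Ω) : Set (Set ℕ) :=
  Set.range (fun q : (↥(Iio i)) × Finset ((↥(Iio i)) × ℕ) =>
    A q.1.1 ∩ ⋂ p ∈ q.2, Y p.2 (w p.1.1 p.1.2))

theorem fam_card {I : Type} [LinearOrder I] [MeasurableSpace I] {ν : Measure I} (hT : Tot I ν)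
    {Ω : Type} (Y : ℕ → Ω → Set ℕ) (A : I → Set ℕ) (i : I) (w : ∀ j, j < i → Ω) :
    #(fam Y A i w) < 𝔠 := by
  refine lt_of_le_of_lt Cardinal.mk_range_le ?_
  have h1 : #(↥(Iio i)) < 𝔠 :=
    lt_of_le_of_lt (Cardinal.mk_le_mk_of_subset (fun x hx => le_of_lt hx)) (hT.seg i)
  have h2 : #((↥(Iio i)) × ℕ) < 𝔠 := by
    rw [Cardinal.mk_prod, Cardinal.lift_id, Cardinal.lift_id]
    exact Cardinal.mul_lt_of_lt Cardinal.aleph0_le_continuum h1
      (by rw [Cardinal.mk_nat]; exact Cardinal.aleph0_lt_continuum)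
  have h3 : #(Finset ((↥(Iio i)) × ℕ)) < 𝔠 := by
    rcases finite_or_infinite ((↥(Iio i)) × ℕ) with hf | hi
    · have : Finite (Finset ((↥(Iio i)) × ℕ)) := inferInstance
      exact lt_of_lt_of_le (Cardinal.lt_aleph0_of_finite _) Cardinal.aleph0_le_continuum
    · rw [Cardinal.mk_finset_of_infinite]; exact h2
  rw [Cardinal.mk_prod, Cardinal.lift_id, Cardinal.lift_id]
  exact Cardinal.mul_lt_of_lt Cardinal.aleph0_le_continuum h1 h3

theorem exists_good {I : Type} [LinearOrder I] [MeasurableSpace I] {ν : Measure I} (hT : Tot I ν)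
    (m : Set ℕ → ℝ) (hm : FAP m) {Ω : Type} (Y : ℕ → Ω → Set ℕ)
    (h : ∀ U : ℕ → Ultrafilter ℕ, (∀ k, ∀ A ∈ U k, 0 < m A) → ∃ ω, ∀ k j, Y j ω ∈ U k)
    (A : I → Set ℕ) (i : I) (w : ∀ j, j < i → Ω) :
    ∃ ω : Ω, ∀ B ∈ fam Y A i w, 0 < m B → ∀ s : Finset ℕ, 0 < m (B ∩ ⋂ j ∈ s, Y j ω) := by
  obtain ⟨U, hU1, hU2⟩ := M4 hT m hm (fam Y A i w) (fam_card hT Y A i w)
  obtain ⟨ω, hω⟩ := h U hU1
  refine ⟨ω, fun B hB hpos s => ?_⟩
  obtain ⟨k, hk⟩ := hU2 B hB hpos
  apply hU1 k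
  refine Filter.inter_mem hk ?_
  exact (Filter.biInter_finset_mem s).mpr (fun j _ => hω k j)

end RecEndAux

open RecEndAux in
theorem recEnd {I : Type} [LinearOrder I] [MeasurableSpace I] {ν : Measure I} (hT : Tot I ν)
    (m : Set ℕ → ℝ) (hm : FAP m) {Ω : Type} (Y : ℕ → Ω → Set ℕ)
    (h : ∀ U : ℕ → Ultrafilter ℕ, (∀ k, ∀ A ∈ U k, 0 < m A) → ∃ ω, ∀ k j, Y j ω ∈ U k) :
    ∃ w : I → Ω, ∀ A : Set ℕ, 0 < m A → ∃ i0 : I, ∀ F : Finset (I × ℕ), (∀ p ∈ F, i0 < p.1) →
      0 < m (A ∩ ⋂ p ∈ F, Y p.2 (w p.1)) := by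
  classical
  have hcard : #(Set ℕ) = #I := by
    rw [hT.card, Cardinal.mk_set, Cardinal.mk_nat, Cardinal.two_power_aleph0]
  obtain ⟨eqv⟩ := Cardinal.eq.mp hcard
  let A : I → Set ℕ := eqv.symm
  let w : I → Ω := hT.wf.fix (fun i rec => Classical.choose (exists_good hT m hm Y h A i rec))
  have hw : ∀ i, ∀ B ∈ fam Y A i (fun j _ => w j), 0 < m B → ∀ s : Finset ℕ,
      0 < m (B ∩ ⋂ j ∈ s, Y j (w i)) := by
    intro i
    have heq : w i = Classical.choose (exists_good hT m hm Y h A i (fun j _ => w j)) :=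
      hT.wf.fix_eq _ i
    rw [heq]
    exact Classical.choose_spec (exists_good hT m hm Y h A i (fun j _ => w j))
  have key : ∀ (η : I), 0 < m (A η) → ∀ (n : ℕ) (F : Finset (I × ℕ)), F.card = n →
      (∀ p ∈ F, η < p.1) → 0 < m (A η ∩ ⋂ p ∈ F, Y p.2 (w p.1)) := by
    intro η hη n
    induction n using Nat.strong_induction_on with
    | _ n ih =>
      intro F hFn hF
      rcases F.eq_empty_or_nonempty with rfl | hne
      · simpa using hη
      · have hne' : (F.image Prod.fst).Nonempty := hne.image _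
        obtain ⟨i, hi⟩ : ∃ i, i = (F.image Prod.fst).max' hne' := ⟨_, rfl⟩
        have himem : i ∈ F.image Prod.fst := by rw [hi]; exact Finset.max'_mem _ _
        have hle : ∀ p ∈ F, p.1 ≤ i := by
          intro p hp
          rw [hi]
          exact Finset.le_max' _ _ (Finset.mem_image_of_mem _ hp)
        obtain ⟨p0, hp0, hp0i⟩ := Finset.mem_image.mp himem
        have hηi : η < i := by rw [← hp0i]; exact hF p0 hp0
        have hcardlt : (F.filter (fun p => p.1 < i)).card < n := by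
          rw [← hFn]
          apply Finset.card_lt_card
          refine Finset.ssubset_iff_subset_ne.mpr ⟨Finset.filter_subset _ _, ?_⟩
          intro heq
          have : p0 ∈ F.filter (fun p => p.1 < i) := by rw [heq]; exact hp0
          rw [Finset.mem_filter] at this
          exact absurd hp0i (ne_of_lt this.2)
        have hpos := ih _ hcardlt (F.filter (fun p => p.1 < i)) rfl
          (fun p hp => hF p (Finset.mem_filter.mp hp).1)
        have hsm : ∀ p ∈ F.filter (fun p => p.1 < i), p.1 < i :=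
          fun p hp => (Finset.mem_filter.mp hp).2
        have hmem : (A η ∩ ⋂ p ∈ F.filter (fun p => p.1 < i), Y p.2 (w p.1)) ∈
            fam Y A i (fun j _ => w j) := by
          unfold fam
          refine ⟨(⟨η, hηi⟩, (F.filter (fun p => p.1 < i)).attach.image
            (fun p => ((⟨p.1.1, hsm p.1 p.2⟩ : ↥(Iio i)), p.1.2))), ?_⟩
          ext x
          simp only [Set.mem_inter_iff, Set.mem_iInter, Finset.mem_image, Finset.mem_attach,
            true_and, Subtype.exists]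
          constructor
          · rintro ⟨h1, h2⟩
            refine ⟨h1, fun p hp => ?_⟩
            exact h2 ((⟨p.1, hsm p hp⟩ : ↥(Iio i)), p.2) ⟨p, hp, rfl⟩
          · rintro ⟨h1, h2⟩
            refine ⟨h1, ?_⟩
            rintro q ⟨p, hp, rfl⟩
            exact h2 p hp
        have hfin := hw i _ hmem hpos ((F.filter (fun p => p.1 = i)).image Prod.snd)
        refine lt_of_lt_of_le hfin (hm.mono ?_)
        rintro x ⟨⟨h1, h2⟩, h3⟩
        refine ⟨h1, ?_⟩
        rw [Set.mem_iInter₂] at h2 h3 ⊢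
        intro p hp
        rcases lt_or_eq_of_le (hle p hp) with hlt | heq
        · exact h2 p (Finset.mem_filter.mpr ⟨hp, hlt⟩)
        · rw [heq]
          exact h3 p.2 (Finset.mem_image.mpr ⟨p, Finset.mem_filter.mpr ⟨hp, heq⟩, rfl⟩)
  refine ⟨w, fun B hB => ⟨eqv B, fun F hF => ?_⟩⟩
  have hAB : A (eqv B) = B := eqv.symm_apply_apply B
  have := key (eqv B) (by rw [hAB]; exact hB) F.card F rfl hF
  rwa [hAB] at this

end Pool.Agent.RVM
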