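import Pool.Agent.RVM.Defs

set_option autoImplicit false

open MeasureTheory Set Filter Topology Cardinal
open scoped ENNReal

namespace Pool.Agent.RVM

/-- `2^ℵ₀` is real-valued measurable: some probability measure on all subsets of `ℝ` vanishes at
points, and the union of fewer than `2^ℵ₀` null sets is null. -/
def RVM : Prop :=
  ∃ m : @Measure ℝ ⊤, m univ = 1 ∧ (∀ x, m {x} = 0) ∧
    ∀ S : Set (Set ℝ), #S < 𝔠 → (∀ A ∈ S, m A = 0) → m (⋃₀ S) = 0

/-
PLAN.  `I := (Cardinal.ord 𝔠).ToType` with its order and the σ-algebra `⊤`; `e : ℝ ≃ I` (both have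
cardinality 𝔠); `ν := m.map e`.
-/
theorem setup (h : RVM) : ∃ (I : Type) (_ : LinearOrder I) (_ : MeasurableSpace I)
    (ν : Measure I), Tot I ν := by
  obtain ⟨m, hm1, hm0, hmS⟩ := h
  let I : Type := (Cardinal.ord 𝔠).ToType
  have hcard : #I = 𝔠 := Cardinal.mk_ord_toType 𝔠
  have hne : Nonempty (ℝ ≃ I) := by
    rw [← Cardinal.eq, hcard, Cardinal.mk_real]
  obtain ⟨e⟩ := hne
  let mI : MeasurableSpace I := ⊤
  have he : @Measurable ℝ I ⊤ mI e := fun _ _ => trivial
  let ν : Measure I := @Measure.map ℝ I ⊤ mI e m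
  have hν : ∀ A : Set I, ν A = m (e ⁻¹' A) := fun A =>
    @Measure.map_apply ℝ I ⊤ mI m e he A trivial
  refine ⟨I, inferInstance, mI, ν, ?_⟩
  refine
    { prob := ⟨by rw [hν, preimage_univ, hm1]⟩
      meas := fun _ => trivial
      wf := wellFounded_lt
      seg := ?_
      card := hcard
      pt := ?_
      add := ?_ }
  · intro i
    have h1 : #(Iio i) < 𝔠 := Cardinal.mk_Iio_toType_ord_lt i
    have h2 : (Iic i : Set I) = insert i (Iio i) := by
      ext x; simp [le_iff_eq_or_lt]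
    rw [h2]
    refine lt_of_le_of_lt (Cardinal.mk_insert_le) ?_
    exact Cardinal.add_lt_of_lt Cardinal.aleph0_le_continuum h1
      (lt_of_lt_of_le Cardinal.one_lt_aleph0 Cardinal.aleph0_le_continuum)
  · intro i
    rw [hν]
    have : e ⁻¹' {i} = {e.symm i} := by
      ext x; simp [Equiv.eq_symm_apply]
    rw [this, hm0]
  · intro S hS hA
    rw [hν]
    have : e ⁻¹' (⋃₀ S) = ⋃₀ ((fun A : Set I => e ⁻¹' A) '' S) := by
      ext x; simp
    rw [this]
    refine hmS _ (lt_of_le_of_lt Cardinal.mk_image_le hS) ?_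
    rintro _ ⟨A, hAS, rfl⟩
    rw [← hν]
    exact hA A hAS

end Pool.Agent.RVM
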