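import Pool.Agent.RVM.Defs

set_option autoImplicit false

open MeasureTheory Set Filter Topology Cardinal
open scoped ENNReal

namespace Pool.Agent.RVM

theorem weakSeqHilbert {H : Type} [NormedAddCommGroup H] [InnerProductSpace ℝ H] [CompleteSpace H]
    (u : ℕ → H) (C : ℝ) (hu : ∀ n, ‖u n‖ ≤ C) :
    ∃ (k : ℕ → ℕ) (h : H), StrictMono k ∧
      ∀ v : H, Tendsto (fun n => inner ℝ (u (k n)) v) atTop (𝓝 (inner ℝ h v)) := by
  classical
  set V : Submodule ℝ H := (Submodule.span ℝ (range u)).topologicalClosure with hV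
  have hcl : IsClosed (V : Set H) := Submodule.isClosed_topologicalClosure _
  have hcs : CompleteSpace V := hcl.completeSpace_coe
  have huV : ∀ n, u n ∈ V := fun n =>
    Submodule.le_topologicalClosure _ (Submodule.subset_span (mem_range_self n))
  have hsep : TopologicalSpace.IsSeparable (V : Set H) := by
    rw [hV, Submodule.topologicalClosure_coe]
    refine TopologicalSpace.IsSeparable.closure ?_
    exact ((countable_range u).isSeparable).span
  have hss : TopologicalSpace.SeparableSpace V := hsep.separableSpace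
  let w : ℕ → V := fun n => ⟨u n, huV n⟩
  let y : ℕ → WeakDual ℝ V := fun n => StrongDual.toWeakDual (InnerProductSpace.toDual ℝ V (w n))
  have hy : ∀ n, y n ∈ (WeakDual.toStrongDual ⁻¹' Metric.closedBall (0 : StrongDual ℝ V) C) := by
    intro n
    have h0 : ‖InnerProductSpace.toDual ℝ V (w n)‖ ≤ C := by
      rw [LinearIsometryEquiv.norm_map]
      exact hu n
    rw [mem_preimage]
    have h1 : WeakDual.toStrongDual (y n) = InnerProductSpace.toDual ℝ V (w n) := rfl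
    rw [h1]
    exact mem_closedBall_zero_iff.mpr h0
  obtain ⟨x, -, k, hk, hlim⟩ := WeakDual.isSeqCompact_closedBall ℝ V (0 : StrongDual ℝ V) C hy
  refine ⟨k, (((InnerProductSpace.toDual ℝ V).symm (WeakDual.toStrongDual x) : V) : H), hk, ?_⟩
  intro v
  have h1 : ∀ z : V, inner ℝ ((z : H)) v = inner ℝ z (V.orthogonalProjectionOnto v) := by
    intro z
    rw [Submodule.inner_orthogonalProjectionOnto_eq_of_mem_left]
  have h2 : Tendsto (fun n => (y (k n)) (V.orthogonalProjectionOnto v)) atTop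
      (𝓝 (x (V.orthogonalProjectionOnto v))) :=
    (WeakDual.eval_continuous (V.orthogonalProjectionOnto v)).continuousAt.tendsto.comp hlim
  rw [h1, InnerProductSpace.toDual_symm_apply]
  refine h2.congr ?_
  intro n
  exact (h1 (w (k n))).symm

theorem weakSeq {Ω : Type} [MeasurableSpace Ω] (μ : Measure Ω) (hμ : IsFiniteMeasure μ)
    (u : ℕ → Ω → ℝ) (hu : ∀ n, AEStronglyMeasurable (u n) μ) (C : ℝ) (hC : 0 ≤ C)
    (hb : ∀ n, ∀ᵐ ω ∂μ, |u n ω| ≤ C) :
    ∃ (k : ℕ → ℕ) (h : Ω → ℝ), StrictMono k ∧ Measurable h ∧ (∀ ω, |h ω| ≤ C) ∧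
      ∀ ψ : Ω → ℝ, Integrable ψ μ →
        Tendsto (fun n => ∫ ω, u (k n) ω * ψ ω ∂μ) atTop (𝓝 (∫ ω, h ω * ψ ω ∂μ)) := by
  classical
  have hm : ∀ n, MemLp (u n) 2 μ := fun n => MemLp.of_bound (hu n) C (hb n)
  let U : ℕ → Lp ℝ 2 μ := fun n => (hm n).toLp (u n)
  obtain ⟨K, hU⟩ : ∃ K : ℝ, ∀ n, ‖U n‖ ≤ K := by
    refine ⟨_, fun n => (Lp.norm_le_of_ae_bound (C := C) hC ?_)⟩
    filter_upwards [(hm n).coeFn_toLp, hb n] with ω h1 h2
    rw [h1]; exact h2
  obtain ⟨k, g, hk, hg⟩ := weakSeqHilbert U _ hU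
  have hgm : Measurable (g : Ω → ℝ) := (Lp.stronglyMeasurable g).measurable
  have hgi : Integrable (g : Ω → ℝ) μ := (Lp.memLp g).integrable (by norm_num)
  -- weak convergence against functions in `L²`
  have hL2 : ∀ φ : Ω → ℝ, MemLp φ 2 μ →
      Tendsto (fun n => ∫ ω, u (k n) ω * φ ω ∂μ) atTop (𝓝 (∫ ω, g ω * φ ω ∂μ)) := by
    intro φ hφ
    have h1 := hg (hφ.toLp φ)
    have h2 : ∀ f : Lp ℝ 2 μ, inner ℝ f (hφ.toLp φ) = ∫ ω, f ω * φ ω ∂μ := by
      intro f
      rw [L2.inner_def]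
      refine integral_congr_ae ?_
      filter_upwards [hφ.coeFn_toLp] with ω h3
      simp [h3, mul_comm]
    rw [h2] at h1
    refine h1.congr ?_
    intro n
    rw [h2]
    refine integral_congr_ae ?_
    filter_upwards [(hm (k n)).coeFn_toLp] with ω h3
    simp only [U]
    rw [h3]
  have hind : ∀ s : Set Ω, MeasurableSet s →
      Tendsto (fun n => ∫ ω in s, u (k n) ω ∂μ) atTop (𝓝 (∫ ω in s, g ω ∂μ)) := by
    intro s hs
    have h1 := hL2 (s.indicator (fun _ => (1 : ℝ))) ((memLp_const (1 : ℝ)).indicator hs)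
    have h2 : ∀ f : Ω → ℝ, ∫ ω, f ω * s.indicator (fun _ => (1 : ℝ)) ω ∂μ = ∫ ω in s, f ω ∂μ := by
      intro f
      rw [← integral_indicator hs]
      congr 1
      ext ω
      by_cases h : ω ∈ s <;> simp [h]
    rw [h2] at h1
    exact h1.congr fun n => h2 _
  have hui : ∀ n, Integrable (u n) μ := fun n => (hm n).integrable (by norm_num)
  have hle : ∀ᵐ ω ∂μ, g ω ≤ C := by
    refine ae_le_of_forall_setIntegral_le hgi (integrable_const C) ?_
    intro s hs _
    refine le_of_tendsto (hind s hs) (Eventually.of_forall fun n => ?_)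
    refine setIntegral_mono_ae (hui _).integrableOn (integrable_const C).integrableOn ?_
    filter_upwards [hb (k n)] with ω h
    exact (abs_le.mp h).2
  have hge : ∀ᵐ ω ∂μ, -C ≤ g ω := by
    refine ae_le_of_forall_setIntegral_le (integrable_const (-C)) hgi ?_
    intro s hs _
    refine ge_of_tendsto (hind s hs) (Eventually.of_forall fun n => ?_)
    refine setIntegral_mono_ae (integrable_const (-C)).integrableOn (hui _).integrableOn ?_
    filter_upwards [hb (k n)] with ω h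
    exact (abs_le.mp h).1
  let h : Ω → ℝ := fun ω => max (-C) (min C (g ω))
  have hhm : Measurable h := measurable_const.max (measurable_const.min hgm)
  have hhb : ∀ ω, |h ω| ≤ C := by
    intro ω
    rw [abs_le]
    exact ⟨le_max_left _ _, max_le (by linarith) (min_le_left _ _)⟩
  have hhg : ∀ᵐ ω ∂μ, h ω = g ω := by
    filter_upwards [hle, hge] with ω h1 h2
    simp only [h]
    rw [min_eq_right h1, max_eq_right h2]
  refine ⟨k, h, hk, hhm, hhb, ?_⟩
  intro ψ hψ
  have hmulI : ∀ (f φ : Ω → ℝ), AEStronglyMeasurable f μ → (∀ᵐ ω ∂μ, |f ω| ≤ C) → Integrable φ μ →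
      Integrable (fun ω => f ω * φ ω) μ := by
    intro f φ hf hfb hφ
    exact hφ.bdd_mul hf hfb
  have hbd : ∀ (f φ : Ω → ℝ), AEStronglyMeasurable f μ → (∀ᵐ ω ∂μ, |f ω| ≤ C) → Integrable φ μ →
      |∫ ω, f ω * φ ω ∂μ| ≤ C * ∫ ω, |φ ω| ∂μ := by
    intro f φ hf hfb hφ
    rw [← integral_const_mul]
    refine (abs_integral_le_integral_abs).trans ?_
    refine integral_mono_ae (hmulI f φ hf hfb hφ).abs (hφ.abs.const_mul C) ?_
    filter_upwards [hfb] with ω h1
    rw [abs_mul]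
    exact mul_le_mul_of_nonneg_right h1 (abs_nonneg _)
  rw [Metric.tendsto_atTop]
  intro ε hε
  set δ : ℝ := ε / (4 * (C + 1)) with hδ
  have hδ0 : 0 < δ := by positivity
  obtain ⟨φ, hφ1, hφ2⟩ := (memLp_one_iff_integrable.mpr hψ).exists_simpleFunc_eLpNorm_sub_lt
    (by norm_num) (ε := ENNReal.ofReal δ) (by simpa using hδ0)
  have hφL2 : MemLp (φ : Ω → ℝ) 2 μ := SimpleFunc.memLp_of_isFiniteMeasure φ 2 μ
  have hφi : Integrable (φ : Ω → ℝ) μ := memLp_one_iff_integrable.mp hφ2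
  have hdi : Integrable (fun ω => ψ ω - φ ω) μ := hψ.sub hφi
  have hdn : ∫ ω, |ψ ω - φ ω| ∂μ < δ := by
    have h1 : eLpNorm (ψ - (φ : Ω → ℝ)) 1 μ = ENNReal.ofReal (∫ ω, |ψ ω - φ ω| ∂μ) := by
      rw [eLpNorm_one_eq_lintegral_enorm]
      exact (ofReal_integral_norm_eq_lintegral_enorm hdi).symm
    rw [h1] at hφ1
    exact (ENNReal.ofReal_lt_ofReal_iff hδ0).mp hφ1
  obtain ⟨N, hN⟩ := (Metric.tendsto_atTop.mp (hL2 φ hφL2)) (ε / 2) (by positivity)
  refine ⟨N, fun n hn => ?_⟩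
  have h1 := hN n hn
  rw [Real.dist_eq] at h1 ⊢
  have hhae : ∀ᵐ ω ∂μ, |h ω| ≤ C := Eventually.of_forall hhb
  have e0 : ∫ ω, g ω * φ ω ∂μ = ∫ ω, h ω * φ ω ∂μ := by
    refine integral_congr_ae ?_
    filter_upwards [hhg] with ω h3
    rw [h3]
  rw [e0] at h1
  have e1 : ∫ ω, u (k n) ω * ψ ω ∂μ
      = (∫ ω, u (k n) ω * φ ω ∂μ) + ∫ ω, u (k n) ω * (ψ ω - φ ω) ∂μ := by
    rw [← integral_add (hmulI _ _ (hu _) (hb _) hφi) (hmulI _ _ (hu _) (hb _) hdi)]
    refine integral_congr_ae (Eventually.of_forall fun ω => ?_)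
    ring
  have e2 : ∫ ω, h ω * ψ ω ∂μ
      = (∫ ω, h ω * φ ω ∂μ) + ∫ ω, h ω * (ψ ω - φ ω) ∂μ := by
    rw [← integral_add (hmulI _ _ hhm.aestronglyMeasurable hhae hφi)
      (hmulI _ _ hhm.aestronglyMeasurable hhae hdi)]
    refine integral_congr_ae (Eventually.of_forall fun ω => ?_)
    ring
  have b1 := hbd _ _ (hu (k n)) (hb (k n)) hdi
  have b2 := hbd _ _ hhm.aestronglyMeasurable hhae hdi
  have b3 : C * ∫ ω, |ψ ω - φ ω| ∂μ ≤ ε / 4 := by
    have : C * δ ≤ ε / 4 := by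
      rw [hδ, mul_div_assoc', div_le_div_iff₀ (by positivity) (by norm_num)]
      nlinarith
    refine le_trans (mul_le_mul_of_nonneg_left hdn.le hC) this
  rw [e1, e2]
  rw [abs_lt] at h1 ⊢
  have b4 := abs_le.mp (b1.trans b3)
  have b5 := abs_le.mp (b2.trans b3)
  constructor <;> linarith [b4.1, b4.2, b5.1, b5.2, h1.1, h1.2]

end Pool.Agent.RVM
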